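import Mathlib

/-!
A small structured language for stack machines, its cost semantics, and its translation to
Mathlib's `Turing.TM2` machines. One unit of cost is one step of the machine.
-/

namespace Pool.Agent.Helper64.Stk

open Turing

/-- Commands on stacks. `loop k stop body`: pop a symbol from `k`; if there is none, or if the
symbol satisfies `stop`, leave the loop; otherwise run the body of the symbol and repeat.
`cas k e body`: pop a symbol from `k`; if there is none run `e`, otherwise run the body of the
symbol. -/
inductive Cmd (K Γ : Type) : Type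
  | skip : Cmd K Γ
  | push (k : K) (a : Γ) : Cmd K Γ
  | seq (c d : Cmd K Γ) : Cmd K Γ
  | loop (k : K) (stop : Γ → Bool) (body : Γ → Cmd K Γ) : Cmd K Γ
  | cas (k : K) (e : Cmd K Γ) (body : Γ → Cmd K Γ) : Cmd K Γ

namespace Cmd

variable {K Γ : Type}

/-- Labels of the machine of a command. -/
def Lab : Cmd K Γ → Type
  | skip => Unit
  | push _ _ => Unit
  | seq c d => c.Lab ⊕ d.Lab
  | loop _ _ body => Option (Σ a, (body a).Lab)
  | cas _ e body => Option (e.Lab ⊕ Σ a, (body a).Lab)

/-- Labels are finite. -/
@[instance_reducible] def labFin [Fintype Γ] : (c : Cmd K Γ) → Fintype c.Lab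
  | skip => inferInstanceAs (Fintype Unit)
  | push _ _ => inferInstanceAs (Fintype Unit)
  | seq c d =>
    haveI := c.labFin
    haveI := d.labFin
    inferInstanceAs (Fintype (c.Lab ⊕ d.Lab))
  | loop _ _ body =>
    haveI := fun a => (body a).labFin
    inferInstanceAs (Fintype (Option (Σ a, (body a).Lab)))
  | cas _ e body =>
    haveI := e.labFin
    haveI := fun a => (body a).labFin
    inferInstanceAs (Fintype (Option (e.Lab ⊕ Σ a, (body a).Lab)))

/-- The first label. -/
def entry : (c : Cmd K Γ) → c.Lab
  | skip => ()
  | push _ _ => ()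
  | seq c _ => Sum.inl c.entry
  | loop _ _ _ => none
  | cas _ _ _ => none

/-- The machine code. -/
def code {Λ : Type} : (c : Cmd K Γ) → (c.Lab → Λ) → Λ → c.Lab →
    TM2.Stmt (fun _ : K => Γ) Λ (Option Γ)
  | skip, _, exit, _ => .goto (fun _ => exit)
  | push k a, _, exit, _ => .push k (fun _ => a) (.goto (fun _ => exit))
  | seq c d, emb, exit, l => match l with
    | .inl l => c.code (fun l => emb (.inl l)) (emb (.inr d.entry)) l
    | .inr l => d.code (fun l => emb (.inr l)) exit l
  | loop k stop body, emb, exit, l => match l with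
    | none => .pop k (fun _ o => o) (.goto (fun o => match o with
        | none => exit
        | some a => if stop a then exit else emb (some ⟨a, (body a).entry⟩)))
    | some ⟨a, l⟩ => (body a).code (fun l => emb (some ⟨a, l⟩)) (emb none) l
  | cas k e body, emb, exit, l => match l with
    | none => .pop k (fun _ o => o) (.goto (fun o => match o with
        | none => emb (some (.inl e.entry))
        | some a => emb (some (.inr ⟨a, (body a).entry⟩))))
    | some (.inl l) => e.code (fun l => emb (some (.inl l))) exit l
    | some (.inr ⟨a, l⟩) => (body a).code (fun l => emb (some (.inr ⟨a, l⟩))) exit l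

end Cmd

open Cmd

variable {K Γ : Type} [DecidableEq K]

/-- `Runs c S S' t`: the command takes the stacks `S` to `S'` in exactly `t` steps. -/
inductive Runs : Cmd K Γ → (K → List Γ) → (K → List Γ) → ℕ → Prop
  | skip (S : K → List Γ) : Runs .skip S S 1
  | push (k : K) (a : Γ) (S : K → List Γ) :
      Runs (.push k a) S (Function.update S k (a :: S k)) 1
  | seq {c d : Cmd K Γ} {S S' S'' : K → List Γ} {t t' : ℕ} (h : Runs c S S' t)
      (h' : Runs d S' S'' t') : Runs (.seq c d) S S'' (t + t')
  | loop_nil {k : K} {stop : Γ → Bool} {body : Γ → Cmd K Γ} {S : K → List Γ} (h : S k = []) :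
      Runs (.loop k stop body) S S 1
  | loop_stop {k : K} {stop : Γ → Bool} {body : Γ → Cmd K Γ} {S : K → List Γ} {a : Γ}
      {l : List Γ} (h : S k = a :: l) (ha : stop a = true) :
      Runs (.loop k stop body) S (Function.update S k l) 1
  | loop_step {k : K} {stop : Γ → Bool} {body : Γ → Cmd K Γ} {S S' S'' : K → List Γ} {a : Γ}
      {l : List Γ} {t t' : ℕ} (h : S k = a :: l) (ha : stop a = false)
      (h1 : Runs (body a) (Function.update S k l) S' t)
      (h2 : Runs (.loop k stop body) S' S'' t') :
      Runs (.loop k stop body) S S'' (1 + t + t')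
  | cas_nil {k : K} {e : Cmd K Γ} {body : Γ → Cmd K Γ} {S S' : K → List Γ} {t : ℕ}
      (h : S k = []) (h1 : Runs e S S' t) : Runs (.cas k e body) S S' (1 + t)
  | cas_cons {k : K} {e : Cmd K Γ} {body : Γ → Cmd K Γ} {S S' : K → List Γ} {a : Γ}
      {l : List Γ} {t : ℕ} (h : S k = a :: l) (h1 : Runs (body a) (Function.update S k l) S' t) :
      Runs (.cas k e body) S S' (1 + t)

/-- Each step pushes at most one symbol. -/
theorem Runs.length_le {c : Cmd K Γ} {S S' : K → List Γ} {t : ℕ} (h : Runs c S S' t) (j : K) :
    (S' j).length ≤ (S j).length + t := by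
  induction h with
  | skip S => omega
  | push k a S =>
    by_cases hj : j = k
    · subst hj; simp
    · simp [Function.update_of_ne hj]
  | seq h h' ih ih' => omega
  | loop_nil h => omega
  | @loop_stop k stop body S a l h ha =>
    by_cases hj : j = k
    · subst hj; simp [h]; omega
    · simp [Function.update_of_ne hj]
  | @loop_step k stop body S S' S'' a l t t' h ha h1 h2 ih1 ih2 =>
    by_cases hj : j = k
    · subst hj; simp [h] at ih1 ⊢; omega
    · simp [Function.update_of_ne hj] at ih1; omega
  | cas_nil h h1 ih => omega
  | @cas_cons k e body S S' a l t h h1 ih =>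
    by_cases hj : j = k
    · subst hj; simp [h] at ih ⊢; omega
    · simp [Function.update_of_ne hj] at ih; omega

/-- Reachability in exactly `n` steps. -/
def Reach {Λ : Type} (m : Λ → TM2.Stmt (fun _ : K => Γ) Λ (Option Γ)) (n : ℕ)
    (x y : TM2.Cfg (fun _ : K => Γ) Λ (Option Γ)) : Prop :=
  (flip bind (TM2.step m))^[n] (some x) = some y

theorem Reach.trans {Λ : Type} {m : Λ → TM2.Stmt (fun _ : K => Γ) Λ (Option Γ)} {n n' : ℕ}
    {x y z : TM2.Cfg (fun _ : K => Γ) Λ (Option Γ)} (h : Reach m n x y) (h' : Reach m n' y z) :
    Reach m (n + n') x z := by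
  unfold Reach at *
  rw [Nat.add_comm, Function.iterate_add_apply, h, h']

theorem Reach.one {Λ : Type} {m : Λ → TM2.Stmt (fun _ : K => Γ) Λ (Option Γ)} {l : Λ}
    {q : TM2.Stmt (fun _ : K => Γ) Λ (Option Γ)}
    {o : Option Γ} {S : K → List Γ} {y : TM2.Cfg (fun _ : K => Γ) Λ (Option Γ)}
    (hq : m l = q) (h : TM2.stepAux q o S = y) : Reach m 1 ⟨some l, o, S⟩ y := by
  subst hq
  unfold Reach
  simp only [Function.iterate_one, flip, Option.bind_eq_bind, Option.bind_some, TM2.step, h]

/-- Correctness of the translation. -/
theorem Runs.reach {Λ : Type} {c : Cmd K Γ} {S S' : K → List Γ} {t : ℕ} (h : Runs c S S' t)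
    (m : Λ → TM2.Stmt (fun _ : K => Γ) Λ (Option Γ)) (emb : c.Lab → Λ) (exit : Λ)
    (hm : ∀ l, m (emb l) = c.code emb exit l) (o : Option Γ) :
    ∃ o', Reach m t ⟨some (emb c.entry), o, S⟩ ⟨some exit, o', S'⟩ := by
  induction h generalizing exit o with
  | skip S => exact ⟨o, Reach.one (hm _) rfl⟩
  | push k a S => exact ⟨o, Reach.one (hm _) rfl⟩
  | @seq c d S S' S'' t t' h h' ih ih' =>
    obtain ⟨o1, h1⟩ := ih (fun l => emb (.inl l)) (emb (.inr d.entry))
      (fun l => hm (.inl l)) o
    obtain ⟨o2, h2⟩ := ih' (fun l => emb (.inr l)) exit (fun l => hm (.inr l)) o1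
    exact ⟨o2, h1.trans h2⟩
  | @loop_nil k stop body S h =>
    refine ⟨none, Reach.one (hm none) ?_⟩
    simp only [code, TM2.stepAux, h, List.head?_nil, List.tail_nil]
    congr 1
    rw [← h, Function.update_eq_self]
  | @loop_stop k stop body S a l h ha =>
    refine ⟨some a, Reach.one (hm none) ?_⟩
    simp only [code, TM2.stepAux, h, List.head?_cons, List.tail_cons, ha, if_true]
  | @loop_step k stop body S S' S'' a l t t' h ha h1 h2 ih1 ih2 =>
    have e1 : Reach m 1 ⟨some (emb none), o, S⟩
        ⟨some (emb (some ⟨a, (body a).entry⟩)), some a, Function.update S k l⟩ := by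
      refine Reach.one (hm none) ?_
      simp only [code, TM2.stepAux, h, List.head?_cons, List.tail_cons, ha, Bool.false_eq_true,
        if_false]
    obtain ⟨o1, h3⟩ := ih1 (fun l => emb (some ⟨a, l⟩)) (emb none)
      (fun l => hm (some ⟨a, l⟩)) (some a)
    obtain ⟨o2, h4⟩ := ih2 emb exit hm o1
    exact ⟨o2, (e1.trans h3).trans h4⟩
  | @cas_nil k e body S S' t h h1 ih =>
    have e1 : Reach m 1 ⟨some (emb none), o, S⟩ ⟨some (emb (some (.inl e.entry))), none, S⟩ := by
      refine Reach.one (hm none) ?_
      simp only [code, TM2.stepAux, h, List.head?_nil, List.tail_nil]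
      congr 1
      rw [← h, Function.update_eq_self]
    obtain ⟨o1, h3⟩ := ih (fun l => emb (some (.inl l))) exit
      (fun l => hm (some (.inl l))) none
    exact ⟨o1, e1.trans h3⟩
  | @cas_cons k e body S S' a l t h h1 ih =>
    have e1 : Reach m 1 ⟨some (emb none), o, S⟩
        ⟨some (emb (some (.inr ⟨a, (body a).entry⟩))), some a, Function.update S k l⟩ := by
      refine Reach.one (hm none) ?_
      simp only [code, TM2.stepAux, h, List.head?_cons, List.tail_cons]
    obtain ⟨o1, h3⟩ := ih (fun l => emb (some (.inr ⟨a, l⟩))) exit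
      (fun l => hm (some (.inr ⟨a, l⟩))) (some a)
    exact ⟨o1, e1.trans h3⟩

/-- The machine of a command. -/
def machine [Fintype K] [Fintype Γ] (kin kout : K) (c : Cmd K Γ) : FinTM2 where
  K := K
  k₀ := kin
  k₁ := kout
  Γ := fun _ => Γ
  Λ := Option c.Lab
  main := some c.entry
  ΛFin := haveI := c.labFin; inferInstance
  σ := Option Γ
  initialState := none
  Γk₀Fin := inferInstance
  m := fun l => match l with
    | none => .load (fun _ => none) .halt
    | some l => c.code some none l

/-- The stacks with the word `l` on the stack `k` and all others empty. -/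
def only (k : K) (l : List Γ) : K → List Γ := fun j => if j = k then l else []

theorem initList_machine [Fintype K] [Fintype Γ] (kin kout : K) (c : Cmd K Γ) (l : List Γ) :
    initList (machine kin kout c) l = ⟨some (some c.entry), none, only kin l⟩ := by
  unfold initList
  congr 1

theorem haltList_machine [Fintype K] [Fintype Γ] (kin kout : K) (c : Cmd K Γ) (l : List Γ) :
    haltList (machine kin kout c) l = ⟨none, none, only kout l⟩ := by
  unfold haltList
  congr 1

/-- A command which transforms codes within polynomial time gives polynomial time computability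
in the sense of Mathlib. -/
noncomputable def computable_of_runs [Fintype K] [Fintype Γ] {α β : Type} (ea : α → List Γ)
    (eb : β → List Γ) (f : α → β) (kin kout : K) (c : Cmd K Γ) (p : Polynomial ℕ)
    (h : ∀ x, ∃ t, t ≤ p.eval (ea x).length ∧
      Runs c (only kin (ea x)) (only kout (eb (f x))) t) :
    TM2ComputableInPolyTime ea eb f where
  tm := machine kin kout c
  inputAlphabet := Equiv.refl _
  outputAlphabet := Equiv.refl _
  time := p + 1
  outputsFun x :=
    { steps := (h x).choose + 1
      evals_in_steps := by
        have h1 := (h x).choose_spec.2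
        obtain ⟨o', h2⟩ := h1.reach (machine kin kout c).m some none (fun l => rfl) none
        have h3 : Reach (machine kin kout c).m 1 ⟨some none, o', only kout (eb (f x))⟩
            ⟨none, none, only kout (eb (f x))⟩ := Reach.one rfl rfl
        have h4 := h2.trans h3
        have e1 : initList (machine kin kout c) (List.map (Equiv.refl Γ).invFun (ea x))
            = ⟨some (some c.entry), none, only kin (ea x)⟩ :=
          (congrArg (initList (machine kin kout c))
            (by simp : List.map (Equiv.refl Γ).invFun (ea x) = ea x)).trans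
            (initList_machine kin kout c (ea x))
        have e2 : haltList (machine kin kout c) (List.map (Equiv.refl Γ).invFun (eb (f x)))
            = ⟨none, none, only kout (eb (f x))⟩ :=
          (congrArg (haltList (machine kin kout c))
            (by simp : List.map (Equiv.refl Γ).invFun (eb (f x)) = eb (f x))).trans
            (haltList_machine kin kout c (eb (f x)))
        rw [Option.map_some]
        erw [e1, e2]
        exact h4
      steps_le_m := by
        have := (h x).choose_spec.1
        simp only [Polynomial.eval_add, Polynomial.eval_one]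
        omega }

end Pool.Agent.Helper64.Stk
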