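import Pool.Agent.Helper64.MEE.Tree

/-!
The combinatorial core of the lower bound: in a tree which computes the gadget function and in
which each heavy variable sits on exactly one leaf, the number of light leaves is at least the
number of heavy variables plus the size of a cover.
-/

set_option linter.unusedSectionVars false
set_option linter.unusedSimpArgs false

namespace Pool.Agent.Helper64.MEE

namespace Tr

variable {L H : Type} [DecidableEq H]

/-- Light variables in the largest subtree whose only heavy leaf is `h`. -/
def blk (h : H) : Tr L H → List L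
  | cst _ => []
  | light _ _ => []
  | heavy _ _ => []
  | gate _ l r => if l.nh + r.nh = 1 then
      (if l.hcount h + r.hcount h = 0 then [] else l.lights ++ r.lights)
    else l.blk h ++ r.blk h

/-- Light variables outside of all the subtrees with exactly one heavy leaf. -/
def free : Tr L H → List L
  | cst _ => []
  | light x _ => [x]
  | heavy _ _ => []
  | gate _ l r => if l.nh + r.nh = 1 then [] else l.free ++ r.free

theorem blk_of_nh_one {t : Tr L H} {h : H} (ht : t.nh = 1) (hh : t.hcount h ≠ 0) :
    t.blk h = t.lights := by
  cases t with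
  | cst b => rfl
  | light x s => simp [nh] at ht
  | heavy a s => rfl
  | gate op l r =>
    simp only [nh] at ht
    simp only [hcount] at hh
    simp only [blk, ht, if_true, hh, if_false, lights]

theorem free_of_nh_zero {t : Tr L H} (ht : t.nh = 0) : t.free = t.lights := by
  induction t with
  | cst b => rfl
  | light x s => rfl
  | heavy a s => simp [nh] at ht
  | gate op l r ihl ihr =>
    simp only [nh] at ht
    have h1 : l.nh = 0 := by omega
    have h2 : r.nh = 0 := by omega
    simp [free, h1, h2, lights, ihl h1, ihr h2]

theorem count_lights [Fintype H] (t : Tr L H) (ht : ∀ h, t.hcount h ≤ 1) :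
    t.lights.length = t.free.length + ∑ h, (t.blk h).length := by
  induction t with
  | cst b => simp [lights, free, blk]
  | light x s => simp [lights, free, blk]
  | heavy a s => simp [lights, free, blk]
  | gate op l r ihl ihr =>
    by_cases h1 : l.nh + r.nh = 1
    · obtain ⟨h0, hh0⟩ := exists_of_nh (gate op l r) (by simp only [nh]; omega)
      have hother : ∀ h, h ≠ h0 → (gate op l r).hcount h = 0 := by
        intro h hne
        by_contra hc
        have := nh_ge_two hne hc hh0
        simp only [nh] at this
        omega
      rw [Finset.sum_eq_single h0]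
      · rw [blk_of_nh_one (by simp only [nh]; omega) hh0]
        simp [free, h1]
      · intro h _ hne
        have := hother h hne
        simp only [hcount] at this
        simp [blk, h1, this]
      · simp
    · have e1 := ihl (fun h => by have := ht h; simp only [hcount] at this; omega)
      have e2 := ihr (fun h => by have := ht h; simp only [hcount] at this; omega)
      simp only [lights, free, blk, h1, if_false, List.length_append, Finset.sum_add_distrib]
      omega

/-- The maximal subtree with only the heavy leaf `h`, its sibling and the rest of the path. -/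
theorem exists_block (t : Tr L H) (h : H) (hc : t.hcount h ≠ 0) (hn : 2 ≤ t.nh) :
    ∃ S op S' F, Sub S ((op, S') :: F) t ∧ S.nh = 1 ∧ S.hcount h ≠ 0 ∧ S'.nh ≠ 0 ∧
      ∀ x ∈ S.lights, x ∈ t.blk h := by
  induction t with
  | cst b => simp [nh] at hn
  | light x s => simp [nh] at hn
  | heavy a s => simp [nh] at hn
  | gate op l r ihl ihr =>
    simp only [nh] at hn
    have hn1 : ¬ (l.nh + r.nh = 1) := by omega
    by_cases hl : l.hcount h = 0
    · have hr : r.hcount h ≠ 0 := by simp only [hcount] at hc; omega
      by_cases h2 : 2 ≤ r.nh
      · obtain ⟨S, op', S', F, hs, h3, h4, h5, h6⟩ := ihr hr h2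
        refine ⟨S, op', S', F ++ [(op, l)], Sub.right op l hs, h3, h4, h5, ?_⟩
        intro x hx
        simp [blk, hn1, h6 x hx]
      · have := hcount_le_nh h r
        have h7 : r.nh = 1 := by omega
        refine ⟨r, op, l, [], Sub.right op l Sub.refl, h7, hr, by omega, ?_⟩
        intro x hx
        simp [blk, hn1, blk_of_nh_one h7 hr, hx]
    · by_cases h2 : 2 ≤ l.nh
      · obtain ⟨S, op', S', F, hs, h3, h4, h5, h6⟩ := ihl hl h2
        refine ⟨S, op', S', F ++ [(op, r)], Sub.left op r hs, h3, h4, h5, ?_⟩
        intro x hx
        simp [blk, hn1, h6 x hx]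
      · have := hcount_le_nh h l
        have h7 : l.nh = 1 := by omega
        refine ⟨l, op, r, [], Sub.left op r Sub.refl, h7, hl, by omega, ?_⟩
        intro x hx
        simp [blk, hn1, blk_of_nh_one h7 hl, hx]

theorem Sub.lights_sub {s t : Tr L H} {F : List (Bool × Tr L H)} (hs : Sub s F t) :
    ∀ f ∈ F, ∀ x ∈ f.2.lights, x ∈ t.lights := by
  induction hs with
  | refl => simp
  | left op r h ih =>
    intro f hf x hx
    rcases List.mem_append.mp hf with hf | hf
    · simp [lights, ih f hf x hx]
    · simp only [List.mem_singleton] at hf
      subst hf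
      simp [lights, hx]
  | right op l h ih =>
    intro f hf x hx
    rcases List.mem_append.mp hf with hf | hf
    · simp [lights, ih f hf x hx]
    · simp only [List.mem_singleton] at hf
      subst hf
      simp [lights, hx]

/-- Light leaves in siblings without heavy leaves on the path from `z` are free or in the
block of `z`. -/
theorem Sub.light_siblings {s t : Tr L H} {F : List (Bool × Tr L H)} (hs : Sub s F t) {z : H}
    (hz : s.hcount z ≠ 0) : ∀ f ∈ F, f.2.nh = 0 → ∀ x ∈ f.2.lights, x ∈ t.free ++ t.blk z := by
  induction hs with
  | refl => simp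
  | @left F l op r h ih =>
    intro f hf hf0 x hx
    have hzl : l.hcount z ≠ 0 := by have := h.hcount_eq z; omega
    rcases List.mem_append.mp hf with hf | hf
    · by_cases hn : l.nh + r.nh = 1
      · rw [blk_of_nh_one (t := gate op l r) (by simpa [nh] using hn)
          (by simp only [hcount]; omega)]
        simp [lights, h.lights_sub f hf x hx]
      · have := ih f hf hf0 x hx
        simp only [List.mem_append] at this
        simp only [free, hn, if_false, blk, List.mem_append]
        tauto
    · simp only [List.mem_singleton] at hf
      subst hf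
      by_cases hn : l.nh + r.nh = 1
      · rw [blk_of_nh_one (t := gate op l r) (by simpa [nh] using hn)
          (by simp only [hcount]; omega)]
        simp [lights, hx]
      · simp only [free, hn, if_false, List.mem_append]
        rw [free_of_nh_zero (t := r) hf0]
        tauto
  | @right F r op l h ih =>
    intro f hf hf0 x hx
    have hzr : r.hcount z ≠ 0 := by have := h.hcount_eq z; omega
    rcases List.mem_append.mp hf with hf | hf
    · by_cases hn : l.nh + r.nh = 1
      · rw [blk_of_nh_one (t := gate op l r) (by simpa [nh] using hn)
          (by simp only [hcount]; omega)]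
        simp [lights, h.lights_sub f hf x hx]
      · have := ih f hf hf0 x hx
        simp only [List.mem_append] at this
        simp only [free, hn, if_false, blk, List.mem_append]
        tauto
    · simp only [List.mem_singleton] at hf
      subst hf
      by_cases hn : l.nh + r.nh = 1
      · rw [blk_of_nh_one (t := gate op l r) (by simpa [nh] using hn)
          (by simp only [hcount]; omega)]
        simp [lights, hx]
      · simp only [free, hn, if_false, List.mem_append]
        rw [free_of_nh_zero (t := l) hf0]
        tauto

end Tr

open Tr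

/-- A gadget: terms are indexed by `τ`, literal positions by `W`; `gw j` is the position of the
literal `g` in term `j`; `J` is the set of cover candidates. -/
structure Sys (L W τ : Type) where
  tm : W → τ
  lit : W → L × Bool
  g : L
  gw : τ → W
  J : Finset L
  tm_gw : ∀ j, tm (gw j) = j
  lit_gw : ∀ j, lit (gw j) = (g, true)
  inj : ∀ a b, tm a = tm b → (lit a).1 = (lit b).1 → a = b
  two : ∀ j, ∃ a b, a ≠ b ∧ tm a = j ∧ tm b = j ∧ a ≠ gw j ∧ b ≠ gw j
  gJ : g ∉ J

namespace Sys

variable {L W τ : Type}

/-- The literal at position `a` is true. -/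
def tr (S : Sys L W τ) (v : L → Bool) (a : W) : Prop := v (S.lit a).1 = (S.lit a).2

/-- The disjunction of the terms (without `g`). -/
def D (S : Sys L W τ) (v : L → Bool) : Prop :=
  ∃ j, ∀ a, S.tm a = j → a ≠ S.gw j → S.tr v a

/-- Some candidate is true. -/
def B (S : Sys L W τ) (v : L → Bool) : Prop := ∃ x ∈ S.J, v x = true

/-- The gadget function. -/
def FF (S : Sys L W τ) (v : L → Bool) (w : Option W → Bool) : Prop :=
  (∃ j, ∀ a, S.tm a = j → (S.tr v a ∨ w (some a) = true)) ∨
    (w none = true ∧ v S.g = true ∧ S.B v)

/-- A set of variables is a cover if it contains a true variable at each point outside `D` where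
some candidate is true. -/
def Cover (S : Sys L W τ) (I : Finset L) : Prop :=
  ∀ v, ¬ S.D v → S.B v → ∃ x ∈ I, v x = true

/-- The conditions on the terms. -/
structure Good (S : Sys L W τ) : Prop where
  c1 : ∀ a, a ≠ S.gw (S.tm a) → ∃ v, ¬ S.D v ∧ ¬ S.tr v a ∧ S.B v
  c3 : ∀ v, (∀ x ∈ S.J, v x = false) → ¬ S.D v
  c4 : ∃ v, ¬ S.D v ∧ S.B v

variable [DecidableEq L]

theorem eq_gw (S : Sys L W τ) {a : W} (h : (S.lit a).1 = S.g) : a = S.gw (S.tm a) :=
  S.inj _ _ (S.tm_gw _).symm (by rw [h, S.lit_gw])

theorem ne_g (S : Sys L W τ) {a : W} (h : a ≠ S.gw (S.tm a)) : (S.lit a).1 ≠ S.g :=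
  fun hc => h (S.eq_gw hc)

theorem D_congr (S : Sys L W τ) {v v' : L → Bool} (h : ∀ x, x ≠ S.g → v x = v' x) :
    S.D v → S.D v' := by
  rintro ⟨j, hj⟩
  refine ⟨j, fun a ha hne => ?_⟩
  have h1 := hj a ha hne
  unfold tr at h1 ⊢
  rw [← h _ (S.ne_g (by rw [ha]; exact hne))]
  exact h1

theorem B_congr (S : Sys L W τ) {v v' : L → Bool} (h : ∀ x, x ≠ S.g → v x = v' x) :
    S.B v → S.B v' := by
  rintro ⟨x, hx, hv⟩
  refine ⟨x, hx, ?_⟩
  rw [← h x (fun hc => S.gJ (hc ▸ hx))]
  exact hv

end Sys

section Main

variable {L W τ : Type} [DecidableEq L] [DecidableEq W] [DecidableEq τ]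

/-- Heavy assignment with value `z` at `none`. -/
def hw (z : Bool) (f : W → Bool) : Option W → Bool
  | none => z
  | some c => f c

@[simp] theorem hw_none (z : Bool) (f : W → Bool) : hw z f none = z := rfl
@[simp] theorem hw_some (z : Bool) (f : W → Bool) (c : W) : hw z f (some c) = f c := rfl

/-- The tree computes the gadget function with each heavy variable on one leaf. -/
structure Computes (S : Sys L W τ) (t : Tr L (Option W)) : Prop where
  ev : ∀ v w, t.eval v w = true ↔ S.FF v w
  one : ∀ h, t.hcount h = 1

variable {S : Sys L W τ} {t : Tr L (Option W)}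

theorem Computes.alive_term (hc : Computes S t) {v : L → Bool} {w : Option W → Bool} {m : W}
    (hm : ¬ S.tr v m) (hg : v S.g = false ∨ ¬ S.D v) (hz : w none = false)
    (h1 : ∀ a, S.tm a ≠ S.tm m → w (some a) = false)
    (h2 : ∀ a, S.tm a = S.tm m → a ≠ m → (w (some a) = true ∨ S.tr v a)) :
    t.eval v w = w (some m) := by
  have key : t.eval v w = true ↔ w (some m) = true := by
    rw [hc.ev]
    constructor
    · rintro (⟨j, hj⟩ | ⟨h, _⟩)
      · by_cases hjm : j = S.tm m
        · subst hjm
          rcases hj m rfl with h | h
          · exact absurd h hm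
          · exact h
        · exfalso
          rcases hg with hg | hg
          · rcases hj (S.gw j) (S.tm_gw j) with h | h
            · unfold Sys.tr at h
              rw [S.lit_gw] at h
              simp only at h
              rw [hg] at h
              exact Bool.noConfusion h
            · rw [h1 _ (by rw [S.tm_gw]; exact hjm)] at h
              exact Bool.noConfusion h
          · apply hg
            refine ⟨j, fun a ha _ => ?_⟩
            rcases hj a ha with h | h
            · exact h
            · rw [h1 a (by rw [ha]; exact hjm)] at h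
              exact Bool.noConfusion h
      · rw [hz] at h
        exact Bool.noConfusion h
    · intro h
      left
      refine ⟨S.tm m, fun a ha => ?_⟩
      by_cases ham : a = m
      · subst ham; exact Or.inr h
      · exact (h2 a ha ham).symm
  cases h1 : t.eval v w <;> cases h2 : w (some m) <;> simp_all

theorem Computes.alive_z (hc : Computes S t) {v : L → Bool} {w : Option W → Bool}
    (hD : ¬ S.D v) (h1 : ∀ a, a ≠ S.gw (S.tm a) → w (some a) = false) (hg : v S.g = true)
    (hB : S.B v) : t.eval v w = w none := by
  have key : t.eval v w = true ↔ w none = true := by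
    rw [hc.ev]
    constructor
    · rintro (⟨j, hj⟩ | ⟨h, _⟩)
      · exfalso
        apply hD
        refine ⟨j, fun a ha hne => ?_⟩
        rcases hj a ha with h | h
        · exact h
        · rw [h1 a (by rw [ha]; exact hne)] at h
          exact Bool.noConfusion h
      · exact h
    · intro h
      exact Or.inr ⟨h, hg, hB⟩
  cases h1 : t.eval v w <;> cases h2 : w none <;> simp_all

theorem Computes.dead_z (hc : Computes S t) {v : L → Bool} {w : Option W → Bool}
    (hD : ¬ S.D v) (h1 : ∀ a, a ≠ S.gw (S.tm a) → w (some a) = false)
    (hgB : v S.g = false ∨ ¬ S.B v) : t.eval v w = false := by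
  rw [Bool.eq_false_iff]
  intro h
  rw [hc.ev] at h
  rcases h with ⟨j, hj⟩ | ⟨_, h2, h3⟩
  · apply hD
    refine ⟨j, fun a ha hne => ?_⟩
    rcases hj a ha with h | h
    · exact h
    · rw [h1 a (by rw [ha]; exact hne)] at h
      exact Bool.noConfusion h
  · rcases hgB with h | h
    · rw [h] at h2; exact Bool.noConfusion h2
    · exact h h3

/-- Assignment making the literals at `a` and `b` false, and `false` elsewhere. -/
def kill (S : Sys L W τ) (a b : W) : L → Bool := fun x =>
  if x = (S.lit a).1 then !(S.lit a).2 else if x = (S.lit b).1 then !(S.lit b).2 else false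

theorem kill_left (S : Sys L W τ) (a b : W) : ¬ S.tr (kill S a b) a := by
  simp [Sys.tr, kill]

theorem kill_right (S : Sys L W τ) (a b : W)
    (h : (S.lit a).1 = (S.lit b).1 → (S.lit a).2 = (S.lit b).2) : ¬ S.tr (kill S a b) b := by
  unfold Sys.tr kill
  by_cases h1 : (S.lit b).1 = (S.lit a).1
  · rw [if_pos h1, h h1.symm]; simp
  · rw [if_neg h1, if_pos rfl]; simp

theorem kill_g (S : Sys L W τ) (a b : W) : kill S a b S.g = false := by
  unfold kill
  split_ifs with h1 h2
  · rw [S.eq_gw h1.symm, S.lit_gw]; rfl
  · rw [S.eq_gw h2.symm, S.lit_gw]; rfl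
  · rfl

theorem Computes.fact_and (hc : Computes S t) {a b : W} (hab : a ≠ b) (htm : S.tm a = S.tm b) :
    ∃ v w, ∀ x y, t.eval v (upd2 w (some a) (some b) x y) = (x && y) := by
  refine ⟨kill S a b, hw false fun c => decide (S.tm c = S.tm a), ?_⟩
  have hnv : (S.lit a).1 ≠ (S.lit b).1 := fun h => hab (S.inj a b htm h)
  intro x y
  have key : t.eval (kill S a b) (upd2 (hw false fun c => decide (S.tm c = S.tm a))
      (some a) (some b) x y) = true ↔ (x = true ∧ y = true) := by
    rw [hc.ev]
    constructor
    · rintro (⟨j, hj⟩ | ⟨h, _⟩)
      · by_cases hja : j = S.tm a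
        · subst hja
          constructor
          · rcases hj a rfl with h | h
            · exact absurd h (kill_left S a b)
            · simpa [upd2] using h
          · rcases hj b htm.symm with h | h
            · exact absurd h (kill_right S a b (fun h => absurd h hnv))
            · simpa [upd2, hab.symm] using h
        · exfalso
          rcases hj (S.gw j) (S.tm_gw j) with h | h
          · unfold Sys.tr at h
            rw [S.lit_gw] at h
            simp only [kill_g] at h
            exact Bool.noConfusion h
          · have n1 : S.gw j ≠ a := by rintro rfl; exact hja (S.tm_gw j).symm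
            have n2 : S.gw j ≠ b := by
              rintro rfl; exact hja ((S.tm_gw j).symm.trans htm.symm)
            simp only [upd2, Option.some.injEq, n1, n2, if_false, hw_some, S.tm_gw,
              decide_eq_true_eq] at h
            exact hja h
      · simp [upd2] at h
    · rintro ⟨rfl, rfl⟩
      left
      refine ⟨S.tm a, fun c hca => Or.inr ?_⟩
      simp only [upd2, Option.some.injEq]
      split_ifs <;> simp [hca]
  cases x <;> cases y <;> simp_all

theorem Computes.fact_or (hc : Computes S t) {a b : W} (htm : S.tm a ≠ S.tm b)
    (hlit : (S.lit a).1 = (S.lit b).1 → (S.lit a).2 = (S.lit b).2) :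
    ∃ v w, ∀ x y, t.eval v (upd2 w (some a) (some b) x y) = (x || y) := by
  refine ⟨kill S a b, hw false fun c => decide (S.tm c = S.tm a ∨ S.tm c = S.tm b), ?_⟩
  have hab : a ≠ b := by rintro rfl; exact htm rfl
  intro x y
  have key : t.eval (kill S a b) (upd2 (hw false fun c =>
      decide (S.tm c = S.tm a ∨ S.tm c = S.tm b)) (some a) (some b) x y) = true
        ↔ (x = true ∨ y = true) := by
    rw [hc.ev]
    constructor
    · rintro (⟨j, hj⟩ | ⟨h, _⟩)
      · by_cases hja : j = S.tm a
        · subst hja
          left
          rcases hj a rfl with h | h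
          · exact absurd h (kill_left S a b)
          · simpa [upd2] using h
        · by_cases hjb : j = S.tm b
          · subst hjb
            right
            rcases hj b rfl with h | h
            · exact absurd h (kill_right S a b hlit)
            · simpa [upd2, hab.symm] using h
          · exfalso
            rcases hj (S.gw j) (S.tm_gw j) with h | h
            · unfold Sys.tr at h
              rw [S.lit_gw] at h
              simp only [kill_g] at h
              exact Bool.noConfusion h
            · have n1 : S.gw j ≠ a := by rintro rfl; exact hja (S.tm_gw j).symm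
              have n2 : S.gw j ≠ b := by rintro rfl; exact hjb (S.tm_gw j).symm
              simp only [upd2, Option.some.injEq, n1, n2, if_false, hw_some, S.tm_gw,
                decide_eq_true_eq] at h
              tauto
      · simp [upd2] at h
    · rintro (rfl | rfl)
      · left
        refine ⟨S.tm a, fun c hca => Or.inr ?_⟩
        have hcb : c ≠ b := by rintro rfl; exact htm hca.symm
        simp only [upd2, Option.some.injEq]
        split_ifs <;> simp [hca]
      · left
        refine ⟨S.tm b, fun c hcb => Or.inr ?_⟩
        have hca : c ≠ a := by rintro rfl; exact htm hcb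
        simp only [upd2, Option.some.injEq, hca, if_false]
        split_ifs <;> simp [hcb]
  cases x <;> cases y <;> simp_all

theorem Computes.fact_z (hc : Computes S t) (hS : S.Good) {a : W} (ha : a ≠ S.gw (S.tm a)) :
    ∃ v w, ∀ x y, t.eval v (upd2 w none (some a) x y) = (x || y) := by
  obtain ⟨v0, hD0, hl0, hB0⟩ := hS.c1 a ha
  let v : L → Bool := fun x => if x = S.g then true else v0 x
  have hv : ∀ x, x ≠ S.g → v x = v0 x := fun x hx => by simp [v, hx]
  have hD : ¬ S.D v := fun h => hD0 (S.D_congr hv h)
  have hB : S.B v := S.B_congr (fun x hx => (hv x hx).symm) hB0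
  have hl : ¬ S.tr v a := by
    intro h
    apply hl0
    unfold Sys.tr at h ⊢
    rw [← hv _ (S.ne_g ha)]
    exact h
  refine ⟨v, hw false fun c => decide (S.tm c = S.tm a), ?_⟩
  intro x y
  have key : t.eval v (upd2 (hw false fun c => decide (S.tm c = S.tm a)) none (some a) x y)
      = true ↔ (x = true ∨ y = true) := by
    rw [hc.ev]
    constructor
    · rintro (⟨j, hj⟩ | ⟨h, _⟩)
      · by_cases hja : j = S.tm a
        · subst hja
          right
          rcases hj a rfl with h | h
          · exact absurd h hl
          · simpa [upd2] using h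
        · exfalso
          apply hD
          refine ⟨j, fun c hcj _ => ?_⟩
          rcases hj c hcj with h | h
          · exact h
          · have n1 : c ≠ a := by rintro rfl; exact hja hcj.symm
            simp only [upd2, Option.some.injEq, n1, if_false, reduceCtorEq, hw_some,
              decide_eq_true_eq] at h
            exact absurd (hcj.symm.trans h) hja
      · left; simpa [upd2] using h
    · rintro (rfl | rfl)
      · right
        exact ⟨by simp [upd2], by simp [v], hB⟩
      · left
        refine ⟨S.tm a, fun c hca => Or.inr ?_⟩
        simp only [upd2, Option.some.injEq, reduceCtorEq, if_false]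
        split_ifs <;> simp [hca]
  cases x <;> cases y <;> simp_all

/-- The private block of each heavy position contains its literal's variable. -/
theorem Computes.mem_blk (hc : Computes S t) (hS : S.Good) (a : W) :
    (S.lit a).1 ∈ t.blk (some a) := by
  have hn : 2 ≤ t.nh := by
    have h1 := hc.one (some a)
    have h2 := hc.one none
    exact nh_ge_two (h := some a) (h' := none) (by simp) (by omega) (by omega)
  obtain ⟨Sb, op, S', F, hsub, hnh, hmem, hS', hlights⟩ :=
    exists_block t (some a) (by rw [hc.one]; simp) hn
  -- only heavy leaf of `Sb` is `a`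
  have honly : ∀ h, h ≠ some a → Sb.hcount h = 0 := by
    intro h hne
    by_contra hcon
    have := nh_ge_two hne hcon hmem
    omega
  obtain ⟨h', hh'⟩ := exists_of_nh S' hS'
  have hne' : h' ≠ some a := by
    rintro rfl
    have h1 := hsub.hcount_eq (some a)
    have h2 := hc.one (some a)
    simp only [fcount] at h1
    omega
  -- reach another position of the same term
  have step : ∀ m, m ≠ a → S.tm m = S.tm a →
      (∃ v w, ∀ x y, t.eval v (upd2 w h' (some m) x y) = (x || y)) →
      S'.hcount (some m) ≠ 0 := by
    intro m hma htm hor hm0
    have h1 := hsub.hcount_eq (some m)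
    have h2 := hc.one (some m)
    have h3 := honly (some m) (by simpa using hma)
    simp only [fcount, hm0, h3, h2, zero_add] at h1
    obtain ⟨f, hf, hfm⟩ := exists_of_fcount (h := some m) (F := F) (by omega)
    have g1 := gate_and (op := f.1) (u := f.2) hsub (by simp [hf]) (hc.one (some a))
      (hc.one (some m)) hmem hfm (hc.fact_and (Ne.symm hma) htm.symm)
    have g2 := gate_or (op := f.1) (u := f.2) hsub.swap (by simp [hf]) (hc.one h')
      (hc.one (some m)) hh' hfm hor
    rw [g1] at g2
    exact Bool.noConfusion g2
  obtain ⟨m, hma, htm, hm⟩ : ∃ m, m ≠ a ∧ S.tm m = S.tm a ∧ S'.hcount (some m) ≠ 0 := by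
    obtain ⟨b1, b2, hb, t1, t2, n1, n2⟩ := S.two (S.tm a)
    cases h' with
    | none =>
      -- choose a position which is neither `g` nor `a`
      by_cases hb1 : b1 = a
      · have hb2 : b2 ≠ a := by rintro rfl; exact hb hb1
        exact ⟨b2, hb2, t2, step b2 hb2 t2 (hc.fact_z hS (by rw [t2]; exact n2))⟩
      · exact ⟨b1, hb1, t1, step b1 hb1 t1 (hc.fact_z hS (by rw [t1]; exact n1))⟩
    | some k =>
      have hka : k ≠ a := by simpa using hne'
      by_cases hk : S.tm k = S.tm a
      · exact ⟨k, hka, hk, hh'⟩
      · by_cases hga : a = S.gw (S.tm a)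
        · -- two non-g positions; at most one is the negation of `lit k`
          have hb1 : b1 ≠ a := by rw [hga]; exact n1
          have hb2 : b2 ≠ a := by rw [hga]; exact n2
          by_cases hl : (S.lit k).1 = (S.lit b1).1
          · have hl2 : (S.lit k).1 ≠ (S.lit b2).1 := by
              intro h
              exact hb (S.inj b1 b2 (t1.trans t2.symm) (hl.symm.trans h))
            exact ⟨b2, hb2, t2, step b2 hb2 t2
              (hc.fact_or (by rw [t2]; exact hk) (fun h => absurd h hl2))⟩
          · exact ⟨b1, hb1, t1, step b1 hb1 t1
              (hc.fact_or (by rw [t1]; exact hk) (fun h => absurd h hl))⟩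
        · refine ⟨S.gw (S.tm a), fun h => hga h.symm, S.tm_gw _, step _ (fun h => hga h.symm)
            (S.tm_gw _) (hc.fact_or (by rw [S.tm_gw]; exact hk) ?_)⟩
          intro h
          rw [S.lit_gw] at h ⊢
          rw [S.eq_gw h, S.lit_gw]
  -- the gate is a conjunction
  have hop : op = true := gate_and hsub (by simp) (hc.one (some a)) (hc.one (some m)) hmem hm
    (hc.fact_and (Ne.symm hma) htm.symm)
  subst hop
  -- a point where `a` is true and `m` is false
  obtain ⟨v, hva, hvm, hvg⟩ : ∃ v, S.tr v a ∧ ¬ S.tr v m ∧
      ((v S.g = false ∧ a ≠ S.gw (S.tm a)) ∨ (¬ S.D v ∧ a = S.gw (S.tm a))) := by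
    by_cases hga : a = S.gw (S.tm a)
    · have hmg : m ≠ S.gw (S.tm m) := by rw [htm, ← hga]; exact hma
      obtain ⟨v0, hD0, hl0, _⟩ := hS.c1 m hmg
      refine ⟨fun x => if x = S.g then true else v0 x, ?_, ?_, Or.inr ⟨?_, hga⟩⟩
      · unfold Sys.tr; rw [hga, S.lit_gw]; simp
      · intro h
        apply hl0
        unfold Sys.tr at h ⊢
        simpa [S.ne_g hmg] using h
      · intro h
        exact hD0 (S.D_congr (fun x hx => by simp [hx]) h)
    · have hvne : (S.lit m).1 ≠ (S.lit a).1 := fun h => hma (S.inj m a htm h)
      refine ⟨fun x => if x = (S.lit a).1 then (S.lit a).2 else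
        if x = (S.lit m).1 then !(S.lit m).2 else false, ?_, ?_, Or.inl ⟨?_, hga⟩⟩
      · simp [Sys.tr]
      · simp [Sys.tr, hvne]
      · simp only [(S.ne_g hga).symm, if_false]
        split_ifs with h2
        · rw [S.eq_gw h2.symm, S.lit_gw]; rfl
        · rfl
  -- first evaluation
  let w1 : Bool → Option W → Bool := fun b => hw false fun c =>
    if c = a then false else if c = m then b else decide (S.tm c = S.tm a)
  have ev1 : ∀ b, t.eval v (w1 b) = b := by
    intro b
    have := hc.alive_term (v := v) (w := w1 b) (m := m) hvm
      (by rcases hvg with h | h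
          · exact Or.inl h.1
          · exact Or.inr h.1) rfl
      (by intro c hcm
          have h1 : c ≠ m := by rintro rfl; exact hcm rfl
          have h3 : S.tm c ≠ S.tm a := by rw [← htm]; exact hcm
          simp [w1, h1, h3])
      (by intro c hcm hne
          by_cases hca : c = a
          · subst hca; exact Or.inr hva
          · left
            simp [w1, hca, hne, hcm, htm])
    rw [this]
    simp [w1, hma]
  have hSb1 : Sb.eval v (w1 true) = true := by
    have hs := hsub.swap
    have e1 := hs.eval_eq v (w1 true)
    have e2 := hs.eval_eq v (w1 false)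
    rw [ev1] at e1 e2
    have hcongr : up v (w1 false) ((true, Sb) :: F) = up v (w1 true) ((true, Sb) :: F) := by
      funext b
      apply up_congr
      intro f hf
      apply eval_congr (fun _ _ => rfl)
      intro k hk
      have hkm : k ≠ some m := by
        rintro rfl
        have h1 := hs.hcount_eq (some m)
        have h2 := hc.one (some m)
        have h3 := hcount_le_fcount (h := some m) hf
        omega
      cases k with
      | none => rfl
      | some c =>
        have hcm : c ≠ m := by simpa using hkm
        simp [w1, hcm]
    rw [hcongr] at e2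
    exact neutral_of_ne (v := v) (w := w1 true) (F := (true, Sb) :: F)
      (a := S'.eval v (w1 true)) (b := S'.eval v (w1 false))
      (by rw [← e1, ← e2]; simp) (true, Sb) (by simp)
  -- second evaluation
  let v' : L → Bool := fun x => if x = (S.lit a).1 then !(S.lit a).2 else v x
  have hv'a : ¬ S.tr v' a := by simp [Sys.tr, v']
  have hv'g : v' S.g = false := by
    simp only [v']
    split_ifs with h1
    · rw [S.eq_gw h1.symm, S.lit_gw]; rfl
    · rcases hvg with h | h
      · exact h.1
      · exfalso; apply h1; rw [h.2, S.lit_gw]
  let w2 : Bool → Option W → Bool := fun b => hw false fun c =>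
    if c = a then b else decide (S.tm c = S.tm a)
  have ev2 : ∀ b, t.eval v' (w2 b) = b := by
    intro b
    have := hc.alive_term (v := v') (w := w2 b) (m := a) hv'a (Or.inl hv'g) rfl
      (by intro c hcm
          have h1 : c ≠ a := by rintro rfl; exact hcm rfl
          simp [w2, h1, hcm])
      (by intro c hcm hne
          left
          simp [w2, hne, hcm])
    rw [this]
    simp [w2]
  have hSb2 : Sb.eval v' (w2 false) = false := by
    by_contra hcon
    rw [Bool.not_eq_false] at hcon
    have e1 := hsub.eval_eq v' (w2 true)
    have e2 := hsub.eval_eq v' (w2 false)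
    rw [ev2] at e1 e2
    have hcongr : up v' (w2 false) ((true, S') :: F) = up v' (w2 true) ((true, S') :: F) := by
      funext b
      apply up_congr
      intro f hf
      apply eval_congr (fun _ _ => rfl)
      intro k hk
      have hka : k ≠ some a := by
        rintro rfl
        have h1 := hsub.hcount_eq (some a)
        have h2 := hc.one (some a)
        have h3 := hcount_le_fcount (h := some a) hf
        omega
      cases k with
      | none => rfl
      | some c =>
        have hcm : c ≠ a := by simpa using hka
        simp [w2, hcm]
    rw [hcongr, hcon] at e2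
    have := up_mono v' (w2 true) ((true, S') :: F) (a := Sb.eval v' (w2 true)) (b := true)
      (by simp) e1.symm
    rw [this] at e2
    exact Bool.noConfusion e2
  -- compare
  by_contra hnot
  have hnl : (S.lit a).1 ∉ Sb.lights := fun h => hnot (hlights _ h)
  have : Sb.eval v (w1 true) = Sb.eval v' (w2 false) := by
    apply eval_congr
    · intro x hx
      have : x ≠ (S.lit a).1 := by rintro rfl; exact hnl hx
      simp [v', this]
    · intro h hh
      have : h = some a := by
        by_contra hne
        exact hh (honly h hne)
      subst this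
      simp [w1, w2]
  rw [hSb1, hSb2] at this
  exact Bool.noConfusion this

/-- On the path from `z`, a conjunctive sibling with heavy leaves has exactly one of them, and it
is the `g` position of some term all of whose other positions lie on the `z` side. -/
theorem Computes.z_side (hc : Computes S t) (hS : S.Good) {sg : Bool}
    {F1 F2 : List (Bool × Tr L (Option W))} {s' : Tr L (Option W)}
    (hsub : Sub (heavy none sg) (F1 ++ (true, s') :: F2) t) (hn : s'.nh ≠ 0) :
    ∃ j U, Sub U ((true, s') :: F2) t ∧ (∀ h, h ≠ some (S.gw j) → s'.hcount h = 0) ∧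
      s'.hcount (some (S.gw j)) ≠ 0 ∧
      ∀ m, S.tm m = j → m ≠ S.gw j → U.hcount (some m) ≠ 0 := by
  obtain ⟨U, hU1, hU2⟩ := hsub.split
  have hUz : U.hcount none ≠ 0 := by
    rw [hU1.hcount_eq none]
    simp [hcount]
  have hcnt : ∀ h, U.hcount h + s'.hcount h + fcount h F2 = 1 := by
    intro h
    have h1 := hU2.hcount_eq h
    have h2 := hc.one h
    simp only [fcount] at h1
    omega
  have hs'z : s'.hcount none = 0 := by have := hcnt none; omega
  have hgw : ∀ a, s'.hcount (some a) ≠ 0 → a = S.gw (S.tm a) := by
    intro a ha
    by_contra hne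
    have := gate_or (op := true) (u := s') hU2 (by simp) (hc.one none) (hc.one (some a)) hUz ha
      (hc.fact_z hS hne)
    exact Bool.noConfusion this
  obtain ⟨h, hh⟩ := exists_of_nh s' hn
  obtain ⟨a, rfl⟩ : ∃ a, h = some a := by
    cases h with
    | none => exact absurd hs'z hh
    | some a => exact ⟨a, rfl⟩
  have ha := hgw a hh
  have hm : ∀ m, S.tm m = S.tm a → m ≠ S.gw (S.tm a) → U.hcount (some m) ≠ 0 := by
    intro m htm hne hU0
    have h1 := hcnt (some m)
    have h2 : s'.hcount (some m) = 0 := by
      by_contra hc'
      exact hne (by rw [← htm]; exact hgw m hc')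
    obtain ⟨f, hf, hfm⟩ := exists_of_fcount (h := some m) (F := F2) (by omega)
    have hma : a ≠ m := by rw [ha]; exact hne.symm
    have g1 := gate_and (op := f.1) (u := f.2) hU2.swap (by simp [hf]) (hc.one (some a))
      (hc.one (some m)) hh hfm (hc.fact_and hma htm.symm)
    have g2 := gate_or (op := f.1) (u := f.2) hU2 (by simp [hf]) (hc.one none)
      (hc.one (some m)) hUz hfm (hc.fact_z hS (by rw [htm]; exact hne))
    rw [g1] at g2
    exact Bool.noConfusion g2
  refine ⟨S.tm a, U, hU2, ?_, by rw [← ha]; exact hh, hm⟩
  intro h' hne
  by_contra hcon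
  obtain ⟨a', rfl⟩ : ∃ a', h' = some a' := by
    cases h' with
    | none => exact absurd hs'z hcon
    | some a' => exact ⟨a', rfl⟩
  have ha' := hgw a' hcon
  have htm : S.tm a' ≠ S.tm a := by
    intro h
    apply hne
    rw [ha', h]
  obtain ⟨b1, b2, hb, t1, t2, n1, n2⟩ := S.two (S.tm a)
  have := gate_or (op := true) (u := U) hU2.swap (by simp) (hc.one (some a'))
    (hc.one (some b1)) hcon (hm b1 t1 n1) (hc.fact_or (by rw [t1]; exact htm) (by
      intro h
      rw [ha', S.lit_gw] at h
      exact absurd h.symm (S.ne_g (by rw [t1]; exact n1))))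
  exact Bool.noConfusion this

theorem Computes.sibling_true (hc : Computes S t) {F2 : List (Bool × Tr L (Option W))}
    {s' U : Tr L (Option W)} {j : τ} (hU : Sub U ((true, s') :: F2) t)
    (hm : ∀ m, S.tm m = j → m ≠ S.gw j → U.hcount (some m) ≠ 0)
    (honly : ∀ h, h ≠ some (S.gw j) → s'.hcount h = 0)
    {u : L → Bool} (hD : ¬ S.D u) {w : Option W → Bool}
    (hw : w (some (S.gw j)) = true ∨ u S.g = true) : s'.eval u w = true := by
  obtain ⟨m, htm, hmg, hmt⟩ : ∃ m, S.tm m = j ∧ m ≠ S.gw j ∧ ¬ S.tr u m := by
    by_contra hcon
    push Not at hcon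
    exact hD ⟨j, hcon⟩
  let w1 : Bool → Option W → Bool := fun b => MEE.hw false fun a =>
    if a = S.gw j then w (some (S.gw j)) else if a = m then b else decide (S.tm a = j)
  have ev : ∀ b, t.eval u (w1 b) = b := by
    intro b
    have := hc.alive_term (v := u) (w := w1 b) (m := m) hmt (Or.inr hD) rfl
      (by intro a ham
          have h1 : a ≠ S.gw j := by rintro rfl; exact ham (by rw [S.tm_gw, htm])
          have h2 : a ≠ m := by rintro rfl; exact ham rfl
          have h3 : S.tm a ≠ j := by rw [← htm]; exact ham
          simp [w1, h1, h2, h3])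
      (by intro a ham hne
          by_cases hag : a = S.gw j
          · subst hag
            rcases hw with h | h
            · left; simp [w1, h]
            · right
              unfold Sys.tr
              rw [S.lit_gw]; exact h
          · left
            have h3 : S.tm a = j := by rw [← htm]; exact ham
            simp [w1, hag, hne, h3])
    rw [this]
    simp [w1, hmg]
  have e1 := hU.eval_eq u (w1 true)
  have e2 := hU.eval_eq u (w1 false)
  rw [ev] at e1 e2
  have hcongr : up u (w1 false) ((true, s') :: F2) = up u (w1 true) ((true, s') :: F2) := by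
    funext b
    apply up_congr
    intro f hf
    apply eval_congr (fun _ _ => rfl)
    intro k hk
    have hkm : k ≠ some m := by
      rintro rfl
      have h1 := hU.hcount_eq (some m)
      have h2 := hc.one (some m)
      have h3 := hcount_le_fcount (h := some m) hf
      have h4 := hm m htm hmg
      omega
    cases k with
    | none => rfl
    | some c =>
      have hcm : c ≠ m := by simpa using hkm
      simp [w1, hcm]
  rw [hcongr] at e2
  have h1 := neutral_of_ne (v := u) (w := w1 true) (F := (true, s') :: F2)
    (a := U.eval u (w1 true)) (b := U.eval u (w1 false))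
    (by rw [← e1, ← e2]; simp) (true, s') (by simp)
  simp only at h1
  rw [← h1]
  apply eval_congr (fun _ _ => rfl)
  intro h hh
  have : h = some (S.gw j) := by
    by_contra hne
    exact hh (honly h hne)
  subst this
  simp [w1]

/-- Two points which are told apart by the `z` part differ at some light leaf outside of the
private blocks. -/
theorem Computes.differ (hc : Computes S t) (hS : S.Good) {v u : L → Bool} {c : Bool}
    (hDv : ¬ S.D v) (hBv : S.B v) (hgv : v S.g = true) (hDu : ¬ S.D u)
    (hu : u S.g = false ∨ ¬ S.B u) (hcu : c = true ∨ u S.g = true) :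
    ∃ x ∈ t.free ++ t.blk none, v x ≠ u x := by
  by_contra hcon
  push Not at hcon
  obtain ⟨sg, F, hsub⟩ := exists_sub t none (by rw [hc.one]; simp)
  let w : Bool → Option W → Bool := fun z => hw z fun a => if a = S.gw (S.tm a) then c else false
  have hw0 : ∀ z a, a ≠ S.gw (S.tm a) → w z (some a) = false := by
    intro z a ha
    simp [w, ha]
  have evv : ∀ z, t.eval v (w z) = z := fun z => by
    rw [hc.alive_z hDv (hw0 z) hgv hBv]; rfl
  have evu : ∀ z, t.eval u (w z) = false := fun z => hc.dead_z hDu (hw0 z) hu
  have hcongr : ∀ (x : L → Bool), up x (w false) F = up x (w true) F := by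
    intro x
    funext b
    apply up_congr
    intro f hf
    apply eval_congr (fun _ _ => rfl)
    intro k hk
    cases k with
    | none =>
      exfalso
      have h1 := hsub.hcount_eq none
      have h2 := hc.one none
      have h3 := hcount_le_fcount (h := none) hf
      simp only [hcount, if_true] at h1
      omega
    | some a => rfl
  have e1 := hsub.eval_eq v (w true)
  have e2 := hsub.eval_eq v (w false)
  rw [evv, hcongr] at e2
  rw [evv] at e1
  simp only [eval] at e1 e2
  have hz1 : w true none = true := rfl
  have hz2 : w false none = false := rfl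
  rw [hz1] at e1
  rw [hz2] at e2
  have hsg : sg = true := by
    by_contra hne
    rw [Bool.not_eq_true] at hne
    subst hne
    have := up_mono v (w true) F (a := (true == false)) (b := (false == false)) (by simp) e1.symm
    rw [this] at e2
    exact Bool.noConfusion e2
  subst hsg
  have e3 := hsub.eval_eq u (w true)
  rw [evu] at e3
  simp only [eval, hz1] at e3
  obtain ⟨f, hf, hf1, hf2⟩ := exists_false_of_up (v := u) (w := w true) (F := F) e3.symm
  have hfv := neutral_of_ne (v := v) (w := w true) (F := F) (a := (true == true))
    (b := (false == true)) (by rw [← e1, ← e2]; simp) f hf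
  rw [hf1] at hfv
  by_cases hn : f.2.nh = 0
  · have : f.2.eval v (w true) = f.2.eval u (w true) := by
      apply eval_congr
      · intro x hx
        exact hcon x (hsub.light_siblings (z := none) (by simp [hcount]) f hf hn x hx)
      · intro h _
        rfl
    rw [hfv, hf2] at this
    exact Bool.noConfusion this
  · obtain ⟨F1, F2, rfl⟩ := List.append_of_mem hf
    have hff : f = (true, f.2) := by rw [← hf1]
    rw [hff] at hsub
    obtain ⟨j, U, hU, honly, _, hm⟩ := hc.z_side hS hsub hn
    have := hc.sibling_true hU hm honly hDu (w := w true) (by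
      rcases hcu with h | h
      · left; simp [w, S.tm_gw, h]
      · right; exact h)
    rw [hf2] at this
    exact Bool.noConfusion this

/-- The lower bound: the light leaves pay for all heavy variables and for a cover. -/
theorem Computes.lower_bound [Fintype W] (hc : Computes S t) (hS : S.Good) :
    ∃ I ⊆ S.J, S.Cover I ∧ Fintype.card W + 1 + I.card ≤ t.lights.length := by
  classical
  refine ⟨S.J ∩ (t.free ++ t.blk none).toFinset, Finset.inter_subset_left, ?_, ?_⟩
  · intro v hD hB
    let v1 : L → Bool := fun x => if x = S.g then true else v x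
    have hv1 : ∀ x, x ≠ S.g → v1 x = v x := fun x hx => by simp [v1, hx]
    have hD1 : ¬ S.D v1 := fun h => hD (S.D_congr hv1 h)
    have hB1 : S.B v1 := S.B_congr (fun x hx => (hv1 x hx).symm) hB
    let u : L → Bool := fun x => if x ∈ S.J then false else v1 x
    obtain ⟨x, hx, hne⟩ := hc.differ hS (u := u) (c := false) hD1 hB1 (by simp [v1])
      (hS.c3 u (fun x hx => by simp [u, hx]))
      (Or.inr (by rintro ⟨x, hx, h⟩; simp [u, hx] at h))
      (Or.inr (by simp [u, S.gJ, v1]))
    by_cases hxJ : x ∈ S.J
    · refine ⟨x, ?_, ?_⟩
      · rw [Finset.mem_inter, List.mem_toFinset]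
        exact ⟨hxJ, hx⟩
      · have hxg : x ≠ S.g := fun h => S.gJ (h ▸ hxJ)
        simp only [u, hxJ, if_true, ne_eq, Bool.not_eq_false] at hne
        rw [← hv1 x hxg]
        exact hne
    · simp [u, hxJ] at hne
  · have hg : S.g ∈ t.free ++ t.blk none := by
      obtain ⟨v, hD, hB⟩ := hS.c4
      let v1 : L → Bool := fun x => if x = S.g then true else v x
      let u : L → Bool := fun x => if x = S.g then false else v x
      have hv1 : ∀ x, x ≠ S.g → v1 x = v x := fun x hx => by simp [v1, hx]
      have hu1 : ∀ x, x ≠ S.g → u x = v x := fun x hx => by simp [u, hx]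
      obtain ⟨x, hx, hne⟩ := hc.differ hS (v := v1) (u := u) (c := true)
        (fun h => hD (S.D_congr hv1 h))
        (S.B_congr (fun x hx => (hv1 x hx).symm) hB) (by simp [v1])
        (fun h => hD (S.D_congr hu1 h)) (Or.inl (by simp [u])) (Or.inl rfl)
      by_cases hxg : x = S.g
      · rw [← hxg]; exact hx
      · exfalso; apply hne; rw [hv1 x hxg, hu1 x hxg]
    have h1 : (S.J ∩ (t.free ++ t.blk none).toFinset).card + 1
        ≤ (t.free ++ t.blk none).length := by
      calc _ = (insert S.g (S.J ∩ (t.free ++ t.blk none).toFinset)).card := by
            rw [Finset.card_insert_of_notMem]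
            simp [S.gJ]
        _ ≤ (t.free ++ t.blk none).toFinset.card := by
            apply Finset.card_le_card
            intro x hx
            rcases Finset.mem_insert.mp hx with rfl | hx
            · rw [List.mem_toFinset]; exact hg
            · exact (Finset.mem_inter.mp hx).2
        _ ≤ _ := List.toFinset_card_le _
    have h2 := count_lights t (fun h => by rw [hc.one])
    rw [Fintype.sum_option] at h2
    have h3 : Fintype.card W ≤ ∑ a : W, (t.blk (some a)).length := by
      calc Fintype.card W = ∑ _a : W, 1 := by simp
        _ ≤ _ := Finset.sum_le_sum fun a _ => by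
            have := hc.mem_blk hS a
            exact List.length_pos_of_mem this
    rw [List.length_append] at h1
    omega

end Main

end Pool.Agent.Helper64.MEE
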