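import Mathlib

/-!
Boolean expressions, the problems `B₂` and minimum equivalent expression, their encodings over a
finite alphabet, and polynomial time many-one reductions.
-/

namespace Pool.Agent.Helper64.MEE

/-- Boolean expressions over the variables in `α`, built with negation, conjunction and
disjunction. -/
inductive BExpr (α : Type) : Type
  | var (x : α) : BExpr α
  | neg (e : BExpr α) : BExpr α
  | and (e f : BExpr α) : BExpr α
  | or (e f : BExpr α) : BExpr α

namespace BExpr

variable {α : Type}

/-- Truth value under an assignment. -/
def eval (v : α → Bool) : BExpr α → Bool
  | var x => v x
  | neg e => !(e.eval v)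
  | and e f => e.eval v && f.eval v
  | or e f => e.eval v || f.eval v

/-- Number of literal occurrences: each occurrence of a variable counts once. -/
def size : BExpr α → ℕ
  | var _ => 1
  | neg e => e.size
  | and e f => e.size + f.size
  | or e f => e.size + f.size

end BExpr

/-- The minimum equivalent expression problem, for the instance `p = (x, K)`: is there an
equivalent expression with at most `K` literal occurrences? -/
def MEE (p : BExpr ℕ × ℕ) : Prop :=
  ∃ y : BExpr ℕ, y.size ≤ p.2 ∧ ∀ v : ℕ → Bool, p.1.eval v = y.eval v

/-- The problem `B₂`: is there an assignment of the existential variables (left summand) such that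
for all assignments of the universal variables (right summand) the expression is true? -/
def B2 (φ : BExpr (ℕ ⊕ ℕ)) : Prop :=
  ∃ X : ℕ → Bool, ∀ Y : ℕ → Bool, φ.eval (Sum.elim X Y) = true

/-- The alphabet: the connectives, the letters `x` and `y` for variables, the binary digits and a
separator. -/
inductive Sy : Type
  | neg | and | or | x | y | b0 | b1 | sep
  deriving DecidableEq

instance : Fintype Sy where
  elems := {.neg, .and, .or, .x, .y, .b0, .b1, .sep}
  complete a := by cases a <;> decide

/-- A binary digit. -/
def bit : Bool → Sy
  | false => .b0
  | true => .b1

/-- A natural number in binary, least significant digit first (zero is the empty word). -/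
def encNat (n : ℕ) : List Sy := n.bits.map bit

/-- An expression in Polish (prefix) notation; `nm` encodes the variables. -/
def encE {α : Type} (nm : α → List Sy) : BExpr α → List Sy
  | .var x => nm x
  | .neg e => .neg :: encE nm e
  | .and e f => .and :: (encE nm e ++ encE nm f)
  | .or e f => .or :: (encE nm e ++ encE nm f)

/-- Encoding of instances of `B₂`: existential variables are `x` followed by the number in binary,
universal variables are `y` followed by the number in binary. -/
def encB2 : BExpr (ℕ ⊕ ℕ) → List Sy :=
  encE (Sum.elim (fun n => .x :: encNat n) (fun n => .y :: encNat n))

/-- Encoding of expressions over numbered variables: `x` followed by the number in binary. -/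
def encX : BExpr ℕ → List Sy := encE (fun n => .x :: encNat n)

/-- Encoding of instances of the minimum equivalent expression problem: the expression, a
separator, and the bound in binary. -/
def encMEE (p : BExpr ℕ × ℕ) : List Sy := encX p.1 ++ .sep :: encNat p.2

/-- Polynomial time many-one reducibility of the problem `P`, with instances encoded by `ea`, to
the problem `Q`, with instances encoded by `eb`: some function computable in polynomial time (by a
multi-stack Turing machine, Mathlib's `Turing.TM2ComputableInPolyTime`) maps instances of `P` to
instances of `Q` and preserves the answer. -/
def ManyOnePoly {α β Γ Δ : Type} (ea : α → List Γ) (eb : β → List Δ) (P : α → Prop)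
    (Q : β → Prop) : Prop :=
  ∃ f : α → β, Nonempty (Turing.TM2ComputableInPolyTime ea eb f) ∧ ∀ a, P a ↔ Q (f a)

end Pool.Agent.Helper64.MEE
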