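import Pool.Agent.Helper64.MEE.Whole

/-!
The reduction is computable in polynomial time; the encodings are injective.
-/

set_option linter.unusedSectionVars false
set_option linter.unusedSimpArgs false

namespace Pool.Agent.Helper64.MEE

open Stk Polynomial

/-- The size bound as a polynomial. -/
noncomputable def pG : ℕ[X] := 1000 * (X + 1) ^ 2

noncomputable def pcB : ℕ[X] := pG * (5 * pG + 16) + 5 * pG + 15

noncomputable def pcT : ℕ[X] := 20 * pcB + 60 * pG + 60

noncomputable def p1 : ℕ[X] := X * (pcT + 1) + 1

noncomputable def p2 : ℕ[X] := 5 * pcB + 10 * pG + 20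

noncomputable def p3 : ℕ[X] := 4 * p1 + 30

noncomputable def p4 : ℕ[X] := 24 * (p1 + p2 + p3) + 8 * pG + 5

noncomputable def p5 : ℕ[X] := 2 * (p1 + p2 + p3 + p4) + 1

/-- The time bound as a polynomial. -/
noncomputable def pAll : ℕ[X] := (35 * X + 1) + (p1 + (p2 + (p3 + (p4 + p5))))

theorem eval_pAll (n : ℕ) : pAll.eval n = tAll n := by
  simp only [pAll, p5, p4, p3, p2, p1, pcT, pcB, pG, tAll, t5, t4, t3, t2, t1, cT, cB, gB,
    eval_add, eval_mul, eval_pow, eval_X, eval_ofNat, eval_one]

theorem fn_only (k : Key) (l : List Sy) : (({} : St).put k l).fn = only k l := by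
  funext j
  rw [St.fn_put]
  unfold only
  by_cases h : j = k
  · subst h; simp
  · rw [Function.update_of_ne h, if_neg h]
    cases j <;> rfl

/-- The reduction is computable in polynomial time. -/
theorem red_computable : Nonempty (Turing.TM2ComputableInPolyTime encB2 encMEE red) := by
  refine ⟨computable_of_runs encB2 encMEE red .I .O prog pAll (fun φ => ?_)⟩
  obtain ⟨t, ht, hr⟩ := ru_prog φ
  refine ⟨t, by rw [eval_pAll]; exact ht, ?_⟩
  rw [← fn_only, ← fn_only]
  exact hr

/-- A word which does not begin with a digit. -/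
def NoDigit (r : List Sy) : Prop := ∀ a l, r = a :: l → a ≠ .b0 ∧ a ≠ .b1

theorem split_digits {u u' r r' : List Sy} (hu : ∀ a ∈ u, a = .b0 ∨ a = .b1)
    (hu' : ∀ a ∈ u', a = .b0 ∨ a = .b1) (hr : NoDigit r) (hr' : NoDigit r')
    (h : u ++ r = u' ++ r') : u = u' ∧ r = r' := by
  induction u generalizing u' with
  | nil =>
    cases u' with
    | nil => exact ⟨rfl, h⟩
    | cons a u' =>
      obtain ⟨h1, h2⟩ := hr a _ h
      rcases hu' a (by simp) with rfl | rfl
      · exact absurd rfl h1
      · exact absurd rfl h2
  | cons a u ih =>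
    cases u' with
    | nil =>
      obtain ⟨h1, h2⟩ := hr' a _ h.symm
      rcases hu a (by simp) with rfl | rfl
      · exact absurd rfl h1
      · exact absurd rfl h2
    | cons b u' =>
      simp only [List.cons_append, List.cons.injEq] at h
      obtain ⟨h1, h2⟩ := ih (fun x hx => hu x (by simp [hx])) (fun x hx => hu' x (by simp [hx])) h.2
      exact ⟨by rw [h.1, h1], h2⟩

theorem encNat_digits (n : ℕ) : ∀ a ∈ encNat n, a = .b0 ∨ a = .b1 := by
  intro a ha
  obtain ⟨b, _, rfl⟩ := List.mem_map.mp ha
  cases b
  · exact Or.inl rfl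
  · exact Or.inr rfl

theorem encNat_split {n n' : ℕ} {r r' : List Sy} (hr : NoDigit r) (hr' : NoDigit r')
    (h : encNat n ++ r = encNat n' ++ r') : n = n' ∧ r = r' := by
  obtain ⟨h1, h2⟩ := split_digits (encNat_digits n) (encNat_digits n') hr hr' h
  exact ⟨encNat_inj h1, h2⟩

theorem noDigit_cons {a : Sy} {l : List Sy} (h : a ≠ .b0 ∧ a ≠ .b1) : NoDigit (a :: l) := by
  intro b m hb
  rw [List.cons.injEq] at hb
  rw [← hb.1]
  exact h

/-- Unique readability. -/
theorem encE_split {α : Type} {nm : α → List Sy}
    (hnm : ∀ x, ∃ a l, nm x = a :: l ∧ (a = .x ∨ a = .y))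
    (hs : ∀ x x' r r', NoDigit r → NoDigit r' → nm x ++ r = nm x' ++ r' → x = x' ∧ r = r')
    (e : BExpr α) : ∀ (e' : BExpr α) (r r' : List Sy), NoDigit r → NoDigit r' →
      encE nm e ++ r = encE nm e' ++ r' → e = e' ∧ r = r' := by
  have hstart : ∀ (f : BExpr α) (r : List Sy), NoDigit (encE nm f ++ r) := by
    intro f r
    cases f with
    | var x =>
      obtain ⟨a, l, h1, h2⟩ := hnm x
      show NoDigit (nm x ++ r)
      rw [h1]
      refine noDigit_cons ?_
      rcases h2 with rfl | rfl <;> decide
    | neg e => exact noDigit_cons (by decide)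
    | and e f => exact noDigit_cons (by decide)
    | or e f => exact noDigit_cons (by decide)
  induction e with
  | var x =>
    intro e' r r' hr hr' h
    obtain ⟨a, l, h1, h2⟩ := hnm x
    cases e' with
    | var x' =>
      obtain ⟨h3, h4⟩ := hs x x' r r' hr hr' h
      exact ⟨by rw [h3], h4⟩
    | neg e' =>
      exfalso
      change nm x ++ r = Sy.neg :: _ at h
      rw [h1] at h
      simp only [List.cons_append, List.cons.injEq] at h
      rcases h2 with rfl | rfl <;> exact absurd h.1 (by decide)
    | and e' f' =>
      exfalso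
      change nm x ++ r = Sy.and :: _ at h
      rw [h1] at h
      simp only [List.cons_append, List.cons.injEq] at h
      rcases h2 with rfl | rfl <;> exact absurd h.1 (by decide)
    | or e' f' =>
      exfalso
      change nm x ++ r = Sy.or :: _ at h
      rw [h1] at h
      simp only [List.cons_append, List.cons.injEq] at h
      rcases h2 with rfl | rfl <;> exact absurd h.1 (by decide)
  | neg e ih =>
    intro e' r r' hr hr' h
    cases e' with
    | var x' =>
      exfalso
      obtain ⟨a, l, h1, h2⟩ := hnm x'
      change Sy.neg :: _ = nm x' ++ r' at h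
      rw [h1] at h
      simp only [List.cons_append, List.cons.injEq] at h
      rcases h2 with rfl | rfl <;> exact absurd h.1 (by decide)
    | neg e' =>
      change Sy.neg :: (encE nm e ++ r) = Sy.neg :: (encE nm e' ++ r') at h
      rw [List.cons.injEq] at h
      obtain ⟨h1, h2⟩ := ih e' r r' hr hr' h.2
      exact ⟨by rw [h1], h2⟩
    | and e' f' => exact absurd (List.cons.inj h).1 (by decide)
    | or e' f' => exact absurd (List.cons.inj h).1 (by decide)
  | and e f ihe ihf =>
    intro e' r r' hr hr' h
    cases e' with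
    | var x' =>
      exfalso
      obtain ⟨a, l, h1, h2⟩ := hnm x'
      change Sy.and :: _ = nm x' ++ r' at h
      rw [h1] at h
      simp only [List.cons_append, List.cons.injEq] at h
      rcases h2 with rfl | rfl <;> exact absurd h.1 (by decide)
    | neg e' => exact absurd (List.cons.inj h).1 (by decide)
    | and e' f' =>
      simp only [encE, List.cons_append, List.cons.injEq, true_and, List.append_assoc] at h
      obtain ⟨h1, h2⟩ := ihe e' _ _ (hstart f r) (hstart f' r') h
      obtain ⟨h3, h4⟩ := ihf f' r r' hr hr' h2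
      exact ⟨by rw [h1, h3], h4⟩
    | or e' f' => exact absurd (List.cons.inj h).1 (by decide)
  | or e f ihe ihf =>
    intro e' r r' hr hr' h
    cases e' with
    | var x' =>
      exfalso
      obtain ⟨a, l, h1, h2⟩ := hnm x'
      change Sy.or :: _ = nm x' ++ r' at h
      rw [h1] at h
      simp only [List.cons_append, List.cons.injEq] at h
      rcases h2 with rfl | rfl <;> exact absurd h.1 (by decide)
    | neg e' => exact absurd (List.cons.inj h).1 (by decide)
    | and e' f' => exact absurd (List.cons.inj h).1 (by decide)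
    | or e' f' =>
      simp only [encE, List.cons_append, List.cons.injEq, true_and, List.append_assoc] at h
      obtain ⟨h1, h2⟩ := ihe e' _ _ (hstart f r) (hstart f' r') h
      obtain ⟨h3, h4⟩ := ihf f' r r' hr hr' h2
      exact ⟨by rw [h1, h3], h4⟩

theorem noDigit_nil : NoDigit [] := by
  intro a l h
  cases h

theorem encX_split (e e' : BExpr ℕ) (r r' : List Sy) (hr : NoDigit r) (hr' : NoDigit r')
    (h : encX e ++ r = encX e' ++ r') : e = e' ∧ r = r' := by
  refine encE_split (nm := fun n => .x :: encNat n) (fun x => ⟨_, _, rfl, Or.inl rfl⟩) ?_ e e' r r'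
    hr hr' h
  intro x x' s s' hs hs' h
  simp only [List.cons_append, List.cons.injEq, true_and] at h
  exact encNat_split hs hs' h

/-- The encoding of `B₂` is injective. -/
theorem encB2_inj : Function.Injective encB2 := by
  intro e e' h
  refine (encE_split (nm := Sum.elim (fun n => .x :: encNat n) (fun n => .y :: encNat n))
    ?_ ?_ e e' [] [] noDigit_nil noDigit_nil ?_).1
  · rintro (x | x)
    · exact ⟨_, _, rfl, Or.inl rfl⟩
    · exact ⟨_, _, rfl, Or.inr rfl⟩
  · rintro (x | x) (x' | x') s s' hs hs' h
    · simp only [Sum.elim_inl, List.cons_append, List.cons.injEq, true_and] at h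
      obtain ⟨h1, h2⟩ := encNat_split hs hs' h
      exact ⟨by rw [h1], h2⟩
    · exact absurd (List.cons.inj h).1 (by decide)
    · exact absurd (List.cons.inj h).1 (by decide)
    · simp only [Sum.elim_inr, List.cons_append, List.cons.injEq, true_and] at h
      obtain ⟨h1, h2⟩ := encNat_split hs hs' h
      exact ⟨by rw [h1], h2⟩
  · simpa [encB2] using h

/-- The encoding of the minimum equivalent expression problem is injective. -/
theorem encMEE_inj : Function.Injective encMEE := by
  rintro ⟨e, k⟩ ⟨e', k'⟩ h
  obtain ⟨h1, h2⟩ := encX_split e e' _ _ (noDigit_cons (by decide)) (noDigit_cons (by decide)) h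
  rw [List.cons.injEq] at h2
  have h3 := encNat_inj h2.2
  simp only at h1 h3
  rw [h1, h3]

/-- The main result. -/
theorem main : Function.Injective encB2 ∧ Function.Injective encMEE ∧
    ManyOnePoly encB2 encMEE B2 MEE :=
  ⟨encB2_inj, encMEE_inj, red, red_computable, red_correct⟩

end Pool.Agent.Helper64.MEE
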