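import Pool.Agent.Helper64.MEE.Mach

/-!
Programs which write names, literals, bundles, blocks and terms.
-/

set_option linter.unusedSectionVars false
set_option linter.unusedSimpArgs false

namespace Pool.Agent.Helper64.MEE

open Stk

/-- The payload of a name. -/
def pay (s : St) : Option Key → List Sy
  | none => []
  | some k => s.fn k

/-- Write the payload. -/
def emPay (out : Key) : Option Key → Prog
  | none => .skip
  | some k => copy k out

/-- Write a name with prefix `pre`, the payload on the stack `src`, and a final one. -/
def emName (pre : List Bool) (src : Option Key) (out : Key) : Prog :=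
  .seq (emits (.x :: pre.map bit) out) (.seq (emPay out src) (.push out .b1))

theorem ru_emPay {src : Option Key} {out : Key} (h : ∀ k, src = some k → k ≠ out ∧ k ≠ .T)
    (ho : out ≠ .T) (s : St) (hT : s.t = []) :
    Ru (emPay out src) s (s.put out ((pay s src).reverse ++ s.fn out))
      (5 * (pay s src).length + 2) := by
  cases src with
  | none =>
    have : s.put out ((pay s none).reverse ++ s.fn out) = s := by simp [pay]
    rw [this]
    exact (Ru.skip s).mono (by omega)
  | some k =>
    obtain ⟨h1, h2⟩ := h k rfl
    exact ru_copy h1 h2 ho s hT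

theorem ru_emName {pre : List Bool} {src : Option Key} {out : Key}
    (h : ∀ k, src = some k → k ≠ out ∧ k ≠ .T) (ho : out ≠ .T) (s : St) (hT : s.t = []) :
    Ru (emName pre src out) s
      (s.put out ((.x :: (pre.map bit ++ pay s src ++ [.b1])).reverse ++ s.fn out))
      (5 * (pay s src).length + pre.length + 6) := by
  have e1 := ru_emits (.x :: pre.map bit) out s
  have e2 := ru_emPay h ho (s.put out ((.x :: pre.map bit).reverse ++ s.fn out))
    (by
      have : (s.put out ((.x :: pre.map bit).reverse ++ s.fn out)).fn .T = s.fn .T :=
        St.fn_put_ne _ ho.symm _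
      exact this.trans hT)
  have hpay : pay (s.put out ((.x :: pre.map bit).reverse ++ s.fn out)) src = pay s src := by
    cases src with
    | none => rfl
    | some k => exact St.fn_put_ne _ (h k rfl).1 _
  rw [hpay, St.fn_put_self, St.put_put_self] at e2
  have e3 := Ru.push out .b1
    (s.put out ((pay s src).reverse ++ ((.x :: pre.map bit).reverse ++ s.fn out)))
  rw [St.fn_put_self, St.put_put_self] at e3
  refine (e1.seq (e2.seq e3)).conv ?_ ?_
  · congr 1
    simp
  · simp only [List.length_cons, List.length_map]
    omega

theorem encX_nl (l : LN) : encX (.var (nl l)) = .x :: ((lcode l).map bit ++ [.b1]) := by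
  show Sy.x :: encNat (nl l) = _
  rw [nl, encNat_num]

theorem encX_hn (c : ℕ) : encX (.var (hn c)) =
    .x :: (([false, true, true] : List Bool).map bit ++ List.replicate c .b1 ++ [.b1]) := by
  show Sy.x :: encNat (hn c) = _
  rw [hn, encNat_num]
  simp [bit]

/-- The source `x` denotes the light variable `l`, with payload of length at most `G`. -/
def Den (G : ℕ) (s : St) (x : List Bool × Option Key) (l : LN) : Prop :=
  (∀ k, x.2 = some k → k = .W ∨ k = .C ∨ k = .A ∨ k = .B) ∧
    x.1.map bit ++ pay s x.2 = (lcode l).map bit ∧ (pay s x.2).length ≤ G ∧ x.1.length ≤ 3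

theorem Den.frame {G : ℕ} {s s' : St} {x : List Bool × Option Key} {l : LN} (h : Den G s x l)
    (hw : s'.w = s.w) (hc : s'.c = s.c) (ha : s'.a = s.a) (hb : s'.b = s.b) : Den G s' x l := by
  obtain ⟨h1, h2, h3, h4⟩ := h
  have hpay : pay s' x.2 = pay s x.2 := by
    cases hx : x.2 with
    | none => rfl
    | some k =>
      rcases h1 k hx with rfl | rfl | rfl | rfl
      · exact hw
      · exact hc
      · exact ha
      · exact hb
  exact ⟨h1, by rw [hpay]; exact h2, by rw [hpay]; exact h3, h4⟩

theorem ru_emDen {G : ℕ} {s : St} {x : List Bool × Option Key} {l : LN} (h : Den G s x l)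
    (out : Key) (ho : out = .P ∨ out = .Z) (hT : s.t = []) :
    Ru (emName x.1 x.2 out) s (s.put out ((encX (.var (nl l))).reverse ++ s.fn out))
      (5 * G + 9) := by
  obtain ⟨h1, h2, h3, h4⟩ := h
  have e := ru_emName (pre := x.1) (src := x.2) (out := out)
    (by
      intro k hk
      rcases h1 k hk with rfl | rfl | rfl | rfl <;> rcases ho with rfl | rfl <;>
        exact ⟨by decide, by decide⟩)
    (by rcases ho with rfl | rfl <;> decide) s hT
  refine e.conv ?_ (by omega)
  rw [encX_nl, h2]

/-- Write a literal on `P`. -/
def emLit (x : List Bool × Option Key) (sign : Bool) : Prog :=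
  if sign then emName x.1 x.2 .P else .seq (.push .P .neg) (emName x.1 x.2 .P)

theorem ru_emLit {G : ℕ} {s : St} {x : List Bool × Option Key} {l : LN} (h : Den G s x l)
    (sign : Bool) (hT : s.t = []) :
    Ru (emLit x sign) s {s with p := (encX (litE nl (l, sign))).reverse ++ s.p}
      (5 * G + 10) := by
  cases sign with
  | true =>
    refine (ru_emDen h .P (Or.inl rfl) hT).conv ?_ (by omega)
    rfl
  | false =>
    have e1 : Ru (.push .P .neg) s {s with p := .neg :: s.p} 1 := Ru.push .P .neg s
    have h' : Den G {s with p := .neg :: s.p} x l := h.frame rfl rfl rfl rfl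
    have e2 := ru_emDen h' .P (Or.inl rfl) hT
    refine (e1.seq e2).conv ?_ (by omega)
    show {s with p := (encX (.var (nl l))).reverse ++ (.neg :: s.p)}
      = {s with p := (encX (litE nl (l, false))).reverse ++ s.p}
    congr 1
    simp [litE, encX, encE]

/-- The text of a bundle. -/
def bundleStr (op : Sy) (n : ℕ) : ℕ → List Sy
  | 0 => []
  | M + 1 => (op :: encX (.var (hn n))) ++ bundleStr op (n + 1) M

/-- One copy of a heavy variable. -/
def bundleBody (op : Sy) (a : Sy) : Prog :=
  .seq (.push .MM a) (.seq (.push .P op) (.seq (emName [false, true, true] (some .N) .P)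
    (.seq (.push .N .b1) (.push .U .b1))))

/-- Write a bundle on `P`. -/
def bundle' (op : Sy) : Prog := .seq (drain .M (bundleBody op)) (move .MM .M)

theorem ru_bundleBody {G : ℕ} (op a : Sy) (s : St) (n : ℕ) (hn' : s.n = List.replicate n .b1)
    (hG : n ≤ G) (hT : s.t = []) :
    Ru (bundleBody op a) s {s with
      mm := a :: s.mm
      p := (op :: encX (.var (hn n))).reverse ++ s.p
      n := List.replicate (n + 1) .b1
      u := .b1 :: s.u} (5 * G + 13) := by
  have e1 : Ru (.push .MM a) s {s with mm := a :: s.mm} 1 := Ru.push .MM a s
  have e2 : Ru (.push .P op) {s with mm := a :: s.mm} {s with mm := a :: s.mm, p := op :: s.p} 1 :=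
    Ru.push .P op _
  have e3 : Ru (emName [false, true, true] (some .N) .P) {s with mm := a :: s.mm, p := op :: s.p}
      {s with mm := a :: s.mm, p := (encX (.var (hn n))).reverse ++ (op :: s.p)} (5 * G + 9) := by
    have h := ru_emName (pre := [false, true, true]) (src := some .N) (out := .P)
      (by intro k hk; cases hk; exact ⟨by decide, by decide⟩) (by decide)
      {s with mm := a :: s.mm, p := op :: s.p} hT
    have hp : pay {s with mm := a :: s.mm, p := op :: s.p} (some .N) = List.replicate n .b1 := hn'
    rw [hp] at h
    refine h.conv ?_ ?_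
    · rw [encX_hn]; rfl
    · simp only [List.length_replicate, List.length_cons, List.length_nil]; omega
  have e4 : Ru (.push .N .b1)
      {s with mm := a :: s.mm, p := (encX (.var (hn n))).reverse ++ (op :: s.p)}
      {s with mm := a :: s.mm, p := (encX (.var (hn n))).reverse ++ (op :: s.p),
              n := .b1 :: s.n} 1 := Ru.push .N .b1 _
  have e5 : Ru (.push .U .b1)
      {s with mm := a :: s.mm, p := (encX (.var (hn n))).reverse ++ (op :: s.p),
              n := .b1 :: s.n}
      {s with mm := a :: s.mm, p := (encX (.var (hn n))).reverse ++ (op :: s.p),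
              n := .b1 :: s.n, u := .b1 :: s.u} 1 := Ru.push .U .b1 _
  refine (e1.seq (e2.seq (e3.seq (e4.seq e5)))).conv ?_ (by omega)
  rw [hn']
  congr 1
  simp

theorem ru_bundleLoop {G : ℕ} (op : Sy) (s : St) (n : ℕ) (hn' : s.n = List.replicate n .b1)
    (hG : n + s.m.length ≤ G) (hT : s.t = []) :
    Ru (drain .M (bundleBody op)) s {s with
      m := []
      mm := s.m.reverse ++ s.mm
      p := (bundleStr op n s.m.length).reverse ++ s.p
      n := List.replicate (n + s.m.length) .b1
      u := List.replicate s.m.length .b1 ++ s.u} (s.m.length * (5 * G + 14) + 1) := by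
  generalize hl : s.m = l at hG ⊢
  induction l generalizing s n with
  | nil =>
    refine (Ru.loop_nil (k := .M) hl).conv ?_ (by simp)
    cases s
    simp only at hl hn'
    subst hl hn'
    simp [bundleStr]
  | cons a l ih =>
    simp only [List.length_cons] at hG
    have e1 := ru_bundleBody (G := G) op a {s with m := l} n hn' (by omega) hT
    have e2 := ih {s with
      m := l
      mm := a :: s.mm
      p := (op :: encX (.var (hn n))).reverse ++ s.p
      n := List.replicate (n + 1) .b1
      u := .b1 :: s.u} (n + 1) rfl hT rfl (by omega)
    have e3 := Ru.loop_step (stop := never) (k := .M) (body := bundleBody op) hl rfl e1 e2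
    refine e3.conv ?_ ?_
    · have a1 : n + 1 + l.length = n + (a :: l).length := by simp only [List.length_cons]; omega
      have a2 : List.replicate l.length Sy.b1 ++ (Sy.b1 :: s.u)
          = List.replicate (a :: l).length Sy.b1 ++ s.u := by
        rw [List.length_cons, List.replicate_succ', List.append_assoc]
        rfl
      simp only [a1, a2]
      congr 1
      all_goals simp [bundleStr]
    · simp only [List.length_cons]
      ring_nf
      omega

theorem ru_bundle' {G : ℕ} (op : Sy) (s : St) (n : ℕ) (hn' : s.n = List.replicate n .b1)
    (hG : n + s.m.length ≤ G) (hT : s.t = []) (hmm : s.mm = []) :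
    Ru (bundle' op) s {s with
      p := (bundleStr op n s.m.length).reverse ++ s.p
      n := List.replicate (n + s.m.length) .b1
      u := List.replicate s.m.length .b1 ++ s.u} (G * (5 * G + 16) + 2) := by
  have e1 := ru_bundleLoop (G := G) op s n hn' hG hT
  have e2 := ru_move (k := .MM) (k' := .M) (by decide) {s with
      m := []
      mm := s.m.reverse ++ s.mm
      p := (bundleStr op n s.m.length).reverse ++ s.p
      n := List.replicate (n + s.m.length) .b1
      u := List.replicate s.m.length .b1 ++ s.u}
  refine (e1.seq e2).conv ?_ ?_
  · simp only [St.put, St.fn, hmm]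
    cases s
    simp only at hmm
    subst hmm
    simp
  · simp only [St.fn, hmm, List.append_nil, List.length_reverse]
    have : s.m.length ≤ G := by omega
    nlinarith

theorem encX_ors_names (n M : ℕ) (e : BExpr ℕ) :
    encX (orsE (names hn n M) e) = bundleStr .or n M ++ encX e := by
  induction M generalizing n with
  | zero => simp [names, orsE, bundleStr]
  | succ M ih =>
    have h1 : names hn n (M + 1) = hn n :: names hn (n + 1) M := by
      simp [names, List.range'_succ]
    have h2 : orsE (hn n :: names hn (n + 1) M) e = .or (.var (hn n)) (orsE (names hn (n + 1) M) e) :=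
      rfl
    rw [h1, h2]
    show Sy.or :: (encX (.var (hn n)) ++ encX (orsE (names hn (n + 1) M) e)) = _
    rw [ih]
    simp [bundleStr]

theorem encX_ands_names (n M : ℕ) (e : BExpr ℕ) :
    encX (andsE (names hn n M) e) = bundleStr .and n M ++ encX e := by
  induction M generalizing n with
  | zero => simp [names, andsE, bundleStr]
  | succ M ih =>
    have h1 : names hn n (M + 1) = hn n :: names hn (n + 1) M := by
      simp [names, List.range'_succ]
    have h2 : andsE (hn n :: names hn (n + 1) M) e
        = .and (.var (hn n)) (andsE (names hn (n + 1) M) e) := rfl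
    rw [h1, h2]
    show Sy.and :: (encX (.var (hn n)) ++ encX (andsE (names hn (n + 1) M) e)) = _
    rw [ih]
    simp [bundleStr]

/-- Write a block. -/
def emBlock (x : List Bool × Option Key) (sign : Bool) : Prog :=
  .seq (bundle' .or) (.seq (emLit x sign) (.push .U .b1))

theorem ru_emBlock {G : ℕ} {x : List Bool × Option Key} {l : LN} (s : St) (h : Den G s x l)
    (sign : Bool) (n : ℕ) (hn' : s.n = List.replicate n .b1)
    (hG : n + s.m.length ≤ G) (hT : s.t = []) (hmm : s.mm = []) :
    Ru (emBlock x sign) s {s with
      p := (encX (blockE nl hn s.m.length n (l, sign))).reverse ++ s.p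
      n := List.replicate (n + s.m.length) .b1
      u := List.replicate (s.m.length + 1) .b1 ++ s.u} (G * (5 * G + 16) + 5 * G + 13) := by
  have e1 := ru_bundle' (G := G) .or s n hn' hG hT hmm
  have h' : Den G {s with
      p := (bundleStr .or n s.m.length).reverse ++ s.p
      n := List.replicate (n + s.m.length) .b1
      u := List.replicate s.m.length .b1 ++ s.u} x l := h.frame rfl rfl rfl rfl
  have e2 := ru_emLit h' sign hT
  have e3 := Ru.push .U .b1 {s with
      p := (encX (litE nl (l, sign))).reverse ++ ((bundleStr .or n s.m.length).reverse ++ s.p)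
      n := List.replicate (n + s.m.length) Sy.b1
      u := List.replicate s.m.length Sy.b1 ++ s.u}
  refine (e1.seq (e2.seq e3)).conv ?_ (by omega)
  show {s with
      p := (encX (litE nl (l, sign))).reverse ++ ((bundleStr .or n s.m.length).reverse ++ s.p)
      n := List.replicate (n + s.m.length) Sy.b1
      u := Sy.b1 :: (List.replicate s.m.length Sy.b1 ++ s.u)} = _
  congr 1
  rw [blockE, encX_ors_names]
  simp

/-- The source of `g`. -/
def srcG : List Bool × Option Key := ([false, false, false], none)

theorem den_g (G : ℕ) (s : St) : Den G s srcG .g :=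
  ⟨by (intro k hk; cases hk), rfl, by simp [srcG, pay], by simp [srcG]⟩

/-- Write the blocks of a term. -/
def emTermAux : List ((List Bool × Option Key) × Bool) → Prog
  | [] => emBlock srcG true
  | x :: xs => .seq (.push .P .and) (.seq (emBlock x.1 x.2) (emTermAux xs))

theorem ru_emTermAux {G : ℕ} (xs : List ((List Bool × Option Key) × Bool))
    (T : List (LN × Bool)) (s : St)
    (h : List.Forall₂ (fun x l => Den G s x.1 l.1 ∧ x.2 = l.2) xs T)
    (n : ℕ) (hn' : s.n = List.replicate n .b1)
    (hG : n + (T.length + 1) * s.m.length ≤ G) (hT : s.t = []) (hmm : s.mm = []) :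
    Ru (emTermAux xs) s {s with
      p := (encX (termE nl hn s.m.length .g n T)).reverse ++ s.p
      n := List.replicate (n + (T.length + 1) * s.m.length) .b1
      u := List.replicate ((T.length + 1) * (s.m.length + 1)) .b1 ++ s.u}
      ((T.length + 1) * (G * (5 * G + 16) + 5 * G + 14)) := by
  induction xs generalizing T s n with
  | nil =>
    cases h
    have e := ru_emBlock s (den_g G s) true n hn' (by simpa using hG) hT hmm
    refine e.conv ?_ (by simp only [List.length_nil]; omega)
    simp [termE]
  | cons x xs ih =>
    cases h with
    | @cons _ l _ T hx h =>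
    simp only [List.length_cons] at hG
    have hG' : n + (s.m.length + (T.length + 1) * s.m.length) ≤ G := by
      have : (T.length + 1 + 1) * s.m.length = s.m.length + (T.length + 1) * s.m.length := by ring
      rw [this] at hG
      exact hG
    have e1 : Ru (.push .P .and) s {s with p := .and :: s.p} 1 := Ru.push .P .and s
    have e2 := ru_emBlock (G := G) {s with p := .and :: s.p} (hx.1.frame rfl rfl rfl rfl) x.2 n hn'
      (by show n + s.m.length ≤ G; omega) hT hmm
    have e3 := ih T {s with
      p := (encX (blockE nl hn s.m.length n (l.1, x.2))).reverse ++ .and :: s.p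
      n := List.replicate (n + s.m.length) .b1
      u := List.replicate (s.m.length + 1) .b1 ++ s.u}
      (h.imp fun _ _ hxl => ⟨hxl.1.frame rfl rfl rfl rfl, hxl.2⟩) (n + s.m.length) rfl
      (by show n + s.m.length + (T.length + 1) * s.m.length ≤ G; omega) hT hmm
    refine (e1.seq (e2.seq e3)).conv ?_ ?_
    · have hl : (l.1, x.2) = l := by rw [hx.2]
      have a1 : n + s.m.length + (T.length + 1) * s.m.length
          = n + ((l :: T).length + 1) * s.m.length := by
        simp only [List.length_cons]; ring
      have a2 : List.replicate ((T.length + 1) * (s.m.length + 1)) Sy.b1 ++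
          (List.replicate (s.m.length + 1) Sy.b1 ++ s.u)
          = List.replicate (((l :: T).length + 1) * (s.m.length + 1)) Sy.b1 ++ s.u := by
        rw [← List.append_assoc, List.replicate_append_replicate]
        congr 2
        simp only [List.length_cons]; ring
      simp only [a1, a2, hl]
      congr 1
      show (encX (termE nl hn s.m.length LN.g (n + s.m.length) T)).reverse ++
        ((encX (blockE nl hn s.m.length n l)).reverse ++ Sy.and :: s.p) =
        (encX (termE nl hn s.m.length LN.g n (l :: T))).reverse ++ s.p
      rw [termE]
      show _ = (Sy.and :: (encX (blockE nl hn s.m.length n l) ++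
        encX (termE nl hn s.m.length LN.g (n + s.m.length) T))).reverse ++ s.p
      simp
    · simp only [List.length_cons]
      ring_nf
      omega

/-- Write a term, preceded by a disjunction sign. -/
def emTerm (xs : List ((List Bool × Option Key) × Bool)) : Prog :=
  .seq (.push .P .or) (emTermAux xs)

/-- Write several terms. -/
def emTerms : List (List ((List Bool × Option Key) × Bool)) → Prog
  | [] => .skip
  | x :: xs => .seq (emTerm x) (emTerms xs)

/-- The text of several terms. -/
def preT (M : ℕ) : ℕ → List (List (LN × Bool)) → List Sy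
  | _, [] => []
  | n, T :: Ts => (.or :: encX (termE nl hn M .g n T)) ++ preT M (n + (T.length + 1) * M) Ts

theorem preT_append (M n : ℕ) (Ts Ts' : List (List (LN × Bool))) :
    preT M n (Ts ++ Ts') = preT M n Ts ++ preT M (n + offT Ts * M) Ts' := by
  induction Ts generalizing n with
  | nil => simp [preT]
  | cons T Ts ih =>
    have e : n + (T.length + 1) * M + offT Ts * M = n + (T.length + 1 + offT Ts) * M := by ring
    simp only [List.cons_append, preT, ih, offT_cons, List.append_assoc, e]

theorem encX_termsE (M : ℕ) (js : List LN) (j : LN) (n : ℕ) (Ts : List (List (LN × Bool))) :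
    encX (termsE nl hn M .g js j n Ts) =
      preT M n Ts ++ encX (termsE nl hn M .g js j (n + offT Ts * M) []) := by
  induction Ts generalizing n with
  | nil => simp [preT]
  | cons T Ts ih =>
    have h0 : termsE nl hn M .g js j n (T :: Ts) = .or (termE nl hn M .g n T)
        (termsE nl hn M .g js j (n + (T.length + 1) * M) Ts) := rfl
    rw [h0]
    show Sy.or :: (encX (termE nl hn M .g n T) ++
      encX (termsE nl hn M .g js j (n + (T.length + 1) * M) Ts)) = _
    rw [ih, preT, offT_cons]
    have : n + (T.length + 1) * M + offT Ts * M = n + (T.length + 1 + offT Ts) * M := by ring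
    rw [this]
    simp only [List.cons_append, List.append_assoc]

/-- Cost of a block. -/
def cB (G : ℕ) : ℕ := G * (5 * G + 16) + 5 * G + 15

theorem ru_emTerms {G : ℕ} (xs : List (List ((List Bool × Option Key) × Bool)))
    (Ts : List (List (LN × Bool))) (s : St)
    (h : List.Forall₂ (List.Forall₂ (fun x l => Den G s x.1 l.1 ∧ x.2 = l.2)) xs Ts)
    (n : ℕ) (hn' : s.n = List.replicate n .b1)
    (hG : n + offT Ts * s.m.length ≤ G) (hT : s.t = []) (hmm : s.mm = []) :
    Ru (emTerms xs) s {s with
      p := (preT s.m.length n Ts).reverse ++ s.p
      n := List.replicate (n + offT Ts * s.m.length) .b1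
      u := List.replicate (offT Ts * (s.m.length + 1)) .b1 ++ s.u}
      (offT Ts * cB G + 1) := by
  induction xs generalizing Ts s n with
  | nil =>
    cases h
    refine (Ru.skip s).conv ?_ (by simp)
    cases s
    simp only at hn'
    subst hn'
    simp [preT]
  | cons x xs ih =>
    cases h with
    | @cons _ T _ Ts hx h =>
    rw [offT_cons] at hG
    have hG' : n + ((T.length + 1) * s.m.length + offT Ts * s.m.length) ≤ G := by
      rw [← add_mul]; exact hG
    have e1 : Ru (.push .P .or) s {s with p := .or :: s.p} 1 := Ru.push .P .or s
    have e2 := ru_emTermAux (G := G) x T {s with p := .or :: s.p}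
      (hx.imp fun _ _ hxl => ⟨hxl.1.frame rfl rfl rfl rfl, hxl.2⟩) n hn'
      (by show n + (T.length + 1) * s.m.length ≤ G; omega) hT hmm
    have e3 := ih Ts {s with
      p := (encX (termE nl hn s.m.length .g n T)).reverse ++ .or :: s.p
      n := List.replicate (n + (T.length + 1) * s.m.length) .b1
      u := List.replicate ((T.length + 1) * (s.m.length + 1)) .b1 ++ s.u}
      (h.imp fun _ _ hxl => hxl.imp fun _ _ hxl => ⟨hxl.1.frame rfl rfl rfl rfl, hxl.2⟩)
      (n + (T.length + 1) * s.m.length) rfl
      (by show n + (T.length + 1) * s.m.length + offT Ts * s.m.length ≤ G; omega) hT hmm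
    refine ((e1.seq e2).seq e3).conv ?_ ?_
    · have a1 : n + (T.length + 1) * s.m.length + offT Ts * s.m.length
          = n + offT (T :: Ts) * s.m.length := by
        rw [offT_cons]; ring
      have a2 : List.replicate (offT Ts * (s.m.length + 1)) Sy.b1 ++
          (List.replicate ((T.length + 1) * (s.m.length + 1)) Sy.b1 ++ s.u)
          = List.replicate (offT (T :: Ts) * (s.m.length + 1)) Sy.b1 ++ s.u := by
        rw [← List.append_assoc, List.replicate_append_replicate, offT_cons]
        congr 2
        ring
      simp only [a1, a2]
      congr 1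
      show (preT s.m.length (n + (T.length + 1) * s.m.length) Ts).reverse ++
        ((encX (termE nl hn s.m.length LN.g n T)).reverse ++ Sy.or :: s.p) =
        (preT s.m.length n (T :: Ts)).reverse ++ s.p
      rw [preT]
      simp
    · rw [offT_cons]
      unfold cB
      ring_nf
      omega

end Pool.Agent.Helper64.MEE
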