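import Pool.Agent.Helper64.MEE.Formula

/-!
Encodings: expressions in Polish notation, numbers in binary (least significant digit first).
-/

namespace Pool.Agent.Helper64.MEE

theorem bit_inj : Function.Injective bit := by
  intro a b h
  cases a <;> cases b <;> simp_all [bit]

/-- The number with binary digits `w` followed by a leading one. -/
def num : List Bool → ℕ
  | [] => 1
  | b :: w => Nat.bit b (num w)

theorem num_pos (w : List Bool) : num w ≠ 0 := by
  induction w with
  | nil => simp [num]
  | cons b w ih =>
    simp only [num, Nat.bit_val]
    omega

theorem bits_num (w : List Bool) : (num w).bits = w ++ [true] := by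
  induction w with
  | nil => simp [num]
  | cons b w ih =>
    simp only [num]
    rw [Nat.bits_append_bit _ _ (fun h => absurd h (num_pos w)), ih]
    rfl

theorem num_inj : Function.Injective num := by
  intro a b h
  have := congrArg Nat.bits h
  rw [bits_num, bits_num] at this
  exact List.append_cancel_right this

theorem bits_inj : Function.Injective Nat.bits := by
  intro a b h
  apply Nat.eq_of_testBit_eq
  intro i
  rw [Nat.testBit_eq_inth, Nat.testBit_eq_inth, h]

theorem encNat_inj : Function.Injective encNat := by
  intro a b h
  exact bits_inj (List.map_injective_iff.mpr bit_inj h)

theorem encNat_num (w : List Bool) : encNat (num w) = w.map bit ++ [.b1] := by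
  simp [encNat, bits_num, bit]

/-- Codes of the light variables. -/
def lcode : LN → List Bool
  | .g => [false, false, false]
  | .c => [false, false, true]
  | .a0 => [false, true, false]
  | .a n => [true, false, false] ++ n.bits
  | .b n => [true, false, true] ++ n.bits
  | .y n => [true, true, false] ++ n.bits
  | .s p => [true, true, true] ++ List.replicate p true

/-- Names of the light variables. -/
def nl (l : LN) : ℕ := num (lcode l)

/-- Names of the copies of the heavy variables. -/
def hn (c : ℕ) : ℕ := num ([false, true, true] ++ List.replicate c true)

theorem replicate_inj' {a b : ℕ} (h : List.replicate a true = List.replicate b true) : a = b := by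
  have := congrArg List.length h
  simpa using this

theorem lcode_inj : Function.Injective lcode := by
  intro u v h
  cases u <;> cases v <;> simp only [lcode, List.cons_append, List.nil_append, List.cons.injEq,
    reduceCtorEq, true_and, false_and, and_false] at h
  all_goals first
    | rfl
    | exact congrArg _ (bits_inj h)
    | exact congrArg _ (replicate_inj' h)

theorem nl_inj : Function.Injective nl := fun _ _ h => lcode_inj (num_inj h)

theorem hn_inj : Function.Injective hn := by
  intro u v h
  have h' := num_inj h
  simp only [List.cons_append, List.nil_append, List.cons.injEq, true_and] at h'
  exact replicate_inj' h'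

theorem nl_ne_hn (l : LN) (c : ℕ) : nl l ≠ hn c := by
  intro h
  have h' := num_inj h
  cases l <;> simp [lcode] at h'

end Pool.Agent.Helper64.MEE
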