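import Pool.Agent.Helper64.MEE.Defs

/-!
Occurrences of variables in Boolean expressions.
-/

namespace Pool.Agent.Helper64.MEE

namespace BExpr

variable {α β : Type}

/-- Number of occurrences of variables satisfying `p`. -/
def occ (p : α → Bool) : BExpr α → ℕ
  | var x => if p x then 1 else 0
  | neg e => e.occ p
  | and e f => e.occ p + f.occ p
  | or e f => e.occ p + f.occ p

theorem eval_congr {e : BExpr α} {v v' : α → Bool} {p : α → Bool} (he : e.occ p = 0)
    (h : ∀ x, p x = false → v x = v' x) : e.eval v = e.eval v' := by
  induction e with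
  | var x =>
    simp only [occ, ite_eq_right_iff, one_ne_zero, imp_false, Bool.not_eq_true] at he
    exact h x he
  | neg e ih => simp only [eval]; rw [ih he]
  | and e f ihe ihf =>
    simp only [occ] at he
    simp only [eval]; rw [ihe (by omega), ihf (by omega)]
  | or e f ihe ihf =>
    simp only [occ] at he
    simp only [eval]; rw [ihe (by omega), ihf (by omega)]

theorem sum_occ_le [DecidableEq α] (e : BExpr α) {ι : Type} (s : Finset ι) (p : ι → α → Bool)
    (hdisj : ∀ x, ∀ i ∈ s, ∀ j ∈ s, p i x = true → p j x = true → i = j) :
    ∑ i ∈ s, e.occ (p i) ≤ e.size := by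
  classical
  induction e with
  | var x =>
    simp only [occ, size]
    rw [← Finset.card_filter]
    rw [Finset.card_le_one]
    intro a ha b hb
    rw [Finset.mem_filter] at ha hb
    exact hdisj x a ha.1 b hb.1 ha.2 hb.2
  | neg e ih => exact ih
  | and e f ihe ihf => simp only [occ, size, Finset.sum_add_distrib]; omega
  | or e f ihe ihf => simp only [occ, size, Finset.sum_add_distrib]; omega

end BExpr

end Pool.Agent.Helper64.MEE
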