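import Pool.Agent.Helper64.MEE.Main

/-!
The initial and the final part of the program.
-/

set_option linter.unusedSectionVars false
set_option linter.unusedSimpArgs false

namespace Pool.Agent.Helper64.MEE

open Stk

theorem Ru.len {c : Prog} {s s' : St} {B : ℕ} (h : Ru c s s' B) (k : Key) :
    (s'.fn k).length ≤ (s.fn k).length + B := by
  obtain ⟨t, ht, hr⟩ := h
  have := hr.length_le k
  omega

/-- Reverse the input and write the marks for the copies. -/
def prep : Prog := drain .I (fun a => .seq (.push .R a) (emits (List.replicate 32 .b1) .M))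

theorem ru_prep (s : St) :
    Ru prep s {s with
      i := []
      r := s.i.reverse ++ s.r
      m := List.replicate (32 * s.i.length) .b1 ++ s.m} (35 * s.i.length + 1) := by
  generalize hl : s.i = l
  induction l generalizing s with
  | nil =>
    refine (Ru.loop_nil (k := .I) hl).conv ?_ (by simp)
    cases s
    simp only at hl
    subst hl
    rfl
  | cons a l ih =>
    have e1 : Ru (.push .R a) {s with i := l} {s with i := l, r := a :: s.r} 1 := Ru.push .R a _
    have e2 := ru_emits (List.replicate 32 .b1) .M {s with i := l, r := a :: s.r}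
    have e3 := ih {s with
      i := l
      r := a :: s.r
      m := (List.replicate 32 Sy.b1).reverse ++ s.m} rfl
    refine (Ru.loop_step (stop := never) (k := .I) hl rfl (e1.seq e2) e3).conv ?_ ?_
    · have a1 : List.replicate (32 * l.length) Sy.b1 ++ ((List.replicate 32 Sy.b1).reverse ++ s.m)
          = List.replicate (32 * (a :: l).length) Sy.b1 ++ s.m := by
        rw [List.reverse_replicate, ← List.append_assoc, List.replicate_append_replicate,
          List.length_cons]
        congr 2
      simp only [a1]
      simp
    · simp only [List.length_cons, List.length_replicate]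
      omega

/-- One halving of the unary number on `U`. -/
def half : Prog := drain .U (fun _ => .cas .G (.push .G .b1) (fun _ => .push .UU .b1))

theorem ru_half (n : ℕ) (s : St) (h : ℕ) (b : Bool) (hu : s.u = List.replicate n .b1)
    (hg : s.g = if b then [Sy.b1] else []) (huu : s.uu = List.replicate h .b1) :
    Ru half s {s with
      u := []
      g := if (n + (if b then 1 else 0)) % 2 = 1 then [.b1] else []
      uu := List.replicate (h + (n + (if b then 1 else 0)) / 2) .b1} (3 * n + 1) := by
  induction n generalizing s h b with
  | zero =>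
    refine (Ru.loop_nil (k := .U) hu).conv ?_ (by simp)
    cases s
    simp only at hu hg huu
    subst hu hg huu
    cases b <;> simp
  | succ n ih =>
    have hu' : s.fn .U = .b1 :: List.replicate n .b1 := by
      show s.u = _
      rw [hu, List.replicate_succ]
    cases b with
    | false =>
      have hg' : ({s with u := List.replicate n .b1} : St).fn .G = [] := by
        show s.g = _
        rw [hg]; simp
      have e1 : Ru (.push .G .b1) {s with u := List.replicate n .b1}
        {s with u := List.replicate n .b1, g := [.b1]} 1 := by
        have := Ru.push .G .b1 {s with u := List.replicate n Sy.b1}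
        rw [hg'] at this
        exact this
      have e2 := Ru.cas_nil (k := .G) (body := fun _ => .push .UU .b1) hg' e1
      have e3 := ih {s with u := List.replicate n .b1, g := [.b1]} h true rfl (by simp) huu
      refine (Ru.loop_step (stop := never) hu' rfl e2 e3).conv ?_ (by omega)
      simp
    | true =>
      have hg' : ({s with u := List.replicate n .b1} : St).fn .G = [.b1] := by
        show s.g = _
        rw [hg]; simp
      have e1 : Ru (.push .UU .b1) {s with u := List.replicate n .b1, g := []}
        {s with u := List.replicate n .b1, g := [], uu := List.replicate (h + 1) .b1} 1 := by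
        have := Ru.push .UU .b1 {s with u := List.replicate n Sy.b1, g := []}
        refine this.conv ?_ le_rfl
        simp only [St.put, St.fn, huu]
        rw [List.replicate_succ]
      have e2 := Ru.cas_cons (k := .G) (e := .push .G .b1) (body := fun _ => .push .UU .b1) hg' e1
      have e3 := ih {s with u := List.replicate n .b1, g := [], uu := List.replicate (h + 1) .b1}
        (h + 1) false rfl (by simp) rfl
      refine (Ru.loop_step (stop := never) hu' rfl e2 e3).conv ?_ (by omega)
      have a1 : (n + 1 + 1) % 2 = n % 2 := by omega
      have a2 : h + 1 + n / 2 = h + (n + 1 + 1) / 2 := by omega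
      simp [a1, a2]

/-- Write the unary number on `U` in binary. -/
def halve : Prog :=
  drain .U (fun a => .seq (.push .U a) (.seq half
    (.seq (.cas .G (.push .P .b0) (fun _ => .push .P .b1)) (move .UU .U))))

theorem encNat_step (n : ℕ) (hn : n ≠ 0) :
    encNat n = (if n % 2 = 1 then Sy.b1 else Sy.b0) :: encNat (n / 2) := by
  have h1 : n.bits = (n.bodd) :: (n.div2).bits := by
    conv_lhs => rw [← Nat.bit_bodd_div2 n]
    rw [Nat.bits_append_bit]
    intro h
    by_contra hb
    rw [Bool.not_eq_true] at hb
    apply hn
    rw [← Nat.bit_bodd_div2 n, h, hb]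
    rfl
  unfold encNat
  rw [h1, List.map_cons, Nat.div2_val]
  congr 1
  have h2 := Nat.mod_two_of_bodd n
  rw [h2]
  cases n.bodd <;> simp [bit]

theorem ru_halve (n : ℕ) (s : St) (hu : s.u = List.replicate n .b1) (hg : s.g = [])
    (huu : s.uu = []) :
    Ru halve s {s with u := [], p := (encNat n).reverse ++ s.p} (24 * n + 1) := by
  induction n using Nat.strong_induction_on generalizing s with
  | _ n ih =>
    by_cases hn : n = 0
    · subst hn
      refine (Ru.loop_nil (k := .U) hu).conv ?_ (by simp)
      cases s
      simp only [List.replicate_zero] at hu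
      subst hu
      simp [encNat]
    · obtain ⟨m, rfl⟩ : ∃ m, n = m + 1 := ⟨n - 1, by omega⟩
      have hu' : s.fn .U = .b1 :: List.replicate m .b1 := by
        show s.u = _
        rw [hu, List.replicate_succ]
      have e1 : Ru (.push .U .b1) {s with u := List.replicate m .b1}
          {s with u := List.replicate (m + 1) .b1} 1 := Ru.push .U .b1 _
      have e2 := ru_half (m + 1) {s with u := List.replicate (m + 1) .b1} 0 false rfl
        (by show s.g = _; rw [hg]; simp) (by show s.uu = _; rw [huu]; simp)
      simp only [Bool.false_eq_true, if_false, add_zero, zero_add] at e2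
      have e3 : Ru (.cas .G (.push .P .b0) (fun _ => .push .P .b1)) {s with
          u := []
          g := if (m + 1) % 2 = 1 then [.b1] else []
          uu := List.replicate ((m + 1) / 2) .b1} {s with
          u := []
          uu := List.replicate ((m + 1) / 2) .b1
          p := (if (m + 1) % 2 = 1 then Sy.b1 else Sy.b0) :: s.p} 2 := by
        by_cases hm : (m + 1) % 2 = 1
        · rw [if_pos hm, if_pos hm]
          have h1 := Ru.push .P .b1 {s with
            u := []
            g := []
            uu := List.replicate ((m + 1) / 2) Sy.b1}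
          refine (Ru.cas_cons (k := .G) rfl h1).conv ?_ le_rfl
          cases s
          simp only at hg
          subst hg
          rfl
        · rw [if_neg hm, if_neg hm]
          have h1 := Ru.push .P .b0 {s with
            u := []
            g := []
            uu := List.replicate ((m + 1) / 2) Sy.b1}
          refine (Ru.cas_nil (k := .G) rfl h1).conv ?_ le_rfl
          cases s
          simp only at hg
          subst hg
          rfl
      have e4 : Ru (move .UU .U) {s with
          u := []
          uu := List.replicate ((m + 1) / 2) .b1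
          p := (if (m + 1) % 2 = 1 then Sy.b1 else Sy.b0) :: s.p} {s with
          u := List.replicate ((m + 1) / 2) .b1
          p := (if (m + 1) % 2 = 1 then Sy.b1 else Sy.b0) :: s.p} (2 * ((m + 1) / 2) + 1) := by
        refine (ru_move (k := .UU) (k' := .U) (by decide) _).conv ?_ ?_
        · simp only [St.put, St.fn, List.reverse_replicate, List.append_nil]
          cases s
          simp only at huu
          subst huu
          rfl
        · simp [St.fn]
      have e5 := ih ((m + 1) / 2) (by omega) {s with
          u := List.replicate ((m + 1) / 2) .b1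
          p := (if (m + 1) % 2 = 1 then Sy.b1 else Sy.b0) :: s.p} rfl hg huu
      refine (Ru.loop_step (stop := never) hu' rfl
        (e1.seq (e2.seq (e3.seq e4))) e5).conv ?_ (by omega)
      rw [encNat_step (m + 1) hn]
      simp

/-- The accepting term. -/
def accT : List (List (Src × Bool)) := [[(sc, true), (ssA, true), (sa0, false)]]

/-- First part of the final stage. -/
def finA : Prog :=
  .seq (popQ .A) (.seq (emTerms accT) (.seq (clear .A) (.seq (bundle' .and)
    (.seq (.push .P .and) (.seq (emName srcG.1 srcG.2 .P) (.push .U .b1))))))

theorem ru_finA (G M : ℕ) (p z : List Sy) (N c : ℕ) (L : List ℕ) (k : ℕ) (hc : c ≤ G)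
    (hN : N + 5 * M ≤ G) :
    Ru finA (cfg M [] p z (List.replicate c .b1 ++ .sep :: []) [] N c L k)
      (cfg M [] ((encX (.var (nl .g))).reverse ++ .and :: ((bundleStr .and (N + 4 * M) M).reverse
        ++ ((preT M N [[(.c, true), (.s c, true), (.a0, false)]]).reverse ++ p))) z [] []
        (N + 5 * M) c L (k + 4 * (M + 1) + M + 1)) (5 * cB G + 10 * G + 20) := by
  have e1 := ru_popA c [] (cfg M [] p z (List.replicate c .b1 ++ .sep :: []) [] N c L k) rfl
  have hm : ({cfg M [] p z [] [] N c L k with a := List.replicate c .b1 ++ []} : St).m.length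
    = M := by simp [cfg]
  have dA : ({cfg M [] p z [] [] N c L k with a := List.replicate c .b1 ++ []} : St).a =
    List.replicate c .b1 := by simp
  have hoff : offT [[(LN.c, true), (LN.s c, true), (LN.a0, false)]] = 4 := rfl
  have e2 := ru_emTerms (G := G) accT [[(.c, true), (.s c, true), (.a0, false)]]
    {cfg M [] p z [] [] N c L k with a := List.replicate c .b1 ++ []}
    (by
      unfold accT
      repeat' first
        | exact List.Forall₂.nil
        | exact den_c _ _
        | exact den_a0 _ _
        | exact den_sA dA hc
        | rfl
        | apply List.Forall₂.cons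
        | apply And.intro) N rfl (by rw [hm, hoff]; omega) rfl rfl
  rw [hm, hoff] at e2
  have e3 := ru_clear .A {cfg M [] p z [] [] N c L k with
    a := List.replicate c .b1 ++ []
    p := (preT M N [[(.c, true), (.s c, true), (.a0, false)]]).reverse ++ p
    n := List.replicate (N + 4 * M) Sy.b1
    u := List.replicate (4 * (M + 1)) Sy.b1 ++ List.replicate (k + L.length) Sy.b1}
  have hfn : ({cfg M [] p z [] [] N c L k with
    a := List.replicate c .b1 ++ []
    p := (preT M N [[(.c, true), (.s c, true), (.a0, false)]]).reverse ++ p
    n := List.replicate (N + 4 * M) Sy.b1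
    u := List.replicate (4 * (M + 1)) Sy.b1 ++ List.replicate (k + L.length) Sy.b1} : St).fn .A
      = List.replicate c .b1 := by simp [St.fn]
  rw [hfn, List.length_replicate] at e3
  have hm' : ({cfg M [] p z [] [] N c L k with
    p := (preT M N [[(.c, true), (.s c, true), (.a0, false)]]).reverse ++ p
    n := List.replicate (N + 4 * M) Sy.b1
    u := List.replicate (4 * (M + 1)) Sy.b1 ++ List.replicate (k + L.length) Sy.b1} :
      St).m.length = M := by simp [cfg]
  have e4 := ru_bundle' (G := G) .and {cfg M [] p z [] [] N c L k with
    p := (preT M N [[(.c, true), (.s c, true), (.a0, false)]]).reverse ++ p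
    n := List.replicate (N + 4 * M) Sy.b1
    u := List.replicate (4 * (M + 1)) Sy.b1 ++ List.replicate (k + L.length) Sy.b1} (N + 4 * M)
    rfl (by rw [hm']; omega) rfl rfl
  rw [hm'] at e4
  have e5 := Ru.push .P .and {cfg M [] p z [] [] N c L k with
    p := (bundleStr .and (N + 4 * M) M).reverse ++
      ((preT M N [[(.c, true), (.s c, true), (.a0, false)]]).reverse ++ p)
    n := List.replicate (N + 4 * M + M) Sy.b1
    u := List.replicate M Sy.b1 ++
      (List.replicate (4 * (M + 1)) Sy.b1 ++ List.replicate (k + L.length) Sy.b1)}
  have e6 := ru_emDen (G := G) (den_g G {cfg M [] p z [] [] N c L k with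
    p := .and :: ((bundleStr .and (N + 4 * M) M).reverse ++
      ((preT M N [[(.c, true), (.s c, true), (.a0, false)]]).reverse ++ p))
    n := List.replicate (N + 4 * M + M) Sy.b1
    u := List.replicate M Sy.b1 ++
      (List.replicate (4 * (M + 1)) Sy.b1 ++ List.replicate (k + L.length) Sy.b1)}) .P
      (Or.inl rfl) rfl
  have e7 := Ru.push .U .b1 {cfg M [] p z [] [] N c L k with
    p := (encX (.var (nl .g))).reverse ++ .and :: ((bundleStr .and (N + 4 * M) M).reverse ++
      ((preT M N [[(.c, true), (.s c, true), (.a0, false)]]).reverse ++ p))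
    n := List.replicate (N + 4 * M + M) Sy.b1
    u := List.replicate M Sy.b1 ++
      (List.replicate (4 * (M + 1)) Sy.b1 ++ List.replicate (k + L.length) Sy.b1)}
  refine (e1.seq (e2.seq (e3.seq (e4.seq (e5.seq (e6.seq e7)))))).conv ?_ ?_
  · have a1 : Sy.b1 :: (List.replicate M Sy.b1 ++
        (List.replicate (4 * (M + 1)) Sy.b1 ++ List.replicate (k + L.length) Sy.b1))
        = List.replicate (k + 4 * (M + 1) + M + 1 + L.length) Sy.b1 := by
      rw [List.replicate_append_replicate, List.replicate_append_replicate,
        ← List.replicate_succ]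
      congr 1
      ring
    have a2 : N + 4 * M + M = N + 5 * M := by ring
    show {cfg M [] p z [] [] N c L k with
      p := (encX (.var (nl .g))).reverse ++ Sy.and :: ((bundleStr Sy.and (N + 4 * M) M).reverse ++
        ((preT M N [[(LN.c, true), (LN.s c, true), (LN.a0, false)]]).reverse ++ p))
      n := List.replicate (N + 4 * M + M) Sy.b1
      u := Sy.b1 :: (List.replicate M Sy.b1 ++
        (List.replicate (4 * (M + 1)) Sy.b1 ++ List.replicate (k + L.length) Sy.b1))} = _
    rw [a1, a2]
    rfl
  · unfold cB
    omega

/-- Second part of the final stage. -/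
def finB : Prog :=
  .seq (move .Z .T) (.seq (move .T .P) (.seq (.push .P .or) (.seq (emName sc.1 sc.2 .P)
    (.seq (emName sa0.1 sa0.2 .P) (.seq (.push .U .b1) (.push .P .sep))))))

theorem ru_finB (M : ℕ) (p z : List Sy) (N c : ℕ) (L : List ℕ) (k : ℕ) :
    Ru finB (cfg M [] p z [] [] N c L k)
      (cfg M [] (.sep :: ((encX (.var (nl .a0))).reverse ++ ((encX (.var (nl .c))).reverse ++
        .or :: (z ++ p)))) [] [] [] N c L (k + 1)) (4 * z.length + 30) := by
  have e1 : Ru (move .Z .T) (cfg M [] p z [] [] N c L k)
      {cfg M [] p [] [] [] N c L k with t := z.reverse} (2 * z.length + 1) := by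
    refine (ru_move (k := .Z) (k' := .T) (by decide) _).conv ?_ le_rfl
    simp [St.put, St.fn, cfg]
  have e2 : Ru (move .T .P) {cfg M [] p [] [] [] N c L k with t := z.reverse}
      (cfg M [] (z ++ p) [] [] [] N c L k) (2 * z.length + 1) := by
    refine (ru_move (k := .T) (k' := .P) (by decide) _).conv ?_ (by simp [St.fn])
    simp [St.put, St.fn, cfg]
  have e3 : Ru (.push .P .or) (cfg M [] (z ++ p) [] [] [] N c L k)
      (cfg M [] (.or :: (z ++ p)) [] [] [] N c L k) 1 := Ru.push .P .or _
  have e4 := ru_emDen (G := 0) (den_c 0 (cfg M [] (.or :: (z ++ p)) [] [] [] N c L k)) .P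
    (Or.inl rfl) rfl
  have e5 := ru_emDen (G := 0) (den_a0 0 (cfg M [] ((encX (.var (nl .c))).reverse ++
    .or :: (z ++ p)) [] [] [] N c L k)) .P (Or.inl rfl) rfl
  have e6 : Ru (.push .U .b1) (cfg M [] ((encX (.var (nl .a0))).reverse ++
      ((encX (.var (nl .c))).reverse ++ .or :: (z ++ p))) [] [] [] N c L k)
      (cfg M [] ((encX (.var (nl .a0))).reverse ++
      ((encX (.var (nl .c))).reverse ++ .or :: (z ++ p))) [] [] [] N c L (k + 1)) 1 := by
    refine (Ru.push .U .b1 _).conv ?_ le_rfl
    have : k + 1 + L.length = (k + L.length) + 1 := by ring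
    simp [St.put, St.fn, cfg, this, List.replicate_succ]
  have e7 := Ru.push .P .sep (cfg M [] ((encX (.var (nl .a0))).reverse ++
      ((encX (.var (nl .c))).reverse ++ .or :: (z ++ p))) [] [] [] N c L (k + 1))
  exact (e1.seq (e2.seq (e3.seq (e4.seq (e5.seq (e6.seq e7)))))).conv rfl (by omega)

/-- Third part of the final stage. -/
def finC : Prog :=
  .seq halve (.seq (clear .M) (.seq (clear .N) (.seq (clear .C) (clear .E))))

theorem ru_finC (M : ℕ) (p : List Sy) (N c : ℕ) (L : List ℕ) (k : ℕ) :
    Ru finC (cfg M [] p [] [] [] N c L k)
      {p := (encNat (k + L.length)).reverse ++ p}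
      (24 * (k + L.length) + 2 * M + 2 * N + 2 * c + 2 * (encL L).length + 5) := by
  have e1 := ru_halve (k + L.length) (cfg M [] p [] [] [] N c L k) rfl rfl rfl
  have e2 := ru_clear .M {cfg M [] p [] [] [] N c L k with
    u := []
    p := (encNat (k + L.length)).reverse ++ p}
  have e3 := ru_clear .N {cfg M [] p [] [] [] N c L k with
    u := []
    p := (encNat (k + L.length)).reverse ++ p
    m := []}
  have e4 := ru_clear .C {cfg M [] p [] [] [] N c L k with
    u := []
    p := (encNat (k + L.length)).reverse ++ p
    m := []
    n := []}
  have e5 := ru_clear .E {cfg M [] p [] [] [] N c L k with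
    u := []
    p := (encNat (k + L.length)).reverse ++ p
    m := []
    n := []
    c := []}
  refine (e1.seq (e2.seq (e3.seq (e4.seq e5)))).conv ?_ ?_
  · simp [St.put, cfg]
  · simp only [St.fn, cfg, List.length_replicate]
    omega

end Pool.Agent.Helper64.MEE
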