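import Pool.Agent.Helper64.MEE.Gadget

/-!
The terms attached to a Boolean expression over existential variables `X n` and universal
variables `Y n`: small covers correspond to `∃ X ∀ Y`.
-/

set_option linter.unusedSectionVars false
set_option linter.unusedSimpArgs false

namespace Pool.Agent.Helper64.MEE

/-- Light variables. -/
inductive LN : Type
  | g | c | a0
  | a (n : ℕ) | b (n : ℕ) | y (n : ℕ) | s (p : ℕ)
  deriving DecidableEq

open LN

/-- Number of nodes. -/
def nodes {α : Type} : BExpr α → ℕ
  | .var _ => 1
  | .neg e => nodes e + 1
  | .and e f => nodes e + nodes f + 1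
  | .or e f => nodes e + nodes f + 1

/-- Terms of an existential leaf at node `q`. -/
def leafX (n q : ℕ) : List (List (LN × Bool)) :=
  [[(c, true), (a n, false), (b n, false)],
   [(c, false), (a n, true), (b n, false)],
   [(c, false), (a n, false), (b n, true)],
   [(c, true), (s q, true), (a n, true)],
   [(c, true), (s q, false), (b n, true)]]

/-- Terms of a universal leaf at node `q`. -/
def leafY (n q : ℕ) : List (List (LN × Bool)) :=
  [[(c, true), (s q, true), (y n, false)],
   [(c, true), (s q, false), (y n, true)]]

/-- Terms of a negation at node `q` with child `r`. -/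
def nodeNeg (q r : ℕ) : List (List (LN × Bool)) :=
  [[(c, true), (s q, true), (s r, true)],
   [(c, true), (s q, false), (s r, false)]]

/-- Terms of a conjunction at node `q` with children `r`, `r'`. -/
def nodeAnd (q r r' : ℕ) : List (List (LN × Bool)) :=
  [[(c, true), (s q, true), (s r, false)],
   [(c, true), (s q, true), (s r', false)],
   [(c, true), (s q, false), (s r, true), (s r', true)]]

/-- Terms of a disjunction at node `q` with children `r`, `r'`. -/
def nodeOr (q r r' : ℕ) : List (List (LN × Bool)) :=
  [[(c, true), (s q, false), (s r, true)],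
   [(c, true), (s q, false), (s r', true)],
   [(c, true), (s q, true), (s r, false), (s r', false)]]

/-- All the terms of the nodes of an expression; the nodes get the numbers `p + 1, ...`, and the
root gets the last one. The right subexpression comes first. -/
def tms : BExpr (ℕ ⊕ ℕ) → ℕ → List (List (LN × Bool))
  | .var (.inl n), p => leafX n (p + 1)
  | .var (.inr n), p => leafY n (p + 1)
  | .neg e, p => tms e p ++ nodeNeg (p + nodes e + 1) (p + nodes e)
  | .and e f, p => tms f p ++ tms e (p + nodes f) ++
      nodeAnd (p + nodes f + nodes e + 1) (p + nodes f + nodes e) (p + nodes f)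
  | .or e f, p => tms f p ++ tms e (p + nodes f) ++
      nodeOr (p + nodes f + nodes e + 1) (p + nodes f + nodes e) (p + nodes f)

/-- The existential variables occurring in an expression, from right to left. -/
def exs : BExpr (ℕ ⊕ ℕ) → List ℕ
  | .var (.inl n) => [n]
  | .var (.inr _) => []
  | .neg e => exs e
  | .and e f => exs f ++ exs e
  | .or e f => exs f ++ exs e

/-- All terms. -/
def allT (φ : BExpr (ℕ ⊕ ℕ)) : List (List (LN × Bool)) :=
  tms φ 0 ++ [[(c, true), (s (nodes φ), true), (a0, false)]]

/-- The candidates (all but `a0`). -/
def cand (φ : BExpr (ℕ ⊕ ℕ)) : List LN := (exs φ).flatMap (fun n => [a n, b n]) ++ [c]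

theorem tms_spec (φ : BExpr (ℕ ⊕ ℕ)) (p : ℕ) : ∀ T ∈ tms φ p,
    (∃ n q, n ∈ exs φ ∧ T ∈ leafX n q) ∨ (∃ n q, T ∈ leafY n q) ∨
    (∃ q r, r < q ∧ T ∈ nodeNeg q r) ∨
    (∃ q r r', r' < r ∧ r < q ∧ T ∈ nodeAnd q r r') ∨
    (∃ q r r', r' < r ∧ r < q ∧ T ∈ nodeOr q r r') := by
  have hpos : ∀ e : BExpr (ℕ ⊕ ℕ), 0 < nodes e := by
    intro e; cases e <;> simp [nodes]
  induction φ generalizing p with
  | var x =>
    intro T hT
    cases x with
    | inl n => exact Or.inl ⟨n, p + 1, by simp [exs], hT⟩
    | inr n => exact Or.inr (Or.inl ⟨n, p + 1, hT⟩)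
  | neg e ih =>
    intro T hT
    rcases List.mem_append.mp hT with hT | hT
    · rcases ih p T hT with ⟨n, q, hn, h⟩ | h
      · exact Or.inl ⟨n, q, by simpa [exs] using hn, h⟩
      · exact Or.inr h
    · exact Or.inr (Or.inr (Or.inl ⟨_, _, by omega, hT⟩))
  | and e f ihe ihf =>
    intro T hT
    have := hpos e
    rcases List.mem_append.mp hT with hT | hT
    · rcases List.mem_append.mp hT with hT | hT
      · rcases ihf _ T hT with ⟨n, q, hn, h⟩ | h
        · exact Or.inl ⟨n, q, by simp [exs, hn], h⟩
        · exact Or.inr h
      · rcases ihe _ T hT with ⟨n, q, hn, h⟩ | h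
        · exact Or.inl ⟨n, q, by simp [exs, hn], h⟩
        · exact Or.inr h
    · exact Or.inr (Or.inr (Or.inr (Or.inl ⟨_, _, _, by omega, by omega, hT⟩)))
  | or e f ihe ihf =>
    intro T hT
    have := hpos e
    rcases List.mem_append.mp hT with hT | hT
    · rcases List.mem_append.mp hT with hT | hT
      · rcases ihf _ T hT with ⟨n, q, hn, h⟩ | h
        · exact Or.inl ⟨n, q, by simp [exs, hn], h⟩
        · exact Or.inr h
      · rcases ihe _ T hT with ⟨n, q, hn, h⟩ | h
        · exact Or.inl ⟨n, q, by simp [exs, hn], h⟩
        · exact Or.inr h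
    · exact Or.inr (Or.inr (Or.inr (Or.inr ⟨_, _, _, by omega, by omega, hT⟩)))

/-- A summary of the shape of each term. -/
theorem allT_spec (φ : BExpr (ℕ ⊕ ℕ)) : ∀ T ∈ allT φ,
    (T.map Prod.fst).Nodup ∧ g ∉ T.map Prod.fst ∧ 2 ≤ T.length ∧ (a0, true) ∉ T ∧
    ((c, true) ∈ T ∨ ∃ n ∈ exs φ, T = [(c, false), (a n, true), (b n, false)] ∨
      T = [(c, false), (a n, false), (b n, true)]) := by
  intro T hT
  rcases List.mem_append.mp hT with hT | hT
  · rcases tms_spec φ 0 T hT with ⟨n, q, hn, h⟩ | ⟨n, q, h⟩ | ⟨q, r, hr, h⟩ |
      ⟨q, r, r', h1, h2, h⟩ | ⟨q, r, r', h1, h2, h⟩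
    · simp only [leafX, List.mem_cons, List.not_mem_nil, or_false] at h
      rcases h with rfl | rfl | rfl | rfl | rfl
      · simp
      · refine ⟨by simp, by simp, by simp, by simp, Or.inr ⟨n, hn, Or.inl rfl⟩⟩
      · refine ⟨by simp, by simp, by simp, by simp, Or.inr ⟨n, hn, Or.inr rfl⟩⟩
      · simp
      · simp
    · simp only [leafY, List.mem_cons, List.not_mem_nil, or_false] at h
      rcases h with rfl | rfl <;> simp
    · simp only [nodeNeg, List.mem_cons, List.not_mem_nil, or_false] at h
      rcases h with rfl | rfl <;> simp <;> omega
    · simp only [nodeAnd, List.mem_cons, List.not_mem_nil, or_false] at h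
      rcases h with rfl | rfl | rfl <;> simp <;> omega
    · simp only [nodeOr, List.mem_cons, List.not_mem_nil, or_false] at h
      rcases h with rfl | rfl | rfl <;> simp <;> omega
  · rw [List.mem_singleton] at hT
    subst hT
    simp

theorem allT_ok (φ : BExpr (ℕ ⊕ ℕ)) : TermsOK g (a0 :: cand φ).toFinset (allT φ) where
  nodup T hT := (allT_spec φ T hT).1
  noG T hT := (allT_spec φ T hT).2.1
  two T hT := (allT_spec φ T hT).2.2.1
  gJ := by simp [cand]

theorem mem_cand {φ : BExpr (ℕ ⊕ ℕ)} {x : LN} : x ∈ (a0 :: cand φ).toFinset ↔
    x = a0 ∨ x = c ∨ (∃ n ∈ exs φ, x = a n ∨ x = b n) := by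
  simp only [cand, List.mem_toFinset, List.mem_cons, List.mem_append, List.mem_flatMap,
    List.not_mem_nil, or_false]
  constructor <;> (rintro (h | h | h) <;> simp [h])

theorem not_DT_of_pairs {φ : BExpr (ℕ ⊕ ℕ)} {v : LN → Bool} (hc : v c = false)
    (hp : ∀ n, v (a n) = v (b n)) : ¬ DT (allT φ) v := by
  rintro ⟨T, hT, hall⟩
  rcases (allT_spec φ T hT).2.2.2.2 with h | ⟨n, _, rfl | rfl⟩
  · have := hall _ h
    simp [hc] at this
  · have h1 := hall (a n, true) (by simp)
    have h2 := hall (b n, false) (by simp)
    simp only at h1 h2
    rw [hp n, h2] at h1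
    exact Bool.noConfusion h1
  · have h1 := hall (a n, false) (by simp)
    have h2 := hall (b n, true) (by simp)
    simp only at h1 h2
    rw [hp n, h2] at h1
    exact Bool.noConfusion h1

/-- Consistent values for the nodes exist. -/
theorem exists_nodeVal (φ : BExpr (ℕ ⊕ ℕ)) (p : ℕ) (X Y : ℕ → Bool) :
    ∃ σ : ℕ → Bool, ∀ v : LN → Bool, v c = true → (∀ n, v (a n) = !X n) → (∀ n, v (b n) = X n) →
      (∀ n, v (y n) = Y n) → (∀ q, p < q → q ≤ p + nodes φ → v (s q) = σ q) →
      ¬ DT (tms φ p) v ∧ v (s (p + nodes φ)) = φ.eval (Sum.elim X Y) := by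
  have hpos : ∀ e : BExpr (ℕ ⊕ ℕ), 0 < nodes e := by
    intro e; cases e <;> simp [nodes]
  induction φ generalizing p with
  | var x =>
    cases x with
    | inl n =>
      refine ⟨fun _ => X n, fun v hc ha hb hy hs => ?_⟩
      have h1 := hs (p + 1) (by omega) (by simp [nodes])
      refine ⟨?_, by simpa [nodes, BExpr.eval] using h1⟩
      rintro ⟨T, hT, hall⟩
      simp only [tms, leafX, List.mem_cons, List.not_mem_nil, or_false] at hT
      rcases hT with rfl | rfl | rfl | rfl | rfl <;> simp [hc, ha, hb, h1] at hall
    | inr n =>
      refine ⟨fun _ => Y n, fun v hc ha hb hy hs => ?_⟩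
      have h1 := hs (p + 1) (by omega) (by simp [nodes])
      refine ⟨?_, by simpa [nodes, BExpr.eval] using h1⟩
      rintro ⟨T, hT, hall⟩
      simp only [tms, leafY, List.mem_cons, List.not_mem_nil, or_false] at hT
      rcases hT with rfl | rfl <;> simp [hc, hy, h1] at hall
  | neg e ih =>
    obtain ⟨σ, hσ⟩ := ih p
    refine ⟨fun q => if q = p + nodes e + 1 then !(e.eval (Sum.elim X Y)) else σ q,
      fun v hc ha hb hy hs => ?_⟩
    obtain ⟨h1, h2⟩ := hσ v hc ha hb hy (fun q hq1 hq2 =>
      (hs q hq1 (by simp only [nodes]; omega)).trans (if_neg (by omega)))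
    have h3 := (hs (p + nodes e + 1) (by omega) (by simp only [nodes]; omega)).trans
      (if_pos rfl)
    refine ⟨?_, by simpa [nodes, BExpr.eval, add_assoc] using h3⟩
    rintro ⟨T, hT, hall⟩
    rcases List.mem_append.mp hT with hT | hT
    · exact h1 ⟨T, hT, hall⟩
    · simp only [nodeNeg, List.mem_cons, List.not_mem_nil, or_false] at hT
      rcases hT with rfl | rfl <;> simp [hc, h2, h3] at hall
  | and e f ihe ihf =>
    obtain ⟨σe, hσe⟩ := ihe (p + nodes f)
    obtain ⟨σf, hσf⟩ := ihf p
    refine ⟨fun q => if q ≤ p + nodes f then σf q else if q ≤ p + nodes f + nodes e then σe q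
      else (BExpr.and e f).eval (Sum.elim X Y), fun v hc ha hb hy hs => ?_⟩
    obtain ⟨e1, e2⟩ := hσe v hc ha hb hy (fun q hq1 hq2 =>
      (hs q (by omega) (by simp only [nodes]; omega)).trans
        ((if_neg (by omega)).trans (if_pos (by omega))))
    obtain ⟨f1, f2⟩ := hσf v hc ha hb hy (fun q hq1 hq2 =>
      (hs q (by omega) (by simp only [nodes]; omega)).trans (if_pos (by omega)))
    have h3 := (hs (p + nodes f + nodes e + 1) (by omega) (by simp only [nodes]; omega)).trans
      ((if_neg (by omega)).trans (if_neg (by omega)))
    refine ⟨?_, by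
      have : p + nodes (BExpr.and e f) = p + nodes f + nodes e + 1 := by
        simp only [nodes]; omega
      rw [this]; exact h3⟩
    rintro ⟨T, hT, hall⟩
    rcases List.mem_append.mp hT with hT | hT
    · rcases List.mem_append.mp hT with hT | hT
      · exact f1 ⟨T, hT, hall⟩
      · exact e1 ⟨T, hT, hall⟩
    · simp only [nodeAnd, List.mem_cons, List.not_mem_nil, or_false] at hT
      rcases hT with rfl | rfl | rfl <;>
        (simp only [List.mem_cons, List.not_mem_nil, or_false, forall_eq_or_imp, forall_eq,
            hc, e2, f2, h3, BExpr.eval] at hall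
         revert hall
         cases BExpr.eval (Sum.elim X Y) e <;> cases BExpr.eval (Sum.elim X Y) f <;> simp)
  | or e f ihe ihf =>
    obtain ⟨σe, hσe⟩ := ihe (p + nodes f)
    obtain ⟨σf, hσf⟩ := ihf p
    refine ⟨fun q => if q ≤ p + nodes f then σf q else if q ≤ p + nodes f + nodes e then σe q
      else (BExpr.or e f).eval (Sum.elim X Y), fun v hc ha hb hy hs => ?_⟩
    obtain ⟨e1, e2⟩ := hσe v hc ha hb hy (fun q hq1 hq2 =>
      (hs q (by omega) (by simp only [nodes]; omega)).trans
        ((if_neg (by omega)).trans (if_pos (by omega))))
    obtain ⟨f1, f2⟩ := hσf v hc ha hb hy (fun q hq1 hq2 =>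
      (hs q (by omega) (by simp only [nodes]; omega)).trans (if_pos (by omega)))
    have h3 := (hs (p + nodes f + nodes e + 1) (by omega) (by simp only [nodes]; omega)).trans
      ((if_neg (by omega)).trans (if_neg (by omega)))
    refine ⟨?_, by
      have : p + nodes (BExpr.or e f) = p + nodes f + nodes e + 1 := by
        simp only [nodes]; omega
      rw [this]; exact h3⟩
    rintro ⟨T, hT, hall⟩
    rcases List.mem_append.mp hT with hT | hT
    · rcases List.mem_append.mp hT with hT | hT
      · exact f1 ⟨T, hT, hall⟩
      · exact e1 ⟨T, hT, hall⟩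
    · simp only [nodeOr, List.mem_cons, List.not_mem_nil, or_false] at hT
      rcases hT with rfl | rfl | rfl <;>
        (simp only [List.mem_cons, List.not_mem_nil, or_false, forall_eq_or_imp, forall_eq,
            hc, e2, f2, h3, BExpr.eval] at hall
         revert hall
         cases BExpr.eval (Sum.elim X Y) e <;> cases BExpr.eval (Sum.elim X Y) f <;> simp)

/-- The point given by `X`, `Y`, consistent node values, and a value of `a0`. -/
def point (σ : ℕ → Bool) (X Y : ℕ → Bool) (z : Bool) : LN → Bool
  | g => false
  | c => true
  | a0 => z
  | a n => !X n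
  | b n => X n
  | y n => Y n
  | s q => σ q

theorem allT_good (φ : BExpr (ℕ ⊕ ℕ)) : (mkSys (allT_ok φ)).Good where
  c1 := by
    intro p hp
    have hlt : p.2.1 < ((allT φ).get p.1).length := by
      have h1 := p.2.2
      by_contra hcon
      apply hp
      obtain ⟨j, i⟩ := p
      simp only [mkSys]
      congr 1
      apply Fin.ext
      simp only [Fin.val_last]
      simp only at hcon h1
      omega
    have hmem : (mkSys (allT_ok φ)).lit p ∈ (allT φ).get p.1 := getD_mem hlt
    have hTmem := List.get_mem (allT φ) p.1
    rcases hl : (mkSys (allT_ok φ)).lit p with ⟨x, sg⟩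
    rw [hl] at hmem
    by_cases hx : x = c ∧ sg = false
    · obtain ⟨rfl, rfl⟩ := hx
      obtain ⟨σ, hσ⟩ := exists_nodeVal φ 0 (fun _ => true) (fun _ => true)
      obtain ⟨h1, h2⟩ := hσ (point σ (fun _ => true) (fun _ => true) true) rfl (fun _ => rfl)
        (fun _ => rfl) (fun _ => rfl) (fun _ _ _ => rfl)
      refine ⟨point σ (fun _ => true) (fun _ => true) true, ?_, ?_, a0, by simp [mkSys], rfl⟩
      · rw [mkSys_D]
        rintro ⟨T, hT, hall⟩
        rcases List.mem_append.mp hT with hT | hT
        · exact h1 ⟨T, hT, hall⟩
        · rw [List.mem_singleton] at hT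
          subst hT
          have := hall (a0, false) (by simp)
          simp [point] at this
      · unfold Sys.tr
        rw [hl]
        simp [point]
    · let v : LN → Bool := fun z => if z = c then false else if z = a0 then true else !sg
      refine ⟨v, ?_, ?_, a0, by simp [mkSys], by simp [v]⟩
      · rw [mkSys_D]
        exact not_DT_of_pairs (by simp [v]) (fun n => by simp [v])
      · unfold Sys.tr
        rw [hl]
        simp only [v]
        split_ifs with h1 h2
        · intro h3
          exact hx ⟨h1, h3.symm⟩
        · subst h2
          intro h3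
          rw [← h3] at hmem
          exact (allT_spec φ _ hTmem).2.2.2.1 hmem
        · simp
  c3 := by
    intro v hv
    rw [mkSys_D]
    rintro ⟨T, hT, hall⟩
    have hJ : ∀ x ∈ (a0 :: cand φ).toFinset, v x = false := hv
    rcases (allT_spec φ T hT).2.2.2.2 with h | ⟨n, hn, rfl | rfl⟩
    · have h1 := hall _ h
      rw [hJ c (mem_cand.mpr (Or.inr (Or.inl rfl)))] at h1
      exact Bool.noConfusion h1
    · have h1 := hall (a n, true) (by simp)
      rw [hJ (a n) (mem_cand.mpr (Or.inr (Or.inr ⟨n, hn, Or.inl rfl⟩)))] at h1
      exact Bool.noConfusion h1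
    · have h1 := hall (b n, true) (by simp)
      rw [hJ (b n) (mem_cand.mpr (Or.inr (Or.inr ⟨n, hn, Or.inr rfl⟩)))] at h1
      exact Bool.noConfusion h1
  c4 := by
    refine ⟨fun z => decide (z = a0), ?_, a0, by simp [mkSys], by simp⟩
    rw [mkSys_D]
    exact not_DT_of_pairs (by simp) (fun n => by simp)

/-- Small covers exist if and only if `∃ X ∀ Y φ`. -/
theorem cover_iff_B2 (φ : BExpr (ℕ ⊕ ℕ)) :
    (∃ I ⊆ (a0 :: cand φ).toFinset, I.card ≤ (exs φ).toFinset.card + 1 ∧
      ∀ v : LN → Bool, ¬ DT (allT φ) v → (∃ x ∈ (a0 :: cand φ).toFinset, v x = true) →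
        ∃ x ∈ I, v x = true) ↔ B2 φ := by
  constructor
  · rintro ⟨I, hIJ, hcard, hI⟩
    -- `a0` is in `I`
    have h0 : a0 ∈ I := by
      obtain ⟨x, hx, hv⟩ := hI (fun z => decide (z = a0))
        (not_DT_of_pairs (by simp) (fun n => by simp)) ⟨a0, by simp, by simp⟩
      simp only [decide_eq_true_eq] at hv
      rwa [hv] at hx
    have hpair : ∀ n ∈ exs φ, a n ∈ I ∨ b n ∈ I := by
      intro n hn
      obtain ⟨x, hx, hv⟩ := hI (fun z => decide (z = a n ∨ z = b n))
        (not_DT_of_pairs (by simp) (fun m => by simp))
        ⟨a n, mem_cand.mpr (Or.inr (Or.inr ⟨n, hn, Or.inl rfl⟩)), by simp⟩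
      simp only [decide_eq_true_eq] at hv
      rcases hv with rfl | rfl
      · exact Or.inl hx
      · exact Or.inr hx
    let X : ℕ → Bool := fun n => decide (a n ∈ I)
    let f : ℕ → LN := fun n => if a n ∈ I then a n else b n
    have hfI : ∀ n ∈ exs φ, f n ∈ I := by
      intro n hn
      simp only [f]
      split_ifs with h
      · exact h
      · exact (hpair n hn).resolve_left h
    have hfinj : Function.Injective f := by
      intro n m h
      simp only [f] at h
      split_ifs at h <;> simpa using h
    have hI' : insert a0 ((exs φ).toFinset.image f) = I := by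
      apply Finset.eq_of_subset_of_card_le
      · intro x hx
        rcases Finset.mem_insert.mp hx with rfl | hx
        · exact h0
        · obtain ⟨n, hn, rfl⟩ := Finset.mem_image.mp hx
          exact hfI n (List.mem_toFinset.mp hn)
      · rw [Finset.card_insert_of_notMem, Finset.card_image_of_injective _ hfinj]
        · exact hcard
        · intro hx
          obtain ⟨n, _, hn⟩ := Finset.mem_image.mp hx
          simp only [f] at hn
          split_ifs at hn
    refine ⟨X, fun Y => ?_⟩
    obtain ⟨σ, hσ⟩ := exists_nodeVal φ 0 X Y
    obtain ⟨h1, h2⟩ := hσ (point σ X Y false) rfl (fun _ => rfl)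
      (fun _ => rfl) (fun _ => rfl) (fun _ _ _ => rfl)
    rw [zero_add] at h2
    rw [← h2]
    by_contra hcon
    rw [Bool.not_eq_true] at hcon
    obtain ⟨x, hx, hv⟩ := hI (point σ X Y false) (by
      rintro ⟨T, hT, hall⟩
      rcases List.mem_append.mp hT with hT | hT
      · exact h1 ⟨T, hT, hall⟩
      · rw [List.mem_singleton] at hT
        subst hT
        have := hall (s (nodes φ), true) (by simp)
        rw [hcon] at this
        exact Bool.noConfusion this) ⟨c, mem_cand.mpr (Or.inr (Or.inl rfl)), rfl⟩
    rw [← hI'] at hx
    rcases Finset.mem_insert.mp hx with rfl | hx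
    · simp [point] at hv
    · obtain ⟨n, _, rfl⟩ := Finset.mem_image.mp hx
      simp only [f] at hv
      split_ifs at hv with h
      · simp [point, X, h] at hv
      · simp [point, X, h] at hv
  · rintro ⟨X, hX⟩
    let f : ℕ → LN := fun n => if X n then a n else b n
    refine ⟨insert a0 ((exs φ).toFinset.image f), ?_, ?_, ?_⟩
    · intro x hx
      rcases Finset.mem_insert.mp hx with rfl | hx
      · simp
      · obtain ⟨n, hn, rfl⟩ := Finset.mem_image.mp hx
        rw [mem_cand]
        refine Or.inr (Or.inr ⟨n, List.mem_toFinset.mp hn, ?_⟩)
        simp only [f]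
        split_ifs
        · exact Or.inl rfl
        · exact Or.inr rfl
    · refine (Finset.card_insert_le _ _).trans ?_
      exact Nat.add_le_add_right Finset.card_image_le 1
    · intro v hD hB
      by_contra hcon
      push Not at hcon
      have hv0 : v a0 = false := by
        have := hcon a0 (Finset.mem_insert_self _ _)
        simpa using this
      have hvf : ∀ n ∈ exs φ, v (f n) = false := by
        intro n hn
        have := hcon (f n) (Finset.mem_insert_of_mem (Finset.mem_image_of_mem f
          (List.mem_toFinset.mpr hn)))
        simpa using this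
      have hnotboth : ∀ n ∈ exs φ, v (a n) = false ∨ v (b n) = false := by
        intro n hn
        have := hvf n hn
        simp only [f] at this
        split_ifs at this
        · exact Or.inl this
        · exact Or.inr this
      -- leaf terms of an occurring variable
      have hleaf : ∀ (e : BExpr (ℕ ⊕ ℕ)) (p n : ℕ), n ∈ exs e → ∃ q, ∀ T ∈ leafX n q, T ∈ tms e p := by
        intro e
        induction e with
        | var x =>
          intro p n hn
          cases x with
          | inl m =>
            simp only [exs, List.mem_singleton] at hn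
            subst hn
            exact ⟨p + 1, fun T hT => hT⟩
          | inr m => simp [exs] at hn
        | neg e ih =>
          intro p n hn
          obtain ⟨q, hq⟩ := ih p n hn
          exact ⟨q, fun T hT => List.mem_append_left _ (hq T hT)⟩
        | and e f ihe ihf =>
          intro p n hn
          simp only [exs, List.mem_append] at hn
          rcases hn with hn | hn
          · obtain ⟨q, hq⟩ := ihf p n hn
            exact ⟨q, fun T hT => List.mem_append_left _ (List.mem_append_left _ (hq T hT))⟩
          · obtain ⟨q, hq⟩ := ihe (p + nodes f) n hn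
            exact ⟨q, fun T hT => List.mem_append_left _ (List.mem_append_right _ (hq T hT))⟩
        | or e f ihe ihf =>
          intro p n hn
          simp only [exs, List.mem_append] at hn
          rcases hn with hn | hn
          · obtain ⟨q, hq⟩ := ihf p n hn
            exact ⟨q, fun T hT => List.mem_append_left _ (List.mem_append_left _ (hq T hT))⟩
          · obtain ⟨q, hq⟩ := ihe (p + nodes f) n hn
            exact ⟨q, fun T hT => List.mem_append_left _ (List.mem_append_right _ (hq T hT))⟩
      by_cases hc : v c = true
      · -- all pairs are exactly-one and complementary to the cover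
        have hpairs : ∀ n ∈ exs φ, v (a n) = !X n ∧ v (b n) = X n := by
          intro n hn
          obtain ⟨q, hq⟩ := hleaf φ 0 n hn
          have hT : [(c, true), (a n, false), (b n, false)] ∈ allT φ :=
            List.mem_append_left _ (hq _ (by simp [leafX]))
          have hnot : ¬ (v (a n) = false ∧ v (b n) = false) := by
            rintro ⟨h1, h2⟩
            exact hD ⟨_, hT, by simp [hc, h1, h2]⟩
          have h3 := hvf n hn
          simp only [f] at h3
          cases hXn : X n
          · rw [hXn] at h3
            simp only [Bool.false_eq_true, if_false] at h3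
            have : v (a n) = true := by
              by_contra h4
              rw [Bool.not_eq_true] at h4
              exact hnot ⟨h4, h3⟩
            exact ⟨by simp [this], h3⟩
          · rw [hXn] at h3
            simp only [if_true] at h3
            have : v (b n) = true := by
              by_contra h4
              rw [Bool.not_eq_true] at h4
              exact hnot ⟨h3, h4⟩
            exact ⟨by simp [h3], this⟩
        -- the nodes have the right values
        have hval : ∀ (e : BExpr (ℕ ⊕ ℕ)) (p : ℕ), (∀ n ∈ exs e, v (a n) = !X n ∧ v (b n) = X n) →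
            ¬ DT (tms e p) v →
            v (s (p + nodes e)) = e.eval (Sum.elim X (fun n => v (y n))) := by
          intro e
          induction e with
          | var x =>
            intro p hp hD'
            cases x with
            | inl n =>
              obtain ⟨h1, h2⟩ := hp n (by simp [exs])
              simp only [nodes, BExpr.eval, Sum.elim_inl]
              by_contra hne
              apply hD'
              cases hXn : X n
              · rw [hXn] at hne h1
                simp only [Bool.not_eq_false] at hne
                exact ⟨[(c, true), (s (p + 1), true), (a n, true)], by simp [tms, leafX],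
                  by simp [hc, hne, h1]⟩
              · rw [hXn] at hne h2
                simp only [Bool.not_eq_true] at hne
                exact ⟨[(c, true), (s (p + 1), false), (b n, true)], by simp [tms, leafX],
                  by simp [hc, hne, h2]⟩
            | inr n =>
              simp only [nodes, BExpr.eval, Sum.elim_inr]
              by_contra hne
              apply hD'
              cases hYn : v (y n)
              · rw [hYn] at hne
                simp only [Bool.not_eq_false] at hne
                exact ⟨[(c, true), (s (p + 1), true), (y n, false)], by simp [tms, leafY],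
                  by simp [hc, hne, hYn]⟩
              · rw [hYn] at hne
                simp only [Bool.not_eq_true] at hne
                exact ⟨[(c, true), (s (p + 1), false), (y n, true)], by simp [tms, leafY],
                  by simp [hc, hne, hYn]⟩
          | neg e ih =>
            intro p hp hD'
            have h1 := ih p (by simpa [exs] using hp) (fun ⟨T, hT, h⟩ =>
              hD' ⟨T, List.mem_append_left _ hT, h⟩)
            simp only [nodes, BExpr.eval, ← h1, ← add_assoc]
            by_contra hne
            apply hD'
            cases h2 : v (s (p + nodes e))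
            · rw [h2] at hne
              simp only [Bool.not_false, Bool.not_eq_true] at hne
              exact ⟨[(c, true), (s (p + nodes e + 1), false), (s (p + nodes e), false)],
                by simp [tms, nodeNeg], by simp [hc, hne, h2]⟩
            · rw [h2] at hne
              simp only [Bool.not_true, Bool.not_eq_false] at hne
              exact ⟨[(c, true), (s (p + nodes e + 1), true), (s (p + nodes e), true)],
                by simp [tms, nodeNeg], by simp [hc, hne, h2]⟩
          | and e f ihe ihf =>
            intro p hp hD'
            simp only [exs, List.mem_append] at hp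
            have h1 := ihe (p + nodes f) (fun n hn => hp n (Or.inr hn)) (fun ⟨T, hT, h⟩ =>
              hD' ⟨T, List.mem_append_left _ (List.mem_append_right _ hT), h⟩)
            have h2 := ihf p (fun n hn => hp n (Or.inl hn)) (fun ⟨T, hT, h⟩ =>
              hD' ⟨T, List.mem_append_left _ (List.mem_append_left _ hT), h⟩)
            have e1 : p + nodes (BExpr.and e f) = p + nodes f + nodes e + 1 := by
              simp only [nodes]; omega
            rw [e1]
            simp only [BExpr.eval, ← h1, ← h2]
            by_contra hne
            apply hD'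
            cases h3 : v (s (p + nodes f + nodes e))
            · rw [h3] at hne
              simp only [Bool.false_and, Bool.not_eq_false] at hne
              exact ⟨[(c, true), (s (p + nodes f + nodes e + 1), true),
                (s (p + nodes f + nodes e), false)], by simp [tms, nodeAnd], by simp [hc, hne, h3]⟩
            · cases h4 : v (s (p + nodes f))
              · rw [h3, h4] at hne
                simp only [Bool.and_false, Bool.not_eq_false] at hne
                exact ⟨[(c, true), (s (p + nodes f + nodes e + 1), true),
                  (s (p + nodes f), false)], by simp [tms, nodeAnd], by simp [hc, hne, h4]⟩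
              · rw [h3, h4] at hne
                simp only [Bool.and_true, Bool.not_eq_true] at hne
                exact ⟨[(c, true), (s (p + nodes f + nodes e + 1), false),
                  (s (p + nodes f + nodes e), true), (s (p + nodes f), true)],
                  by simp [tms, nodeAnd], by simp [hc, hne, h3, h4]⟩
          | or e f ihe ihf =>
            intro p hp hD'
            simp only [exs, List.mem_append] at hp
            have h1 := ihe (p + nodes f) (fun n hn => hp n (Or.inr hn)) (fun ⟨T, hT, h⟩ =>
              hD' ⟨T, List.mem_append_left _ (List.mem_append_right _ hT), h⟩)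
            have h2 := ihf p (fun n hn => hp n (Or.inl hn)) (fun ⟨T, hT, h⟩ =>
              hD' ⟨T, List.mem_append_left _ (List.mem_append_left _ hT), h⟩)
            have e1 : p + nodes (BExpr.or e f) = p + nodes f + nodes e + 1 := by
              simp only [nodes]; omega
            rw [e1]
            simp only [BExpr.eval, ← h1, ← h2]
            by_contra hne
            apply hD'
            cases h3 : v (s (p + nodes f + nodes e))
            · cases h4 : v (s (p + nodes f))
              · rw [h3, h4] at hne
                simp only [Bool.or_false, Bool.not_eq_false] at hne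
                exact ⟨[(c, true), (s (p + nodes f + nodes e + 1), true),
                  (s (p + nodes f + nodes e), false), (s (p + nodes f), false)],
                  by simp [tms, nodeOr], by simp [hc, hne, h3, h4]⟩
              · rw [h3, h4] at hne
                simp only [Bool.or_true, Bool.not_eq_true] at hne
                exact ⟨[(c, true), (s (p + nodes f + nodes e + 1), false),
                  (s (p + nodes f), true)], by simp [tms, nodeOr], by simp [hc, hne, h4]⟩
            · rw [h3] at hne
              simp only [Bool.true_or, Bool.not_eq_true] at hne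
              exact ⟨[(c, true), (s (p + nodes f + nodes e + 1), false),
                (s (p + nodes f + nodes e), true)], by simp [tms, nodeOr], by simp [hc, hne, h3]⟩
        have h1 := hval φ 0 hpairs (fun ⟨T, hT, h⟩ => hD ⟨T, List.mem_append_left _ hT, h⟩)
        rw [hX, zero_add] at h1
        exact hD ⟨[(c, true), (s (nodes φ), true), (a0, false)],
          List.mem_append_right _ (by simp), by simp [hc, h1, hv0]⟩
      · rw [Bool.not_eq_true] at hc
        -- every pair is equal, so all are zero
        have hz : ∀ n ∈ exs φ, v (a n) = false ∧ v (b n) = false := by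
          intro n hn
          obtain ⟨q, hq⟩ := hleaf φ 0 n hn
          have h1 : [(c, false), (a n, true), (b n, false)] ∈ allT φ :=
            List.mem_append_left _ (hq _ (by simp [leafX]))
          have h2 : [(c, false), (a n, false), (b n, true)] ∈ allT φ :=
            List.mem_append_left _ (hq _ (by simp [leafX]))
          rcases hnotboth n hn with h3 | h3
          · refine ⟨h3, ?_⟩
            by_contra h4
            rw [Bool.not_eq_false] at h4
            exact hD ⟨_, h2, by simp [hc, h3, h4]⟩
          · refine ⟨?_, h3⟩
            by_contra h4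
            rw [Bool.not_eq_false] at h4
            exact hD ⟨_, h1, by simp [hc, h3, h4]⟩
        obtain ⟨x, hx, hvx⟩ := hB
        rcases mem_cand.mp hx with rfl | rfl | ⟨n, hn, rfl | rfl⟩
        · rw [hv0] at hvx; exact Bool.noConfusion hvx
        · rw [hc] at hvx; exact Bool.noConfusion hvx
        · rw [(hz n hn).1] at hvx; exact Bool.noConfusion hvx
        · rw [(hz n hn).2] at hvx; exact Bool.noConfusion hvx

end Pool.Agent.Helper64.MEE
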