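import Pool.Agent.Helper64.MEE.Lower

/-!
The gadget expression of a list of terms, its size and its value; the equivalence between small
equivalent expressions and small covers.
-/

set_option linter.unusedSectionVars false
set_option linter.unusedSimpArgs false

namespace Pool.Agent.Helper64.MEE

section Build

variable {L N : Type}

/-- A literal as an expression; `nl` gives the names of the light variables. -/
def litE (nl : L → N) (l : L × Bool) : BExpr N := if l.2 then .var (nl l.1) else .neg (.var (nl l.1))

/-- `x₁ ∨ (x₂ ∨ ... ∨ e)`. -/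
def orsE (xs : List N) (e : BExpr N) : BExpr N := xs.foldr (fun x r => .or (.var x) r) e

/-- `x₁ ∧ (x₂ ∧ ... ∧ e)`. -/
def andsE (xs : List N) (e : BExpr N) : BExpr N := xs.foldr (fun x r => .and (.var x) r) e

/-- The names `hn n, ..., hn (n + M - 1)`. -/
def names (hn : ℕ → N) (n M : ℕ) : List N := (List.range' n M).map hn

/-- A literal together with a bundle. -/
def blockE (nl : L → N) (hn : ℕ → N) (M n : ℕ) (l : L × Bool) : BExpr N :=
  orsE (names hn n M) (litE nl l)

/-- The blocks of a term; the literal `g` comes last. -/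
def termE (nl : L → N) (hn : ℕ → N) (M : ℕ) (g : L) : ℕ → List (L × Bool) → BExpr N
  | n, [] => blockE nl hn M n (g, true)
  | n, l :: T => .and (blockE nl hn M n l) (termE nl hn M g (n + M) T)

/-- The gadget expression. -/
def termsE (nl : L → N) (hn : ℕ → N) (M : ℕ) (g : L) (js : List L) (j : L) :
    ℕ → List (List (L × Bool)) → BExpr N
  | n, [] => andsE (names hn n M) (.and (.var (nl g)) (orsE (js.map nl) (.var (nl j))))
  | n, T :: Ts => .or (termE nl hn M g n T)
      (termsE nl hn M g js j (n + (T.length + 1) * M) Ts)

/-- Number of blocks in the first `j` terms. -/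
def off (Ts : List (List (L × Bool))) (j : ℕ) : ℕ := ((Ts.take j).map (fun T => T.length + 1)).sum

@[simp] theorem size_litE (nl : L → N) (l : L × Bool) : (litE nl l).size = 1 := by
  unfold litE; split_ifs <;> rfl

@[simp] theorem size_orsE (xs : List N) (e : BExpr N) : (orsE xs e).size = xs.length + e.size := by
  induction xs with
  | nil => simp [orsE]
  | cons x xs ih =>
    have : orsE (x :: xs) e = .or (.var x) (orsE xs e) := rfl
    rw [this, BExpr.size, ih, BExpr.size, List.length_cons]
    omega

@[simp] theorem size_andsE (xs : List N) (e : BExpr N) :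
    (andsE xs e).size = xs.length + e.size := by
  induction xs with
  | nil => simp [andsE]
  | cons x xs ih =>
    have : andsE (x :: xs) e = .and (.var x) (andsE xs e) := rfl
    rw [this, BExpr.size, ih, BExpr.size, List.length_cons]
    omega

@[simp] theorem length_names (hn : ℕ → N) (n M : ℕ) : (names hn n M).length = M := by
  simp [names]

theorem size_termE (nl : L → N) (hn : ℕ → N) (M : ℕ) (g : L) (n : ℕ) (T : List (L × Bool)) :
    (termE nl hn M g n T).size = (T.length + 1) * (M + 1) := by
  induction T generalizing n with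
  | nil => simp [termE, blockE]
  | cons l T ih =>
    simp only [termE, BExpr.size, ih, blockE, size_orsE, length_names, size_litE, List.length_cons]
    ring

theorem size_termsE (nl : L → N) (hn : ℕ → N) (M : ℕ) (g : L) (js : List L) (j : L) (n : ℕ)
    (Ts : List (List (L × Bool))) :
    (termsE nl hn M g js j n Ts).size
      = (off Ts Ts.length + 1) * M + (off Ts Ts.length + 1) + (js.length + 1) := by
  induction Ts generalizing n with
  | nil => simp [termsE, off, BExpr.size]; ring
  | cons T Ts ih =>
    simp only [termsE, BExpr.size, ih, size_termE, List.length_cons]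
    simp only [off, List.take_length, List.length_cons]
    have h1 : List.take (Ts.length + 1) (T :: Ts) = T :: Ts := by simp
    rw [h1]
    simp only [List.map_cons, List.sum_cons]
    ring

theorem eval_litE (nl : L → N) (v : N → Bool) (l : L × Bool) :
    (litE nl l).eval v = true ↔ v (nl l.1) = l.2 := by
  unfold litE
  cases h : l.2 <;> simp [BExpr.eval]

theorem eval_orsE (v : N → Bool) (xs : List N) (e : BExpr N) :
    (orsE xs e).eval v = true ↔ (∃ x ∈ xs, v x = true) ∨ e.eval v = true := by
  induction xs with
  | nil => simp [orsE]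
  | cons x xs ih =>
    have : orsE (x :: xs) e = .or (.var x) (orsE xs e) := rfl
    rw [this]
    simp only [BExpr.eval, Bool.or_eq_true, ih, List.mem_cons, exists_eq_or_imp]
    rw [or_assoc]

theorem eval_andsE (v : N → Bool) (xs : List N) (e : BExpr N) :
    (andsE xs e).eval v = true ↔ (∀ x ∈ xs, v x = true) ∧ e.eval v = true := by
  induction xs with
  | nil => simp [andsE]
  | cons x xs ih =>
    have : andsE (x :: xs) e = .and (.var x) (andsE xs e) := rfl
    rw [this]
    simp only [BExpr.eval, Bool.and_eq_true, ih, List.mem_cons, forall_eq_or_imp]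
    rw [and_assoc]

theorem mem_names {hn : ℕ → N} {n M : ℕ} {x : N} :
    x ∈ names hn n M ↔ ∃ c, c < M ∧ hn (n + c) = x := by
  simp only [names, List.mem_map, List.mem_range'_1]
  constructor
  · rintro ⟨a, ⟨h1, h2⟩, rfl⟩
    exact ⟨a - n, by omega, by congr 1; omega⟩
  · rintro ⟨c, hc, rfl⟩
    exact ⟨n + c, ⟨by omega, by omega⟩, rfl⟩

theorem eval_blockE (v : N → Bool) (nl : L → N) (hn : ℕ → N) (M n : ℕ) (l : L × Bool) :
    (blockE nl hn M n l).eval v = true ↔
      v (nl l.1) = l.2 ∨ ∃ c, c < M ∧ v (hn (n + c)) = true := by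
  unfold blockE
  rw [eval_orsE, eval_litE]
  constructor
  · rintro (⟨x, hx, hv⟩ | h)
    · obtain ⟨c, hc, rfl⟩ := mem_names.mp hx
      exact Or.inr ⟨c, hc, hv⟩
    · exact Or.inl h
  · rintro (h | ⟨c, hc, hv⟩)
    · exact Or.inr h
    · exact Or.inl ⟨_, mem_names.mpr ⟨c, hc, rfl⟩, hv⟩

theorem eval_termE (v : N → Bool) (nl : L → N) (hn : ℕ → N) (M : ℕ) (g : L) (n : ℕ)
    (T : List (L × Bool)) :
    (termE nl hn M g n T).eval v = true ↔ ∀ i, i ≤ T.length →
      (v (nl (T.getD i (g, true)).1) = (T.getD i (g, true)).2 ∨
        ∃ c, c < M ∧ v (hn (n + i * M + c)) = true) := by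
  induction T generalizing n with
  | nil =>
    simp only [termE, eval_blockE, List.length_nil, Nat.le_zero_eq, forall_eq]
    simp
  | cons l T ih =>
    simp only [termE, BExpr.eval, Bool.and_eq_true, ih, eval_blockE, List.length_cons]
    constructor
    · rintro ⟨h0, h1⟩ i hi
      cases i with
      | zero => simpa using h0
      | succ i =>
        have := h1 i (by omega)
        rw [List.getD_cons_succ]
        have e : n + (i + 1) * M = n + M + i * M := by ring
        rw [e]
        exact this
    · intro h
      refine ⟨by simpa using h 0 (by omega), fun i hi => ?_⟩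
      have := h (i + 1) (by omega)
      rw [List.getD_cons_succ] at this
      have e : n + (i + 1) * M = n + M + i * M := by ring
      rw [e] at this
      exact this

theorem eval_termsE (v : N → Bool) (nl : L → N) (hn : ℕ → N) (M : ℕ) (g : L) (js : List L)
    (j0 : L) (n : ℕ) (Ts : List (List (L × Bool))) :
    (termsE nl hn M g js j0 n Ts).eval v = true ↔
      (∃ j : Fin Ts.length, ∀ i, i ≤ (Ts.get j).length →
        (v (nl ((Ts.get j).getD i (g, true)).1) = ((Ts.get j).getD i (g, true)).2 ∨
        ∃ c, c < M ∧ v (hn (n + (off Ts j + i) * M + c)) = true)) ∨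
      ((∀ c, c < M → v (hn (n + off Ts Ts.length * M + c)) = true) ∧ v (nl g) = true ∧
        ((∃ x ∈ js, v (nl x) = true) ∨ v (nl j0) = true)) := by
  induction Ts generalizing n with
  | nil =>
    simp only [termsE, eval_andsE, BExpr.eval, Bool.and_eq_true, eval_orsE, off]
    simp only [List.length_nil, IsEmpty.exists_iff, false_or, List.take_nil, List.map_nil,
      List.sum_nil, zero_mul, add_zero, List.mem_map, exists_exists_and_eq_and]
    constructor
    · rintro ⟨h1, h2⟩
      exact ⟨fun c hc => h1 _ (mem_names.mpr ⟨c, hc, rfl⟩), h2⟩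
    · rintro ⟨h1, h2⟩
      refine ⟨fun x hx => ?_, h2⟩
      obtain ⟨c, hc, rfl⟩ := mem_names.mp hx
      exact h1 c hc
  | cons T Ts ih =>
    simp only [termsE, BExpr.eval, Bool.or_eq_true, ih, eval_termE]
    have hoff : ∀ j, off (T :: Ts) (j + 1) = (T.length + 1) + off Ts j := by
      intro j; simp [off]
    have h0 : off (T :: Ts) 0 = 0 := by simp [off]
    have hlen : off (T :: Ts) (T :: Ts).length = (T.length + 1) + off Ts Ts.length := by
      rw [List.length_cons, hoff]
    rw [hlen]
    have e1 : ∀ k c, n + (T.length + 1) * M + k * M + c = n + ((T.length + 1) + k) * M + c := by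
      intro k c; ring
    have hex : ∀ p : Fin (T :: Ts).length → Prop,
        (∃ j, p j) ↔ p (0 : Fin (Ts.length + 1)) ∨ ∃ j : Fin Ts.length, p (Fin.succ j) :=
      fun p => Fin.exists_fin_succ (P := p)
    rw [hex]
    simp only [List.get_eq_getElem, Fin.val_zero, List.getElem_cons_zero, h0, zero_add,
      Fin.val_succ, List.getElem_cons_succ, hoff]
    simp only [e1]
    have e2 : ∀ k i : ℕ, T.length + 1 + (k + i) = T.length + 1 + k + i := by intros; ring
    simp only [e2]
    rw [or_assoc]

end Build

section Abstract

variable {L : Type} [DecidableEq L]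

/-- Conditions on a list of terms over the light variables. -/
structure TermsOK (g : L) (J : Finset L) (Ts : List (List (L × Bool))) : Prop where
  nodup : ∀ T ∈ Ts, (T.map Prod.fst).Nodup
  noG : ∀ T ∈ Ts, g ∉ T.map Prod.fst
  two : ∀ T ∈ Ts, 2 ≤ T.length
  gJ : g ∉ J

/-- Positions: literals of the terms, and the extra position `g` at the end of each term. -/
abbrev Pos (Ts : List (List (L × Bool))) : Type := Σ j : Fin Ts.length, Fin ((Ts.get j).length + 1)

theorem getD_eq_of_lt {T : List (L × Bool)} {d : L × Bool} {i : ℕ} (h : i < T.length) :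
    T.getD i d = T[i] := by
  simp [List.getD_eq_getElem?_getD, h]

theorem getD_mem {T : List (L × Bool)} {d : L × Bool} {i : ℕ} (h : i < T.length) :
    T.getD i d ∈ T := by
  rw [getD_eq_of_lt h]; exact List.getElem_mem h

theorem getD_of_ge {T : List (L × Bool)} {d : L × Bool} {i : ℕ} (h : T.length ≤ i) :
    T.getD i d = d := by
  simp [List.getD_eq_getElem?_getD, h]

theorem getD_inj {T : List (L × Bool)} {g : L} (hnd : (T.map Prod.fst).Nodup)
    (hng : g ∉ T.map Prod.fst) {i i' : ℕ} (hi : i ≤ T.length) (hi' : i' ≤ T.length)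
    (hl : (T.getD i (g, true)).1 = (T.getD i' (g, true)).1) : i = i' := by
  by_cases h1 : i < T.length
  · by_cases h2 : i' < T.length
    · rw [getD_eq_of_lt h1, getD_eq_of_lt h2] at hl
      have e1 : (T.map Prod.fst)[i]'(by simpa using h1)
          = (T.map Prod.fst)[i']'(by simpa using h2) := by
        simpa using hl
      exact (List.Nodup.getElem_inj_iff hnd).mp e1
    · rw [getD_of_ge (not_lt.mp h2)] at hl
      exfalso
      apply hng
      have e : g = (T.getD i (g, true)).1 := hl.symm
      rw [e]
      exact List.mem_map_of_mem (getD_mem h1)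
  · by_cases h2 : i' < T.length
    · rw [getD_of_ge (not_lt.mp h1)] at hl
      exfalso
      apply hng
      have e : g = (T.getD i' (g, true)).1 := hl
      rw [e]
      exact List.mem_map_of_mem (getD_mem h2)
    · omega

/-- The system of a list of terms. -/
def mkSys {g : L} {J : Finset L} {Ts : List (List (L × Bool))} (h : TermsOK g J Ts) :
    Sys L (Pos Ts) (Fin Ts.length) where
  tm a := a.1
  lit a := (Ts.get a.1).getD a.2 (g, true)
  g := g
  gw j := ⟨j, Fin.last _⟩
  J := J
  tm_gw _ := rfl
  lit_gw j := by
    simp only [Fin.val_last]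
    exact getD_of_ge le_rfl
  inj := by
    rintro ⟨j, i⟩ ⟨j', i'⟩ hj hl
    simp only at hj
    subst hj
    simp only at hl
    congr 1
    have hT := List.get_mem Ts j
    apply Fin.ext
    exact getD_inj (h.nodup _ hT) (h.noG _ hT) (by have := i.2; omega) (by have := i'.2; omega) hl
  two := by
    intro j
    have hT := h.two _ (List.get_mem Ts j)
    refine ⟨⟨j, ⟨0, by omega⟩⟩, ⟨j, ⟨1, by omega⟩⟩, ?_, rfl, rfl, ?_, ?_⟩
    · intro hc
      simp at hc
    · intro hc
      have : (0 : ℕ) = (Ts.get j).length := by
        have := congrArg (fun a : Pos Ts => a.2.1) hc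
        simpa using this
      omega
    · intro hc
      have : (1 : ℕ) = (Ts.get j).length := by
        have := congrArg (fun a : Pos Ts => a.2.1) hc
        simpa using this
      omega
  gJ := h.gJ

/-- Truth of the disjunction of the terms. -/
def DT (Ts : List (List (L × Bool))) (v : L → Bool) : Prop := ∃ T ∈ Ts, ∀ l ∈ T, v l.1 = l.2

theorem mkSys_D {g : L} {J : Finset L} {Ts : List (List (L × Bool))} (h : TermsOK g J Ts)
    (v : L → Bool) : (mkSys h).D v ↔ DT Ts v := by
  constructor
  · rintro ⟨j, hj⟩
    refine ⟨Ts.get j, List.get_mem Ts j, fun l hl => ?_⟩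
    obtain ⟨i, hi, rfl⟩ := List.getElem_of_mem hl
    have := hj ⟨j, ⟨i, by omega⟩⟩ rfl (by
      intro hc
      have h2 := congrArg (fun a : Pos Ts => a.2.1) hc
      simp [mkSys] at h2
      simp at hi
      omega)
    unfold Sys.tr mkSys at this
    simp only [getD_eq_of_lt hi] at this
    exact this
  · rintro ⟨T, hT, hall⟩
    obtain ⟨j, hj, rfl⟩ := List.getElem_of_mem hT
    refine ⟨⟨j, hj⟩, ?_⟩
    rintro ⟨j', i⟩ hjj hne
    simp only [mkSys] at hjj
    subst hjj
    have hi : i.1 < (Ts.get ⟨j, hj⟩).length := by
      have h1 := i.2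
      have h2 : i.1 ≠ (Ts.get ⟨j, hj⟩).length := by
        intro hc
        apply hne
        simp only [mkSys]
        congr 1
        exact Fin.ext hc
      omega
    unfold Sys.tr mkSys
    exact hall _ (getD_mem hi)

theorem off_eq_card (Ts : List (List (L × Bool))) :
    Fintype.card (Pos Ts) = off Ts Ts.length := by
  rw [Fintype.card_sigma]
  simp only [Fintype.card_fin]
  unfold off
  rw [List.take_length]
  rw [← List.sum_ofFn]
  congr 1
  apply List.ext_getElem
  · simp
  · intro n h1 h2
    simp

theorem off_mono_lt (Ts : List (List (L × Bool))) (j : Fin Ts.length) (i : ℕ)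
    (hi : i ≤ (Ts.get j).length) : off Ts j + i < off Ts (j + 1) := by
  unfold off
  rw [List.take_add_one]
  simp only [List.getElem?_eq_getElem j.2, Option.toList_some, List.map_append, List.sum_append,
    List.map_cons, List.map_nil, List.sum_cons, List.sum_nil]
  simp only [List.get_eq_getElem] at hi
  omega

theorem off_mono (Ts : List (List (L × Bool))) {a b : ℕ} (h : a ≤ b) : off Ts a ≤ off Ts b := by
  induction b, h using Nat.le_induction with
  | base => exact le_rfl
  | succ b _ ih =>
    refine ih.trans ?_
    unfold off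
    rw [List.take_add_one, List.map_append, List.sum_append]
    omega

/-- The index of a position among all blocks. -/
def posIdx (Ts : List (List (L × Bool))) (a : Pos Ts) : ℕ := off Ts a.1 + a.2

theorem posIdx_lt (Ts : List (List (L × Bool))) (a : Pos Ts) :
    posIdx Ts a < off Ts Ts.length := by
  have h1 := off_mono_lt Ts a.1 a.2 (by have := a.2.2; omega)
  have h2 : off Ts (a.1 + 1) ≤ off Ts Ts.length := off_mono Ts a.1.2
  unfold posIdx
  omega

theorem posIdx_inj (Ts : List (List (L × Bool))) : Function.Injective (posIdx Ts) := by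
  rintro ⟨j, i⟩ ⟨j', i'⟩ h
  simp only [posIdx] at h
  have h1 := off_mono_lt Ts j i (by have := i.2; omega)
  have h2 := off_mono_lt Ts j' i' (by have := i'.2; omega)
  have hj : j = j' := by
    apply Fin.ext
    by_contra hne
    rcases Nat.lt_or_gt_of_ne hne with hlt | hlt
    · have := off_mono Ts (a := j + 1) (b := j') hlt
      omega
    · have := off_mono Ts (a := j' + 1) (b := j) hlt
      omega
  subst hj
  congr 1
  apply Fin.ext
  omega

/-- The copies of the heavy variables. -/
def copyName {N : Type} (hn : ℕ → N) (M : ℕ) (Ts : List (List (L × Bool))) :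
    Option (Pos Ts) → ℕ → N
  | none, c => hn (off Ts Ts.length * M + c)
  | some a, c => hn (posIdx Ts a * M + c)

theorem copyName_inj {N : Type} {hn : ℕ → N} (hh : Function.Injective hn) (M : ℕ)
    (Ts : List (List (L × Bool))) (h : Option (Pos Ts)) (i : ℕ) (h' : Option (Pos Ts)) (i' : ℕ)
    (hi : i < M) (hi' : i' < M) (he : copyName hn M Ts h i = copyName hn M Ts h' i') :
    h = h' ∧ i = i' := by
  have key : ∀ p q : ℕ, p * M + i = q * M + i' → p = q ∧ i = i' := by
    intro p q hpq
    have h1 : (p * M + i) / M = p := by
      rw [mul_comm, Nat.mul_add_div (by omega), Nat.div_eq_of_lt hi, add_zero]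
    have h2 : (q * M + i') / M = q := by
      rw [mul_comm, Nat.mul_add_div (by omega), Nat.div_eq_of_lt hi', add_zero]
    have h3 : p = q := by rw [← h1, ← h2, hpq]
    subst h3
    exact ⟨rfl, by omega⟩
  cases h with
  | none =>
    cases h' with
    | none => exact ⟨rfl, (key _ _ (hh he)).2⟩
    | some a =>
      have := (key _ _ (hh he)).1
      have := posIdx_lt Ts a
      omega
  | some a =>
    cases h' with
    | none =>
      have := (key _ _ (hh he)).1
      have := posIdx_lt Ts a
      omega
    | some a' =>
      obtain ⟨h1, h2⟩ := key _ _ (hh he)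
      exact ⟨by rw [posIdx_inj Ts h1], h2⟩

/-- Main equivalence: small equivalent expressions and small covers. -/
theorem mee_iff {N : Type} [DecidableEq N] {g : L} {lj : List L} {l0 : L}
    {Ts : List (List (L × Bool))} (h : TermsOK g (l0 :: lj).toFinset Ts) (hS : (mkSys h).Good)
    (nl : L → N) (hnl : Function.Injective nl) (hn : ℕ → N) (hhn : Function.Injective hn)
    (hd : ∀ l c, nl l ≠ hn c) (M P : ℕ) (hM : off Ts Ts.length + 1 + P + 1 ≤ M) :
    (∃ y : BExpr N, y.size ≤ (off Ts Ts.length + 1) * M + (off Ts Ts.length + 1) + P ∧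
      ∀ v, (termsE nl hn M g lj l0 0 Ts).eval v = y.eval v) ↔
    ∃ I ⊆ (l0 :: lj).toFinset, I.card ≤ P ∧ ∀ v : L → Bool, ¬ DT Ts v →
      (∃ x ∈ (l0 :: lj).toFinset, v x = true) → ∃ x ∈ I, v x = true := by
  constructor
  · rintro ⟨y, hy1, hy2⟩
    obtain ⟨I, hI1, hI2, hI3⟩ := mee_lower (mkSys h) hS M P nl hnl (copyName hn M Ts)
      (copyName_inj hhn M Ts)
      (by intro l k i _; cases k <;> exact hd _ _)
      (termsE nl hn M g lj l0 0 Ts) (by
        intro v
        rw [eval_termsE]
        unfold Sys.FF
        apply or_congr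
        · apply exists_congr
          intro j
          constructor
          · rintro hj ⟨j', i⟩ hjj
            simp only [mkSys] at hjj
            subst hjj
            have := hj i (by have := i.2; omega)
            rw [zero_add] at this
            rcases this with h1 | ⟨c, hc, h2⟩
            · exact Or.inl h1
            · right
              simp only [bundle, decide_eq_true_eq]
              exact ⟨c, hc, h2⟩
          · intro hj i hi
            rcases hj ⟨j, ⟨i, by omega⟩⟩ rfl with h1 | h2
            · exact Or.inl h1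
            · right
              simp only [bundle, decide_eq_true_eq] at h2
              obtain ⟨c, hc, h3⟩ := h2
              exact ⟨c, hc, by rw [zero_add]; exact h3⟩
        · simp only [bundle, decide_eq_true_eq, zero_add]
          apply and_congr Iff.rfl
          apply and_congr Iff.rfl
          unfold Sys.B
          simp only [mkSys, List.mem_toFinset, List.mem_cons, exists_eq_or_imp]
          rw [or_comm])
      y (fun v => (hy2 v).symm) (by rw [off_eq_card]; exact hM) (by rw [off_eq_card]; exact hy1)
    refine ⟨I, hI1, hI3, fun v hD hB => hI2 v (fun hc => hD ((mkSys_D h v).mp hc)) hB⟩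
  · rintro ⟨I, hIJ, hIc, hI⟩
    have hne : I.Nonempty := by
      obtain ⟨v, hD, hB⟩ := hS.c4
      obtain ⟨x, hx, _⟩ := hI v (fun hc => hD ((mkSys_D h v).mpr hc)) hB
      exact ⟨x, hx⟩
    obtain ⟨x0, xs, hx⟩ : ∃ x0 xs, I.toList = x0 :: xs := by
      cases hl : I.toList with
      | nil =>
        rw [Finset.toList_eq_nil] at hl
        rw [hl] at hne
        exact absurd hne (by simp)
      | cons a l => exact ⟨a, l, rfl⟩
    have hlen : xs.length + 1 = I.card := by
      rw [← Finset.length_toList, hx, List.length_cons]
    refine ⟨termsE nl hn M g xs x0 0 Ts, ?_, ?_⟩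
    · rw [size_termsE]
      omega
    · intro v
      rw [Bool.eq_iff_iff, eval_termsE, eval_termsE]
      have hmem : ∀ x, x ∈ I ↔ x = x0 ∨ x ∈ xs := by
        intro x
        rw [← Finset.mem_toList, hx, List.mem_cons]
      constructor
      · rintro (h1 | ⟨h1, h2, h3⟩)
        · exact Or.inl h1
        · by_cases hD : DT Ts (fun l => v (nl l))
          · left
            obtain ⟨T, hT, hall⟩ := hD
            obtain ⟨j, hj, rfl⟩ := List.getElem_of_mem hT
            refine ⟨⟨j, hj⟩, fun i hi => Or.inl ?_⟩
            by_cases hi2 : i < (Ts.get ⟨j, hj⟩).length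
            · exact hall _ (getD_mem hi2)
            · rw [getD_of_ge (not_lt.mp hi2)]
              exact h2
          · right
            refine ⟨h1, h2, ?_⟩
            obtain ⟨x, hx1, hx2⟩ := hI (fun l => v (nl l)) hD (by
              rcases h3 with ⟨x, hx1, hx2⟩ | h3
              · exact ⟨x, by simp [hx1], hx2⟩
              · exact ⟨l0, by simp, h3⟩)
            rcases (hmem x).mp hx1 with rfl | h4
            · exact Or.inr hx2
            · exact Or.inl ⟨x, h4, hx2⟩
      · rintro (h1 | ⟨h1, h2, h3⟩)
        · exact Or.inl h1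
        · right
          refine ⟨h1, h2, ?_⟩
          have : ∃ x ∈ I, v (nl x) = true := by
            rcases h3 with ⟨x, hx1, hx2⟩ | h3
            · exact ⟨x, (hmem x).mpr (Or.inr hx1), hx2⟩
            · exact ⟨x0, (hmem x0).mpr (Or.inl rfl), h3⟩
          obtain ⟨x, hx1, hx2⟩ := this
          have := hIJ hx1
          rw [List.mem_toFinset, List.mem_cons] at this
          rcases this with rfl | h4
          · exact Or.inr hx2
          · exact Or.inl ⟨x, h4, hx2⟩

end Abstract

end Pool.Agent.Helper64.MEE
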