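import Pool.Agent.Helper64.MEE.Tokens

/-!
The main loop over the tokens of the input.
-/

set_option linter.unusedSectionVars false
set_option linter.unusedSimpArgs false

namespace Pool.Agent.Helper64.MEE

open Stk

/-- Sources. -/
abbrev Src := List Bool × Option Key

def sc : Src := ([false, false, true], none)
def sa0 : Src := ([false, true, false], none)
def sa : Src := ([true, false, false], some .W)
def sb : Src := ([true, false, true], some .W)
def sy : Src := ([true, true, false], some .W)
def ssC : Src := ([true, true, true], some .C)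
def ssA : Src := ([true, true, true], some .A)
def ssB : Src := ([true, true, true], some .B)

theorem den_c (G : ℕ) (s : St) : Den G s sc .c :=
  ⟨by (intro k hk; cases hk), rfl, by simp [sc, pay], by simp [sc]⟩

theorem den_a0 (G : ℕ) (s : St) : Den G s sa0 .a0 :=
  ⟨by (intro k hk; cases hk), rfl, by simp [sa0, pay], by simp [sa0]⟩

theorem den_a {G n : ℕ} {s : St} (h : s.w = encNat n) (hG : (encNat n).length ≤ G) :
    Den G s sa (.a n) :=
  ⟨by (intro k hk; cases hk; exact Or.inl rfl), by simp [sa, pay, St.fn, h, lcode, encNat, bit],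
    by simpa [sa, pay, St.fn, h] using hG, by simp [sa]⟩

theorem den_b {G n : ℕ} {s : St} (h : s.w = encNat n) (hG : (encNat n).length ≤ G) :
    Den G s sb (.b n) :=
  ⟨by (intro k hk; cases hk; exact Or.inl rfl), by simp [sb, pay, St.fn, h, lcode, encNat, bit],
    by simpa [sb, pay, St.fn, h] using hG, by simp [sb]⟩

theorem den_y {G n : ℕ} {s : St} (h : s.w = encNat n) (hG : (encNat n).length ≤ G) :
    Den G s sy (.y n) :=
  ⟨by (intro k hk; cases hk; exact Or.inl rfl), by simp [sy, pay, St.fn, h, lcode, encNat, bit],
    by simpa [sy, pay, St.fn, h] using hG, by simp [sy]⟩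

theorem den_sC {G n : ℕ} {s : St} (h : s.c = List.replicate n .b1) (hG : n ≤ G) :
    Den G s ssC (.s n) :=
  ⟨by (intro k hk; cases hk; exact Or.inr (Or.inl rfl)),
    by simp [ssC, pay, St.fn, h, lcode, bit],
    by simpa [ssC, pay, St.fn, h] using hG, by simp [ssC]⟩

theorem den_sA {G n : ℕ} {s : St} (h : s.a = List.replicate n .b1) (hG : n ≤ G) :
    Den G s ssA (.s n) :=
  ⟨by (intro k hk; cases hk; exact Or.inr (Or.inr (Or.inl rfl))),
    by simp [ssA, pay, St.fn, h, lcode, bit],
    by simpa [ssA, pay, St.fn, h] using hG, by simp [ssA]⟩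

theorem den_sB {G n : ℕ} {s : St} (h : s.b = List.replicate n .b1) (hG : n ≤ G) :
    Den G s ssB (.s n) :=
  ⟨by (intro k hk; cases hk; exact Or.inr (Or.inr (Or.inr rfl))),
    by simp [ssB, pay, St.fn, h, lcode, bit],
    by simpa [ssB, pay, St.fn, h] using hG, by simp [ssB]⟩

/-- Terms of an existential leaf. -/
def xT : List (List (Src × Bool)) :=
  [[(sc, true), (sa, false), (sb, false)],
   [(sc, false), (sa, true), (sb, false)],
   [(sc, false), (sa, false), (sb, true)],
   [(sc, true), (ssC, true), (sa, true)],
   [(sc, true), (ssC, false), (sb, true)]]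

def yT : List (List (Src × Bool)) :=
  [[(sc, true), (ssC, true), (sy, false)],
   [(sc, true), (ssC, false), (sy, true)]]

def negT : List (List (Src × Bool)) :=
  [[(sc, true), (ssC, true), (ssA, true)],
   [(sc, true), (ssC, false), (ssA, false)]]

def andT : List (List (Src × Bool)) :=
  [[(sc, true), (ssC, true), (ssA, false)],
   [(sc, true), (ssC, true), (ssB, false)],
   [(sc, true), (ssC, false), (ssA, true), (ssB, true)]]

def orT : List (List (Src × Bool)) :=
  [[(sc, true), (ssC, false), (ssA, true)],
   [(sc, true), (ssC, false), (ssB, true)],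
   [(sc, true), (ssC, true), (ssA, false), (ssB, false)]]

/-- Push the number on `C` on the stack `Q`. -/
def pushQ : Prog := .seq (.push .Q .sep) (copy .C .Q)

/-- Pop a number from `Q` to the stack `k`. -/
def popQ (k : Key) : Prog := .loop .Q (fun a => a == .sep) (fun a => .push k a)

/-- The part of the final disjunction contributed by an existential leaf. -/
def zPart : Prog :=
  .seq (.push .Z .or) (.seq (emName sa.1 sa.2 .Z) (.seq (.push .Z .or) (emName sb.1 sb.2 .Z)))

def tokX : Prog :=
  .seq (.push .C .b1) (.seq (emTerms xT) (.seq zPart (.seq insName (.seq (clear .W) pushQ))))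

def tokY : Prog := .seq (.push .C .b1) (.seq (emTerms yT) (.seq (clear .W) pushQ))

def tokNeg : Prog :=
  .seq (.push .C .b1) (.seq (popQ .A) (.seq (emTerms negT) (.seq (clear .A) pushQ)))

def tokBin (T : List (List (Src × Bool))) : Prog :=
  .seq (.push .C .b1) (.seq (popQ .A) (.seq (popQ .B) (.seq (emTerms T)
    (.seq (clear .A) (.seq (clear .B) pushQ)))))

/-- The body of the main loop. -/
def tokBody : Sy → Prog
  | .b0 => .push .W .b0
  | .b1 => .push .W .b1
  | .x => tokX
  | .y => tokY
  | .neg => tokNeg
  | .and => tokBin andT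
  | .or => tokBin orT
  | .sep => .skip

/-- States at token boundaries. -/
def cfg (M : ℕ) (r p z q w : List Sy) (n c : ℕ) (L : List ℕ) (k : ℕ) : St :=
  { r := r, p := p, z := z, m := List.replicate M .b1, n := List.replicate n .b1, w := w,
    c := List.replicate c .b1, q := q, e := encL L, u := List.replicate (k + L.length) .b1 }

/-- Text of the disjunction over the candidates. -/
def zstr (xs : List ℕ) : List Sy :=
  xs.flatMap (fun n => (.or :: encX (.var (nl (.a n)))) ++ (.or :: encX (.var (nl (.b n)))))

theorem ru_pushQ (G : ℕ) (s : St) (c : ℕ) (hc : s.c = List.replicate c .b1) (hG : c ≤ G)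
    (ht : s.t = []) :
    Ru pushQ s {s with q := List.replicate c .b1 ++ .sep :: s.q} (5 * G + 3) := by
  have e1 : Ru (.push .Q .sep) s {s with q := .sep :: s.q} 1 := Ru.push .Q .sep s
  have e2 := ru_copy (k := .C) (out := .Q) (by decide) (by decide) (by decide)
    {s with q := .sep :: s.q} ht
  refine (e1.seq e2).conv ?_ ?_
  · simp only [St.put, St.fn, hc, List.reverse_replicate]
  · simp only [St.fn, hc, List.length_replicate]
    omega

theorem ru_popA (c : ℕ) (q : List Sy) (s : St) (hq : s.q = List.replicate c .b1 ++ .sep :: q) :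
    Ru (popQ .A) s {s with q := q, a := List.replicate c .b1 ++ s.a} (2 * c + 1) := by
  induction c generalizing s with
  | zero =>
    have h : s.fn .Q = .sep :: q := by
      show s.q = _
      simpa using hq
    exact (Ru.loop_stop h rfl).conv rfl (by omega)
  | succ c ih =>
    have h : s.fn .Q = .b1 :: (List.replicate c .b1 ++ .sep :: q) := by
      show s.q = _
      simpa [List.replicate_succ] using hq
    have e1 : Ru (.push .A .b1) {s with q := List.replicate c .b1 ++ .sep :: q}
      {s with q := List.replicate c .b1 ++ .sep :: q, a := .b1 :: s.a} 1 := Ru.push .A .b1 _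
    have e2 := ih {s with q := List.replicate c .b1 ++ .sep :: q, a := .b1 :: s.a} rfl
    refine (Ru.loop_step h rfl e1 e2).conv ?_ (by omega)
    simp [List.replicate_succ']

theorem ru_popB (c : ℕ) (q : List Sy) (s : St) (hq : s.q = List.replicate c .b1 ++ .sep :: q) :
    Ru (popQ .B) s {s with q := q, b := List.replicate c .b1 ++ s.b} (2 * c + 1) := by
  induction c generalizing s with
  | zero =>
    have h : s.fn .Q = .sep :: q := by
      show s.q = _
      simpa using hq
    exact (Ru.loop_stop h rfl).conv rfl (by omega)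
  | succ c ih =>
    have h : s.fn .Q = .b1 :: (List.replicate c .b1 ++ .sep :: q) := by
      show s.q = _
      simpa [List.replicate_succ] using hq
    have e1 : Ru (.push .B .b1) {s with q := List.replicate c .b1 ++ .sep :: q}
      {s with q := List.replicate c .b1 ++ .sep :: q, b := .b1 :: s.b} 1 := Ru.push .B .b1 _
    have e2 := ih {s with q := List.replicate c .b1 ++ .sep :: q, b := .b1 :: s.b} rfl
    refine (Ru.loop_step h rfl e1 e2).conv ?_ (by omega)
    simp [List.replicate_succ']

theorem ru_zPart (G n : ℕ) (s : St) (hw : s.w = encNat n) (hG : (encNat n).length ≤ G)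
    (ht : s.t = []) :
    Ru zPart s {s with z := (zstr [n]).reverse ++ s.z} (10 * G + 20) := by
  have e1 : Ru (.push .Z .or) s {s with z := .or :: s.z} 1 := Ru.push .Z .or s
  have e2 := ru_emDen (G := G) (s := {s with z := .or :: s.z}) (den_a hw hG) .Z (Or.inr rfl) ht
  have e3 : Ru (.push .Z .or) {s with z := (encX (.var (nl (.a n)))).reverse ++ .or :: s.z}
    {s with z := .or :: ((encX (.var (nl (.a n)))).reverse ++ .or :: s.z)} 1 := Ru.push .Z .or _
  have e4 := ru_emDen (G := G)
    (s := {s with z := .or :: ((encX (.var (nl (.a n)))).reverse ++ .or :: s.z)})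
    (den_b hw hG) .Z (Or.inr rfl) ht
  refine (e1.seq (e2.seq (e3.seq e4))).conv ?_ (by omega)
  simp only [St.put, St.fn]
  congr 1
  simp [zstr]

/-- Bound for the cost of one token. -/
def cT (G : ℕ) : ℕ := 20 * cB G + 60 * G + 60

theorem ru_tokX (G M : ℕ) (n : ℕ) (r p z q : List Sy) (N c : ℕ) (L : List ℕ) (k : ℕ)
    (h1 : (encNat n).length ≤ G) (h2 : (encL L).length ≤ G) (h3 : c + 1 ≤ G)
    (h4 : N + 20 * M ≤ G) :
    Ru tokX (cfg M r p z q (encNat n) N c L k)
      (cfg M r ((preT M N (leafX n (c + 1))).reverse ++ p) ((zstr [n]).reverse ++ z)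
        (List.replicate (c + 1) .b1 ++ .sep :: q) [] (N + 20 * M) (c + 1) (insL L n)
        (k + 20 * (M + 1))) (cT G) := by
  have e1 : Ru (.push .C .b1) (cfg M r p z q (encNat n) N c L k)
      (cfg M r p z q (encNat n) N (c + 1) L k) 1 := Ru.push .C .b1 _
  have hoff : offT (leafX n (c + 1)) = 20 := rfl
  have hm : (cfg M r p z q (encNat n) N (c + 1) L k).m.length = M := by simp [cfg]
  have dW : (cfg M r p z q (encNat n) N (c + 1) L k).w = encNat n := rfl
  have dC : (cfg M r p z q (encNat n) N (c + 1) L k).c = List.replicate (c + 1) .b1 := rfl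
  have e2 := ru_emTerms (G := G) xT (leafX n (c + 1)) (cfg M r p z q (encNat n) N (c + 1) L k)
    (by
      unfold xT leafX
      repeat' first
        | exact List.Forall₂.nil
        | exact den_c _ _
        | exact den_a dW h1
        | exact den_b dW h1
        | exact den_sC dC h3
        | rfl
        | apply List.Forall₂.cons
        | apply And.intro)
    N rfl (by rw [hm, hoff]; exact h4) rfl rfl
  rw [hm, hoff] at e2
  have e3 := ru_zPart G n {cfg M r p z q (encNat n) N (c + 1) L k with
      p := (preT M N (leafX n (c + 1))).reverse ++ p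
      n := List.replicate (N + 20 * M) Sy.b1
      u := List.replicate (20 * (M + 1)) Sy.b1 ++ List.replicate (k + L.length) Sy.b1} rfl h1 rfl
  have e4 := ru_insName L n (k + 20 * (M + 1)) G {cfg M r p z q (encNat n) N (c + 1) L k with
      p := (preT M N (leafX n (c + 1))).reverse ++ p
      z := (zstr [n]).reverse ++ z
      n := List.replicate (N + 20 * M) Sy.b1
      u := List.replicate (20 * (M + 1)) Sy.b1 ++ List.replicate (k + L.length) Sy.b1}
      rfl rfl rfl rfl rfl rfl rfl (by
        show List.replicate (20 * (M + 1)) Sy.b1 ++ List.replicate (k + L.length) Sy.b1 = _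
        rw [List.replicate_append_replicate]
        congr 1
        ring) h2 h1
  have e5 := ru_clear .W {cfg M r p z q (encNat n) N (c + 1) L k with
      p := (preT M N (leafX n (c + 1))).reverse ++ p
      z := (zstr [n]).reverse ++ z
      n := List.replicate (N + 20 * M) Sy.b1
      e := encL (insL L n)
      u := List.replicate (k + 20 * (M + 1) + (insL L n).length) Sy.b1}
  have e6 := ru_pushQ G {cfg M r p z q [] N (c + 1) L k with
      p := (preT M N (leafX n (c + 1))).reverse ++ p
      z := (zstr [n]).reverse ++ z
      n := List.replicate (N + 20 * M) Sy.b1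
      e := encL (insL L n)
      u := List.replicate (k + 20 * (M + 1) + (insL L n).length) Sy.b1} (c + 1) rfl h3 rfl
  refine (e1.seq (e2.seq (e3.seq (e4.seq (e5.seq e6))))).conv rfl ?_
  have : ({cfg M r p z q (encNat n) N (c + 1) L k with
      p := (preT M N (leafX n (c + 1))).reverse ++ p
      z := (zstr [n]).reverse ++ z
      n := List.replicate (N + 20 * M) Sy.b1
      e := encL (insL L n)
      u := List.replicate (k + 20 * (M + 1) + (insL L n).length) Sy.b1} : St).fn .W = encNat n := rfl
  rw [this]
  unfold cT
  omega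

theorem ru_tokY (G M : ℕ) (n : ℕ) (r p z q : List Sy) (N c : ℕ) (L : List ℕ) (k : ℕ)
    (h1 : (encNat n).length ≤ G) (h3 : c + 1 ≤ G)
    (h4 : N + 8 * M ≤ G) :
    Ru tokY (cfg M r p z q (encNat n) N c L k)
      (cfg M r ((preT M N (leafY n (c + 1))).reverse ++ p) z
        (List.replicate (c + 1) .b1 ++ .sep :: q) [] (N + 8 * M) (c + 1) L
        (k + 8 * (M + 1))) (cT G) := by
  have e1 : Ru (.push .C .b1) (cfg M r p z q (encNat n) N c L k)
      (cfg M r p z q (encNat n) N (c + 1) L k) 1 := Ru.push .C .b1 _
  have hoff : offT (leafY n (c + 1)) = 8 := rfl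
  have hm : (cfg M r p z q (encNat n) N (c + 1) L k).m.length = M := by simp [cfg]
  have dW : (cfg M r p z q (encNat n) N (c + 1) L k).w = encNat n := rfl
  have dC : (cfg M r p z q (encNat n) N (c + 1) L k).c = List.replicate (c + 1) .b1 := rfl
  have e2 := ru_emTerms (G := G) yT (leafY n (c + 1)) (cfg M r p z q (encNat n) N (c + 1) L k)
    (by
      unfold yT leafY
      repeat' first
        | exact List.Forall₂.nil
        | exact den_c _ _
        | exact den_y dW h1
        | exact den_sC dC h3
        | rfl
        | apply List.Forall₂.cons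
        | apply And.intro)
    N rfl (by rw [hm, hoff]; exact h4) rfl rfl
  rw [hm, hoff] at e2
  have e5 := ru_clear .W {cfg M r p z q (encNat n) N (c + 1) L k with
      p := (preT M N (leafY n (c + 1))).reverse ++ p
      n := List.replicate (N + 8 * M) Sy.b1
      u := List.replicate (8 * (M + 1)) Sy.b1 ++ List.replicate (k + L.length) Sy.b1}
  have e6 := ru_pushQ G {cfg M r p z q [] N (c + 1) L k with
      p := (preT M N (leafY n (c + 1))).reverse ++ p
      n := List.replicate (N + 8 * M) Sy.b1
      u := List.replicate (8 * (M + 1)) Sy.b1 ++ List.replicate (k + L.length) Sy.b1}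
      (c + 1) rfl h3 rfl
  refine (e1.seq (e2.seq (e5.seq e6))).conv ?_ ?_
  · have a1 : List.replicate (8 * (M + 1)) Sy.b1 ++ List.replicate (k + L.length) Sy.b1
        = List.replicate (k + 8 * (M + 1) + L.length) Sy.b1 := by
      rw [List.replicate_append_replicate]; congr 1; ring
    rw [a1]
    rfl
  · have : ({cfg M r p z q (encNat n) N (c + 1) L k with
      p := (preT M N (leafY n (c + 1))).reverse ++ p
      n := List.replicate (N + 8 * M) Sy.b1
      u := List.replicate (8 * (M + 1)) Sy.b1 ++ List.replicate (k + L.length) Sy.b1} : St).fn .W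
      = encNat n := rfl
    rw [this]
    unfold cT
    omega

theorem ru_tokNeg (G M : ℕ) (r p z q : List Sy) (N c : ℕ) (L : List ℕ) (k : ℕ)
    (h3 : c + 1 ≤ G) (h4 : N + 8 * M ≤ G) :
    Ru tokNeg (cfg M r p z (List.replicate c .b1 ++ .sep :: q) [] N c L k)
      (cfg M r ((preT M N (nodeNeg (c + 1) c)).reverse ++ p) z
        (List.replicate (c + 1) .b1 ++ .sep :: q) [] (N + 8 * M) (c + 1) L
        (k + 8 * (M + 1))) (cT G) := by
  have e1 : Ru (.push .C .b1) (cfg M r p z (List.replicate c .b1 ++ .sep :: q) [] N c L k)
      (cfg M r p z (List.replicate c .b1 ++ .sep :: q) [] N (c + 1) L k) 1 := Ru.push .C .b1 _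
  have e1' := ru_popA c q (cfg M r p z (List.replicate c .b1 ++ .sep :: q) [] N (c + 1) L k) rfl
  have hoff : offT (nodeNeg (c + 1) c) = 8 := rfl
  have hm : ({cfg M r p z q [] N (c + 1) L k with a := List.replicate c .b1 ++ []} : St).m.length
    = M := by simp [cfg]
  have dA : ({cfg M r p z q [] N (c + 1) L k with a := List.replicate c .b1 ++ []} : St).a =
    List.replicate c .b1 := by simp
  have dC : ({cfg M r p z q [] N (c + 1) L k with a := List.replicate c .b1 ++ []} : St).c =
    List.replicate (c + 1) .b1 := rfl
  have e2 := ru_emTerms (G := G) negT (nodeNeg (c + 1) c)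
    {cfg M r p z q [] N (c + 1) L k with a := List.replicate c .b1 ++ []}
    (by
      unfold negT nodeNeg
      repeat' first
        | exact List.Forall₂.nil
        | exact den_c _ _
        | exact den_sA dA (by omega)
        | exact den_sC dC h3
        | rfl
        | apply List.Forall₂.cons
        | apply And.intro)
    N rfl (by rw [hm, hoff]; exact h4) rfl rfl
  rw [hm, hoff] at e2
  have e5 := ru_clear .A {cfg M r p z q [] N (c + 1) L k with
      a := List.replicate c .b1 ++ []
      p := (preT M N (nodeNeg (c + 1) c)).reverse ++ p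
      n := List.replicate (N + 8 * M) Sy.b1
      u := List.replicate (8 * (M + 1)) Sy.b1 ++ List.replicate (k + L.length) Sy.b1}
  have e6 := ru_pushQ G {cfg M r p z q [] N (c + 1) L k with
      p := (preT M N (nodeNeg (c + 1) c)).reverse ++ p
      n := List.replicate (N + 8 * M) Sy.b1
      u := List.replicate (8 * (M + 1)) Sy.b1 ++ List.replicate (k + L.length) Sy.b1}
      (c + 1) rfl h3 rfl
  refine (e1.seq (e1'.seq (e2.seq (e5.seq e6)))).conv ?_ ?_
  · have a1 : List.replicate (8 * (M + 1)) Sy.b1 ++ List.replicate (k + L.length) Sy.b1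
        = List.replicate (k + 8 * (M + 1) + L.length) Sy.b1 := by
      rw [List.replicate_append_replicate]; congr 1; ring
    rw [a1]
    rfl
  · have : ({cfg M r p z q [] N (c + 1) L k with
      a := List.replicate c .b1 ++ []
      p := (preT M N (nodeNeg (c + 1) c)).reverse ++ p
      n := List.replicate (N + 8 * M) Sy.b1
      u := List.replicate (8 * (M + 1)) Sy.b1 ++ List.replicate (k + L.length) Sy.b1} : St).fn .A
      = List.replicate c .b1 := by simp [St.fn]
    rw [this, List.length_replicate]
    unfold cT
    omega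

theorem ru_tokBin (G M : ℕ) (xs : List (List (Src × Bool))) (Ts : List (List (LN × Bool)))
    (r p z q : List Sy) (N c c' : ℕ) (L : List ℕ) (k : ℕ)
    (hoff : offT Ts = 13)
    (hden : ∀ s : St, s.a = List.replicate c .b1 → s.b = List.replicate c' .b1 →
      s.c = List.replicate (c + 1) .b1 →
      List.Forall₂ (List.Forall₂ (fun x l => Den G s x.1 l.1 ∧ x.2 = l.2)) xs Ts)
    (h3 : c + 1 ≤ G) (h3' : c' ≤ G) (h4 : N + 13 * M ≤ G) :
    Ru (tokBin xs) (cfg M r p z
        (List.replicate c .b1 ++ .sep :: (List.replicate c' .b1 ++ .sep :: q)) [] N c L k)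
      (cfg M r ((preT M N Ts).reverse ++ p) z
        (List.replicate (c + 1) .b1 ++ .sep :: q) [] (N + 13 * M) (c + 1) L
        (k + 13 * (M + 1))) (cT G) := by
  have e1 : Ru (.push .C .b1) (cfg M r p z
        (List.replicate c .b1 ++ .sep :: (List.replicate c' .b1 ++ .sep :: q)) [] N c L k)
      (cfg M r p z
        (List.replicate c .b1 ++ .sep :: (List.replicate c' .b1 ++ .sep :: q)) [] N (c + 1) L k)
      1 := Ru.push .C .b1 _
  have e1' := ru_popA c (List.replicate c' .b1 ++ .sep :: q) (cfg M r p z
        (List.replicate c .b1 ++ .sep :: (List.replicate c' .b1 ++ .sep :: q)) [] N (c + 1) L k) rfl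
  have e1'' := ru_popB c' q {cfg M r p z
        (List.replicate c' .b1 ++ .sep :: q) [] N (c + 1) L k with
        a := List.replicate c .b1 ++ []} rfl
  have hm : ({cfg M r p z q [] N (c + 1) L k with
      a := List.replicate c .b1 ++ [], b := List.replicate c' .b1 ++ []} : St).m.length
    = M := by simp [cfg]
  have e2 := ru_emTerms (G := G) xs Ts
    {cfg M r p z q [] N (c + 1) L k with
      a := List.replicate c .b1 ++ [], b := List.replicate c' .b1 ++ []}
    (hden _ (by simp) (by simp) rfl)
    N rfl (by rw [hm, hoff]; exact h4) rfl rfl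
  rw [hm, hoff] at e2
  have e5 := ru_clear .A {cfg M r p z q [] N (c + 1) L k with
      a := List.replicate c .b1 ++ []
      b := List.replicate c' .b1 ++ []
      p := (preT M N Ts).reverse ++ p
      n := List.replicate (N + 13 * M) Sy.b1
      u := List.replicate (13 * (M + 1)) Sy.b1 ++ List.replicate (k + L.length) Sy.b1}
  have e5' := ru_clear .B {cfg M r p z q [] N (c + 1) L k with
      b := List.replicate c' .b1 ++ []
      p := (preT M N Ts).reverse ++ p
      n := List.replicate (N + 13 * M) Sy.b1
      u := List.replicate (13 * (M + 1)) Sy.b1 ++ List.replicate (k + L.length) Sy.b1}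
  have e6 := ru_pushQ G {cfg M r p z q [] N (c + 1) L k with
      p := (preT M N Ts).reverse ++ p
      n := List.replicate (N + 13 * M) Sy.b1
      u := List.replicate (13 * (M + 1)) Sy.b1 ++ List.replicate (k + L.length) Sy.b1}
      (c + 1) rfl h3 rfl
  refine (e1.seq (e1'.seq (e1''.seq (e2.seq (e5.seq (e5'.seq e6)))))).conv ?_ ?_
  · have a1 : List.replicate (13 * (M + 1)) Sy.b1 ++ List.replicate (k + L.length) Sy.b1
        = List.replicate (k + 13 * (M + 1) + L.length) Sy.b1 := by
      rw [List.replicate_append_replicate]; congr 1; ring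
    rw [a1]
    rfl
  · have a2 : ({cfg M r p z q [] N (c + 1) L k with
      a := List.replicate c .b1 ++ []
      b := List.replicate c' .b1 ++ []
      p := (preT M N Ts).reverse ++ p
      n := List.replicate (N + 13 * M) Sy.b1
      u := List.replicate (13 * (M + 1)) Sy.b1 ++ List.replicate (k + L.length) Sy.b1} : St).fn .A
      = List.replicate c .b1 := by simp [St.fn]
    have a3 : ({cfg M r p z q [] N (c + 1) L k with
      b := List.replicate c' .b1 ++ []
      p := (preT M N Ts).reverse ++ p
      n := List.replicate (N + 13 * M) Sy.b1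
      u := List.replicate (13 * (M + 1)) Sy.b1 ++ List.replicate (k + L.length) Sy.b1} : St).fn .B
      = List.replicate c' .b1 := by simp [St.fn]
    rw [a2, a3, List.length_replicate, List.length_replicate]
    unfold cT
    omega

end Pool.Agent.Helper64.MEE
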