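import Pool.Agent.Helper64.MEE.Core
import Pool.Agent.Helper64.MEE.Expr

/-!
From Boolean expressions to trees: an expression which is equivalent to the bundled gadget and has
few variable occurrences gives a small cover.
-/

set_option linter.unusedSectionVars false
set_option linter.unusedSimpArgs false

namespace Pool.Agent.Helper64.MEE

open Tr

section Convert

variable {N L H : Type}

/-- Replace the variables of an expression by light variables, heavy variables or constants and
push negations to the leaves. -/
def toTr (cls : N → L ⊕ H ⊕ Bool) (sg : Bool) : BExpr N → Tr L H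
  | .var x => match cls x with
    | .inl l => .light l sg
    | .inr (.inl h) => .heavy h sg
    | .inr (.inr b) => .cst (b == sg)
  | .neg e => toTr cls (!sg) e
  | .and e f => .gate sg (toTr cls sg e) (toTr cls sg f)
  | .or e f => .gate (!sg) (toTr cls sg e) (toTr cls sg f)

/-- The assignment of the variables of the expression. -/
def pull (cls : N → L ⊕ H ⊕ Bool) (v : L → Bool) (w : H → Bool) (x : N) : Bool :=
  match cls x with
    | .inl l => v l
    | .inr (.inl h) => w h
    | .inr (.inr b) => b

theorem eval_toTr (cls : N → L ⊕ H ⊕ Bool) (v : L → Bool) (w : H → Bool) (e : BExpr N)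
    (sg : Bool) : (toTr cls sg e).eval v w = (e.eval (pull cls v w) == sg) := by
  induction e generalizing sg with
  | var x =>
    simp only [toTr, BExpr.eval, pull]
    rcases cls x with l | h | b <;> rfl
  | neg e ih =>
    simp only [toTr, BExpr.eval, ih]
    cases e.eval _ <;> cases sg <;> rfl
  | and e f ihe ihf =>
    simp only [toTr, BExpr.eval, Tr.eval, ihe, ihf]
    cases e.eval _ <;> cases f.eval _ <;> cases sg <;> rfl
  | or e f ihe ihf =>
    simp only [toTr, BExpr.eval, Tr.eval, ihe, ihf]
    cases e.eval _ <;> cases f.eval _ <;> cases sg <;> rfl

theorem lights_toTr (cls : N → L ⊕ H ⊕ Bool) (e : BExpr N) (sg : Bool) :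
    (toTr cls sg e).lights.length = e.occ (fun x => (cls x).isLeft) := by
  induction e generalizing sg with
  | var x =>
    simp only [toTr, BExpr.occ]
    split <;> rename_i hx <;> simp [hx, Tr.lights]
  | neg e ih => simp only [toTr, BExpr.occ, ih]
  | and e f ihe ihf => simp only [toTr, BExpr.occ, Tr.lights, List.length_append, ihe, ihf]
  | or e f ihe ihf => simp only [toTr, BExpr.occ, Tr.lights, List.length_append, ihe, ihf]

theorem hcount_toTr [DecidableEq H] (cls : N → L ⊕ H ⊕ Bool) (h : H) (p : N → Bool)
    (hp : ∀ x, p x = true ↔ cls x = .inr (.inl h)) (e : BExpr N) (sg : Bool) :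
    (toTr cls sg e).hcount h = e.occ p := by
  induction e generalizing sg with
  | var x =>
    simp only [toTr, BExpr.occ]
    have := hp x
    rcases hx : cls x with l | h' | b
    · rw [hx] at this
      simp only [hcount]
      simp at this
      simp [this]
    · rw [hx] at this
      simp only [hcount]
      simp only [Sum.inr.injEq, Sum.inl.injEq] at this
      by_cases hh : h' = h
      · rw [if_pos hh, if_pos (this.mpr hh)]
      · rw [if_neg hh, if_neg (fun hc => hh (this.mp hc))]
    · rw [hx] at this
      simp only [hcount]
      simp at this
      simp [this]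
  | neg e ih => simp only [toTr, BExpr.occ, ih]
  | and e f ihe ihf => simp only [toTr, BExpr.occ, hcount, ihe, ihf]
  | or e f ihe ihf => simp only [toTr, BExpr.occ, hcount, ihe, ihf]

end Convert

section Lower

variable {N L W τ : Type} [DecidableEq N] [DecidableEq L] [DecidableEq W] [DecidableEq τ]

/-- Value of a bundle of `M` copies: a disjunction for positions, a conjunction for `z`. -/
def bundle (M : ℕ) (cp : Option W → ℕ → N) (v : N → Bool) : Option W → Bool
  | none => decide (∀ i, i < M → v (cp none i) = true)
  | some a => decide (∃ i, i < M ∧ v (cp (some a) i) = true)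

/-- The neutral value of the copies in a bundle. -/
def neu : Option W → Bool
  | none => true
  | some _ => false

theorem Sys.depends_some (S : Sys L W τ) (a : W) :
    ∃ v, ∃ w : Option W → Bool,
      ∀ b, S.FF v (fun h => if h = some a then b else w h) ↔ b = true := by
  refine ⟨kill S a a, hw false fun c => decide (S.tm c = S.tm a), ?_⟩
  intro b
  constructor
  · rintro (⟨j, hj⟩ | ⟨h, _⟩)
    · by_cases hja : j = S.tm a
      · subst hja
        rcases hj a rfl with h | h
        · exact absurd h (kill_left S a a)
        · simpa using h
      · exfalso
        rcases hj (S.gw j) (S.tm_gw j) with h | h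
        · unfold Sys.tr at h
          rw [S.lit_gw] at h
          simp only [kill_g] at h
          exact Bool.noConfusion h
        · have n1 : S.gw j ≠ a := by rintro rfl; exact hja (S.tm_gw j).symm
          simp only [Option.some.injEq, n1, if_false, hw_some, S.tm_gw, decide_eq_true_eq] at h
          exact hja h
    · simp at h
  · rintro rfl
    left
    refine ⟨S.tm a, fun c hca => Or.inr ?_⟩
    simp only [Option.some.injEq]
    split_ifs <;> simp [hca]

theorem Sys.depends_none (S : Sys L W τ) (hS : S.Good) :
    ∃ v, ∃ w : Option W → Bool, ∀ b, S.FF v (fun h => if h = none then b else w h) ↔ b = true := by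
  obtain ⟨v0, hD0, hB0⟩ := hS.c4
  let v : L → Bool := fun x => if x = S.g then true else v0 x
  have hv : ∀ x, x ≠ S.g → v x = v0 x := fun x hx => by simp [v, hx]
  have hD : ¬ S.D v := fun h => hD0 (S.D_congr hv h)
  have hB : S.B v := S.B_congr (fun x hx => (hv x hx).symm) hB0
  refine ⟨v, fun _ => false, ?_⟩
  intro b
  constructor
  · rintro (⟨j, hj⟩ | ⟨h, _⟩)
    · exfalso
      apply hD
      refine ⟨j, fun c hcj _ => ?_⟩
      rcases hj c hcj with h | h
      · exact h
      · simp at h
    · simpa using h
  · rintro rfl
    right
    exact ⟨by simp, by simp [v], hB⟩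

variable [Fintype W]

/-- An expression equivalent to the bundled gadget with at most `H * M + H + P` variable
occurrences, `H = card W + 1`, gives a cover of size at most `P`. -/
theorem mee_lower (S : Sys L W τ) (hS : S.Good) (M P : ℕ) (nl : L → N)
    (hnl : Function.Injective nl) (cp : Option W → ℕ → N)
    (hcp : ∀ h i h' i', i < M → i' < M → cp h i = cp h' i' → h = h' ∧ i = i')
    (hd : ∀ l h i, i < M → nl l ≠ cp h i)
    (F : BExpr N) (hF : ∀ v, F.eval v = true ↔ S.FF (fun l => v (nl l)) (bundle M cp v))
    (y : BExpr N) (hy : ∀ v, y.eval v = F.eval v)
    (hM : Fintype.card W + 1 + P + 1 ≤ M)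
    (hsize : y.size ≤ (Fintype.card W + 1) * M + (Fintype.card W + 1) + P) :
    ∃ I ⊆ S.J, S.Cover I ∧ I.card ≤ P := by
  classical
  -- each copy occurs
  have hocc : ∀ h i, i < M → y.occ (fun x => decide (x = cp h i)) ≠ 0 := by
    intro h i hi hzero
    obtain ⟨v, w, hvw⟩ : ∃ v, ∃ w : Option W → Bool,
        ∀ b, S.FF v (fun k => if k = h then b else w k) ↔ b = true := by
      cases h with
      | none => exact S.depends_none hS
      | some a => exact S.depends_some a
    -- assignment of the names
    let A : Bool → N → Bool := fun b x =>
      if x = cp h i then b else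
      if hx : ∃ l, nl l = x then v hx.choose else
      if hx : ∃ k : Option W × ℕ, k.2 < M ∧ cp k.1 k.2 = x then
        (if hx.choose.1 = h then neu h else w hx.choose.1) else false
    have hAl : ∀ b, (fun l => A b (nl l)) = v := by
      intro b
      funext l
      have h1 : nl l ≠ cp h i := hd l h i hi
      have h2 : ∃ l', nl l' = nl l := ⟨l, rfl⟩
      simp only [A, h1, if_false, h2, dif_pos]
      rw [hnl h2.choose_spec]
    have hAc : ∀ b k j, j < M → A b (cp k j) =
        if k = h then (if j = i then b else neu h) else w k := by
      intro b k j hj
      by_cases hkj : cp k j = cp h i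
      · obtain ⟨rfl, rfl⟩ := hcp _ _ _ _ hj hi hkj
        simp [A]
      · have h2 : ¬ ∃ l, nl l = cp k j := by
          rintro ⟨l, hl⟩
          exact hd l k j hj hl
        have h3 : ∃ k' : Option W × ℕ, k'.2 < M ∧ cp k'.1 k'.2 = cp k j := ⟨(k, j), hj, rfl⟩
        simp only [A, hkj, if_false, h2, dif_neg, not_false_eq_true, h3, dif_pos]
        have h4 := h3.choose_spec
        obtain ⟨h5, h6⟩ := hcp _ _ _ _ h4.1 hj h4.2
        rw [h5]
        by_cases hk : k = h
        · subst hk
          have : j ≠ i := by rintro rfl; exact hkj rfl
          simp [this]
        · simp [hk]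
    have hbun : ∀ b, bundle M cp (A b) = fun k => if k = h then b else w k := by
      intro b
      have hMpos : 0 < M := by omega
      funext k
      cases k with
      | none =>
        simp only [bundle]
        by_cases hk : none = h
        · subst hk
          rw [if_pos rfl, Bool.eq_iff_iff, decide_eq_true_eq]
          constructor
          · intro hall
            have := hall i hi
            rw [hAc b none i hi] at this
            simpa using this
          · rintro rfl j hj
            rw [hAc true none j hj]
            by_cases hji : j = i <;> simp [hji, neu]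
        · rw [if_neg hk, Bool.eq_iff_iff, decide_eq_true_eq]
          constructor
          · intro hall
            have := hall 0 hMpos
            rw [hAc b none 0 hMpos] at this
            simpa [hk] using this
          · intro hw0 j hj
            rw [hAc b none j hj]
            simp [hk, hw0]
      | some a =>
        simp only [bundle]
        by_cases hk : some a = h
        · subst hk
          rw [if_pos rfl, Bool.eq_iff_iff, decide_eq_true_eq]
          constructor
          · rintro ⟨j, hj, hval⟩
            rw [hAc b (some a) j hj] at hval
            by_cases hji : j = i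
            · simpa [hji] using hval
            · simp [hji, neu] at hval
          · rintro rfl
            exact ⟨i, hi, by rw [hAc true (some a) i hi]; simp⟩
        · rw [if_neg hk, Bool.eq_iff_iff, decide_eq_true_eq]
          constructor
          · rintro ⟨j, hj, hval⟩
            rw [hAc b (some a) j hj] at hval
            simpa [hk] using hval
          · intro hw0
            exact ⟨0, hMpos, by rw [hAc b (some a) 0 hMpos]; simp [hk, hw0]⟩
    have e1 : y.eval (A true) = true := by
      rw [hy, hF, hAl, hbun]
      exact (hvw true).mpr rfl
    have e2 : y.eval (A false) = false := by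
      rw [Bool.eq_false_iff]
      intro hc
      rw [hy, hF, hAl, hbun] at hc
      exact Bool.noConfusion ((hvw false).mp hc)
    have e3 : y.eval (A true) = y.eval (A false) := by
      apply BExpr.eval_congr hzero
      intro x hx
      simp only [decide_eq_false_iff_not] at hx
      simp [A, hx]
    rw [e1, e2] at e3
    exact Bool.noConfusion e3
  -- counting
  let isL : N → Bool := fun x => decide (∃ l, nl l = x)
  have hsum : y.occ isL + ∑ h : Option W, ∑ i ∈ Finset.range M,
      y.occ (fun x => decide (x = cp h i)) ≤ y.size := by
    have h1 := y.sum_occ_le (Finset.insertNone (Finset.univ ×ˢ Finset.range M :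
        Finset (Option W × ℕ)))
      (fun o => match o with
        | none => isL
        | some (h, i) => fun x => decide (x = cp h i)) (by
        intro x o1 ho1 o2 ho2 p1 p2
        cases o1 with
        | none =>
          cases o2 with
          | none => rfl
          | some k =>
            exfalso
            simp only [isL, decide_eq_true_eq] at p1 p2
            obtain ⟨l, hl⟩ := p1
            simp only [Finset.mem_insertNone, Option.mem_def, Option.some.injEq, forall_eq',
              Finset.mem_product, Finset.mem_univ, true_and, Finset.mem_range] at ho2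
            exact hd l k.1 k.2 ho2 (hl.trans p2)
        | some k =>
          simp only [Finset.mem_insertNone, Option.mem_def, Option.some.injEq, forall_eq',
            Finset.mem_product, Finset.mem_univ, true_and, Finset.mem_range] at ho1
          cases o2 with
          | none =>
            exfalso
            simp only [isL, decide_eq_true_eq] at p1 p2
            obtain ⟨l, hl⟩ := p2
            exact hd l k.1 k.2 ho1 (hl.trans p1)
          | some k' =>
            simp only [Finset.mem_insertNone, Option.mem_def, Option.some.injEq, forall_eq',
              Finset.mem_product, Finset.mem_univ, true_and, Finset.mem_range] at ho2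
            simp only [decide_eq_true_eq] at p1 p2
            obtain ⟨h5, h6⟩ := hcp _ _ _ _ ho1 ho2 (p1.symm.trans p2)
            exact congrArg some (Prod.ext h5 h6))
    rw [Finset.sum_insertNone, Finset.sum_product] at h1
    exact h1
  -- a copy which occurs once
  have hone : ∀ h : Option W, ∃ i, i < M ∧ y.occ (fun x => decide (x = cp h i)) = 1 := by
    intro h
    by_contra hcon
    push Not at hcon
    have h2 : ∀ i ∈ Finset.range M, 2 ≤ y.occ (fun x => decide (x = cp h i)) := by
      intro i hi
      rw [Finset.mem_range] at hi
      have := hocc h i hi
      have := hcon i hi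
      omega
    have h3 : M * 2 ≤ ∑ i ∈ Finset.range M, y.occ (fun x => decide (x = cp h i)) := by
      calc M * 2 = ∑ _i ∈ Finset.range M, 2 := by simp
        _ ≤ _ := Finset.sum_le_sum h2
    have h4 : ∀ k : Option W, M ≤ ∑ i ∈ Finset.range M, y.occ (fun x => decide (x = cp k i)) := by
      intro k
      calc M = ∑ _i ∈ Finset.range M, 1 := by simp
        _ ≤ _ := Finset.sum_le_sum (fun i hi => by
          rw [Finset.mem_range] at hi
          have := hocc k i hi
          omega)
    have h5 : (Fintype.card W + 1) * M + M ≤ ∑ k : Option W, ∑ i ∈ Finset.range M,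
        y.occ (fun x => decide (x = cp k i)) := by
      rw [← Finset.sum_erase_add _ _ (Finset.mem_univ h)]
      have h6 : Fintype.card W * M ≤ ∑ k ∈ Finset.univ.erase h, ∑ i ∈ Finset.range M,
          y.occ (fun x => decide (x = cp k i)) := by
        calc Fintype.card W * M = ∑ _k ∈ Finset.univ.erase h, M := by
              rw [Finset.sum_const, Finset.card_erase_of_mem (Finset.mem_univ h),
                Finset.card_univ, Fintype.card_option]
              simp
          _ ≤ _ := Finset.sum_le_sum (fun k _ => h4 k)
      nlinarith
    omega
  choose c hcM hc1 using hone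
  -- classification of the names
  let cls : N → L ⊕ Option W ⊕ Bool := fun x =>
    if hx : ∃ l, nl l = x then .inl hx.choose else
    if hx : ∃ h, cp h (c h) = x then .inr (.inl hx.choose) else
    .inr (.inr (decide (∃ i, i < M ∧ cp none i = x)))
  have cls_l : ∀ l, cls (nl l) = .inl l := by
    intro l
    have h2 : ∃ l', nl l' = nl l := ⟨l, rfl⟩
    simp only [cls, h2, dif_pos]
    rw [hnl h2.choose_spec]
  have cls_h : ∀ h, cls (cp h (c h)) = .inr (.inl h) := by
    intro h
    have h1 : ¬ ∃ l, nl l = cp h (c h) := by
      rintro ⟨l, hl⟩
      exact hd l h _ (hcM h) hl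
    have h2 : ∃ h', cp h' (c h') = cp h (c h) := ⟨h, rfl⟩
    simp only [cls, h1, dif_neg, not_false_eq_true, h2, dif_pos]
    rw [(hcp _ _ _ _ (hcM _) (hcM _) h2.choose_spec).1]
  have cls_c : ∀ h i, i < M → i ≠ c h → cls (cp h i) = .inr (.inr (neu h)) := by
    intro h i hi hne
    have h1 : ¬ ∃ l, nl l = cp h i := by
      rintro ⟨l, hl⟩
      exact hd l h _ hi hl
    have h2 : ¬ ∃ h', cp h' (c h') = cp h i := by
      rintro ⟨h', hh'⟩
      obtain ⟨rfl, h4⟩ := hcp _ _ _ _ (hcM _) hi hh'
      exact hne h4.symm
    simp only [cls, h1, dif_neg, not_false_eq_true, h2]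
    congr 2
    cases h with
    | none =>
      simp only [neu, decide_eq_true_eq]
      exact ⟨i, hi, rfl⟩
    | some a =>
      simp only [neu, decide_eq_false_iff_not]
      rintro ⟨j, hj, hji⟩
      exact absurd (hcp _ _ _ _ hj hi hji).1 (by simp)
  let t : Tr L (Option W) := toTr cls true y
  have hlights : t.lights.length = y.occ isL := by
    rw [lights_toTr]
    congr 1
    funext x
    simp only [isL, cls]
    by_cases h1 : ∃ l, nl l = x
    · simp [h1]
    · by_cases h2 : ∃ h, cp h (c h) = x <;> simp [h1, h2]
  have hcnt : ∀ h, t.hcount h = 1 := by
    intro h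
    rw [hcount_toTr cls h (fun x => decide (x = cp h (c h))), hc1]
    intro x
    rw [decide_eq_true_eq]
    constructor
    · rintro rfl
      exact cls_h h
    · intro hx
      simp only [cls] at hx
      split_ifs at hx with h1 h2
      · simp only [Sum.inr.injEq, Sum.inl.injEq] at hx
        rw [← h2.choose_spec, hx]
      · simp at hx
  have hcomp : Computes S t := by
    refine ⟨?_, hcnt⟩
    intro v w
    rw [eval_toTr]
    simp only [beq_true]
    rw [hy, hF]
    have e1 : (fun l => pull cls v w (nl l)) = v := by
      funext l
      simp [pull, cls_l]
    have hval : ∀ h i, i < M → pull cls v w (cp h i) = if i = c h then w h else neu h := by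
      intro h i hi
      by_cases hic : i = c h
      · subst hic
        simp [pull, cls_h]
      · simp [pull, cls_c h i hi hic, hic]
    have e2 : bundle M cp (pull cls v w) = w := by
      funext h
      cases h with
      | none =>
        simp only [bundle]
        rw [Bool.eq_iff_iff, decide_eq_true_eq]
        constructor
        · intro hall
          have := hall (c none) (hcM none)
          rw [hval none _ (hcM none)] at this
          simpa using this
        · intro hw0 i hi
          rw [hval none i hi]
          split_ifs
          · exact hw0
          · rfl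
      | some a =>
        simp only [bundle]
        rw [Bool.eq_iff_iff, decide_eq_true_eq]
        constructor
        · rintro ⟨i, hi, hi2⟩
          rw [hval (some a) i hi] at hi2
          split_ifs at hi2
          · exact hi2
          · exact Bool.noConfusion hi2
        · intro hw0
          refine ⟨c (some a), hcM _, ?_⟩
          rw [hval (some a) _ (hcM _)]
          simpa using hw0
    rw [e1, e2]
  obtain ⟨I, hIJ, hcov, hcard⟩ := hcomp.lower_bound hS
  refine ⟨I, hIJ, hcov, ?_⟩
  rw [hlights] at hcard
  have h7 : (Fintype.card W + 1) * M ≤ ∑ h : Option W, ∑ i ∈ Finset.range M,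
      y.occ (fun x => decide (x = cp h i)) := by
    calc (Fintype.card W + 1) * M = ∑ _h : Option W, ∑ _i ∈ Finset.range M, 1 := by
          simp
      _ ≤ _ := Finset.sum_le_sum (fun h _ => Finset.sum_le_sum (fun i hi => by
        rw [Finset.mem_range] at hi
        have := hocc h i hi
        omega))
  omega

end Lower

end Pool.Agent.Helper64.MEE
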