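import Pool.Agent.Helper64.MEE.Enc

/-!
The reduction from `B₂` to the minimum equivalent expression problem, and its correctness.
-/

namespace Pool.Agent.Helper64.MEE

/-- Total number of blocks. -/
def offT {L : Type} (Ts : List (List (L × Bool))) : ℕ := (Ts.map (fun T => T.length + 1)).sum

theorem off_length {L : Type} (Ts : List (List (L × Bool))) : off Ts Ts.length = offT Ts := by
  unfold off offT
  rw [List.take_length]

@[simp] theorem offT_append {L : Type} (A B : List (List (L × Bool))) :
    offT (A ++ B) = offT A + offT B := by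
  simp [offT]

@[simp] theorem offT_nil {L : Type} : offT ([] : List (List (L × Bool))) = 0 := rfl

@[simp] theorem offT_cons {L : Type} (T : List (L × Bool)) (Ts : List (List (L × Bool))) :
    offT (T :: Ts) = (T.length + 1) + offT Ts := by
  simp [offT]

theorem offT_tms (φ : BExpr (ℕ ⊕ ℕ)) (p : ℕ) : offT (tms φ p) ≤ 20 * nodes φ := by
  induction φ generalizing p with
  | var x => cases x <;> simp [tms, leafX, leafY, nodes]
  | neg e ih =>
    have := ih p
    simp only [tms, nodeNeg, offT_append, offT_cons, offT_nil, nodes, List.length_cons,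
      List.length_nil]
    omega
  | and e f ihe ihf =>
    have := ihe (p + nodes f)
    have := ihf p
    simp only [tms, nodeAnd, offT_append, offT_cons, offT_nil, nodes, List.length_cons,
      List.length_nil]
    omega
  | or e f ihe ihf =>
    have := ihe (p + nodes f)
    have := ihf p
    simp only [tms, nodeOr, offT_append, offT_cons, offT_nil, nodes, List.length_cons,
      List.length_nil]
    omega

theorem exs_length (φ : BExpr (ℕ ⊕ ℕ)) : (exs φ).length ≤ nodes φ := by
  induction φ with
  | var x => cases x <;> simp [exs, nodes]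
  | neg e ih => simp only [exs, nodes]; omega
  | and e f ihe ihf => simp only [exs, nodes, List.length_append]; omega
  | or e f ihe ihf => simp only [exs, nodes, List.length_append]; omega

theorem nodes_le (φ : BExpr (ℕ ⊕ ℕ)) : nodes φ ≤ (encB2 φ).length := by
  unfold encB2
  induction φ with
  | var x => cases x <;> simp [encE, nodes]
  | neg e ih => simp only [encE, nodes, List.length_cons]; omega
  | and e f ihe ihf => simp only [encE, nodes, List.length_cons, List.length_append]; omega
  | or e f ihe ihf => simp only [encE, nodes, List.length_cons, List.length_append]; omega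

theorem nodes_pos {α : Type} (φ : BExpr α) : 0 < nodes φ := by
  cases φ <;> simp [nodes]

/-- Number of copies of each heavy variable. -/
def mOf (φ : BExpr (ℕ ⊕ ℕ)) : ℕ := 32 * (encB2 φ).length

/-- The expression of the reduction. -/
def redF (φ : BExpr (ℕ ⊕ ℕ)) : BExpr ℕ := termsE nl hn (mOf φ) LN.g (cand φ) LN.a0 0 (allT φ)

/-- The bound of the reduction. -/
def redK (φ : BExpr (ℕ ⊕ ℕ)) : ℕ :=
  (offT (allT φ) + 1) * mOf φ + (offT (allT φ) + 1) + ((exs φ).toFinset.card + 1)

/-- The reduction. -/
def red (φ : BExpr (ℕ ⊕ ℕ)) : BExpr ℕ × ℕ := (redF φ, redK φ)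

theorem mOf_large (φ : BExpr (ℕ ⊕ ℕ)) :
    offT (allT φ) + 1 + ((exs φ).toFinset.card + 1) + 1 ≤ mOf φ := by
  have h1 := offT_tms φ 0
  have h2 := exs_length φ
  have h3 := nodes_le φ
  have h4 := nodes_pos φ
  have h5 := List.toFinset_card_le (exs φ)
  simp only [allT, offT_append, offT_cons, offT_nil, List.length_cons, List.length_nil, mOf]
  omega

/-- Correctness of the reduction. -/
theorem red_correct (φ : BExpr (ℕ ⊕ ℕ)) : B2 φ ↔ MEE (red φ) := by
  rw [← cover_iff_B2]
  have h := mee_iff (allT_ok φ) (allT_good φ) nl nl_inj hn hn_inj nl_ne_hn (mOf φ)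
    ((exs φ).toFinset.card + 1) (by rw [off_length]; exact mOf_large φ)
  rw [off_length] at h
  unfold MEE red redF redK
  exact h.symm

end Pool.Agent.Helper64.MEE
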