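import Pool.Agent.Helper64.MEE.Cmd
import Pool.Agent.Helper64.MEE.Red

/-!
The stacks of the program, states, and basic rules.
-/

set_option linter.unusedSectionVars false
set_option linter.unusedSimpArgs false

namespace Pool.Agent.Helper64.MEE

open Stk

/-- Names of the stacks. -/
inductive Key : Type
  | I | O | R | P | Z | M | MM | N | T | W | WW | C | Q | A | B | E | EE | F | G | U | UU
  deriving DecidableEq

instance : Fintype Key where
  elems := {.I, .O, .R, .P, .Z, .M, .MM, .N, .T, .W, .WW, .C, .Q, .A, .B, .E, .EE, .F, .G, .U, .UU}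
  complete a := by cases a <;> decide

/-- Programs. -/
abbrev Prog := Cmd Key Sy

/-- States: the contents of all stacks, top first. -/
@[ext] structure St : Type where
  i : List Sy := []
  o : List Sy := []
  r : List Sy := []
  p : List Sy := []
  z : List Sy := []
  m : List Sy := []
  mm : List Sy := []
  n : List Sy := []
  t : List Sy := []
  w : List Sy := []
  ww : List Sy := []
  c : List Sy := []
  q : List Sy := []
  a : List Sy := []
  b : List Sy := []
  e : List Sy := []
  ee : List Sy := []
  f : List Sy := []
  g : List Sy := []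
  u : List Sy := []
  uu : List Sy := []

namespace St

/-- The stack with a given name. -/
def fn (s : St) : Key → List Sy
  | .I => s.i | .O => s.o | .R => s.r | .P => s.p | .Z => s.z | .M => s.m | .MM => s.mm
  | .N => s.n | .T => s.t | .W => s.w | .WW => s.ww | .C => s.c | .Q => s.q | .A => s.a
  | .B => s.b | .E => s.e | .EE => s.ee | .F => s.f | .G => s.g | .U => s.u | .UU => s.uu

/-- Change of one stack. -/
def put (s : St) : Key → List Sy → St
  | .I, l => {s with i := l} | .O, l => {s with o := l} | .R, l => {s with r := l}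
  | .P, l => {s with p := l} | .Z, l => {s with z := l} | .M, l => {s with m := l}
  | .MM, l => {s with mm := l} | .N, l => {s with n := l} | .T, l => {s with t := l}
  | .W, l => {s with w := l} | .WW, l => {s with ww := l} | .C, l => {s with c := l}
  | .Q, l => {s with q := l} | .A, l => {s with a := l} | .B, l => {s with b := l}
  | .E, l => {s with e := l} | .EE, l => {s with ee := l} | .F, l => {s with f := l}
  | .G, l => {s with g := l} | .U, l => {s with u := l} | .UU, l => {s with uu := l}

theorem fn_put (s : St) (k : Key) (l : List Sy) : (s.put k l).fn = Function.update s.fn k l := by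
  funext j
  cases k <;> cases j <;> rfl

theorem ext_fn {s s' : St} (h : ∀ k, s.fn k = s'.fn k) : s = s' := by
  ext1
  · exact h .I
  · exact h .O
  · exact h .R
  · exact h .P
  · exact h .Z
  · exact h .M
  · exact h .MM
  · exact h .N
  · exact h .T
  · exact h .W
  · exact h .WW
  · exact h .C
  · exact h .Q
  · exact h .A
  · exact h .B
  · exact h .E
  · exact h .EE
  · exact h .F
  · exact h .G
  · exact h .U
  · exact h .UU

@[simp] theorem fn_put_self (s : St) (k : Key) (l : List Sy) : (s.put k l).fn k = l := by
  rw [fn_put]; simp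

theorem fn_put_ne (s : St) {k j : Key} (h : j ≠ k) (l : List Sy) :
    (s.put k l).fn j = s.fn j := by
  rw [fn_put]; simp [h]

@[simp] theorem put_put_self (s : St) (k : Key) (l l' : List Sy) :
    (s.put k l).put k l' = s.put k l' := by
  cases k <;> rfl

@[simp] theorem put_fn_self (s : St) (k : Key) : s.put k (s.fn k) = s := by
  cases k <;> rfl

theorem put_comm (s : St) {k j : Key} (h : k ≠ j) (l l' : List Sy) :
    (s.put k l).put j l' = (s.put j l').put k l := by
  apply ext_fn
  intro x
  by_cases h1 : x = k
  · subst h1
    rw [fn_put_self, fn_put_ne _ h, fn_put_self]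
  · by_cases h2 : x = j
    · subst h2
      rw [fn_put_self, fn_put_ne _ h1, fn_put_self]
    · rw [fn_put_ne _ h2, fn_put_ne _ h1, fn_put_ne _ h1, fn_put_ne _ h2]

end St

/-- `Ru c s s' B`: the command takes `s` to `s'` in at most `B` steps. -/
def Ru (c : Prog) (s s' : St) (B : ℕ) : Prop := ∃ t, t ≤ B ∧ Runs c s.fn s'.fn t

theorem Ru.mono {c : Prog} {s s' : St} {B B' : ℕ} (h : Ru c s s' B) (hB : B ≤ B') :
    Ru c s s' B' := by
  obtain ⟨t, ht, hr⟩ := h
  exact ⟨t, ht.trans hB, hr⟩

theorem Ru.conv {c : Prog} {s s' s'' : St} {B B' : ℕ} (h : Ru c s s' B) (he : s' = s'')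
    (hB : B ≤ B') : Ru c s s'' B' := by
  subst he
  exact h.mono hB

theorem Ru.skip (s : St) : Ru .skip s s 1 := ⟨1, le_rfl, .skip _⟩

theorem Ru.push (k : Key) (a : Sy) (s : St) : Ru (.push k a) s (s.put k (a :: s.fn k)) 1 :=
  ⟨1, le_rfl, by rw [St.fn_put]; exact .push k a _⟩

theorem Ru.seq {c d : Prog} {s s' s'' : St} {B B' : ℕ} (h : Ru c s s' B) (h' : Ru d s' s'' B') :
    Ru (.seq c d) s s'' (B + B') := by
  obtain ⟨t, ht, hr⟩ := h
  obtain ⟨t', ht', hr'⟩ := h'
  exact ⟨t + t', by omega, .seq hr hr'⟩

theorem Ru.loop_nil {k : Key} {stop : Sy → Bool} {body : Sy → Prog} {s : St} (h : s.fn k = []) :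
    Ru (.loop k stop body) s s 1 := ⟨1, le_rfl, .loop_nil h⟩

theorem Ru.loop_stop {k : Key} {stop : Sy → Bool} {body : Sy → Prog} {s : St} {a : Sy}
    {l : List Sy} (h : s.fn k = a :: l) (ha : stop a = true) :
    Ru (.loop k stop body) s (s.put k l) 1 :=
  ⟨1, le_rfl, by rw [St.fn_put]; exact .loop_stop h ha⟩

theorem Ru.loop_step {k : Key} {stop : Sy → Bool} {body : Sy → Prog} {s s' s'' : St} {a : Sy}
    {l : List Sy} {B B' : ℕ} (h : s.fn k = a :: l) (ha : stop a = false)
    (h1 : Ru (body a) (s.put k l) s' B) (h2 : Ru (.loop k stop body) s' s'' B') :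
    Ru (.loop k stop body) s s'' (1 + B + B') := by
  obtain ⟨t, ht, hr⟩ := h1
  obtain ⟨t', ht', hr'⟩ := h2
  rw [St.fn_put] at hr
  exact ⟨1 + t + t', by omega, .loop_step h ha hr hr'⟩

theorem Ru.cas_nil {k : Key} {e : Prog} {body : Sy → Prog} {s s' : St} {B : ℕ}
    (h : s.fn k = []) (h1 : Ru e s s' B) : Ru (.cas k e body) s s' (1 + B) := by
  obtain ⟨t, ht, hr⟩ := h1
  exact ⟨1 + t, by omega, .cas_nil h hr⟩

theorem Ru.cas_cons {k : Key} {e : Prog} {body : Sy → Prog} {s s' : St} {a : Sy}
    {l : List Sy} {B : ℕ} (h : s.fn k = a :: l) (h1 : Ru (body a) (s.put k l) s' B) :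
    Ru (.cas k e body) s s' (1 + B) := by
  obtain ⟨t, ht, hr⟩ := h1
  rw [St.fn_put] at hr
  exact ⟨1 + t, by omega, .cas_cons h hr⟩

/-- Several full iterations of a loop which never stops on a symbol. -/
inductive It (k : Key) (body : Sy → Prog) : St → St → ℕ → Prop
  | refl (s : St) : It k body s s 0
  | step {s s' s'' : St} {a : Sy} {l : List Sy} {B B' : ℕ} (h : s.fn k = a :: l)
      (h1 : Ru (body a) (s.put k l) s' B) (h2 : It k body s' s'' B') :
      It k body s s'' (1 + B + B')

theorem It.one {k : Key} {body : Sy → Prog} {s s' : St} {a : Sy} {l : List Sy} {B : ℕ}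
    (h : s.fn k = a :: l) (h1 : Ru (body a) (s.put k l) s' B) : It k body s s' (1 + B + 0) :=
  .step h h1 (.refl _)

theorem It.trans {k : Key} {body : Sy → Prog} {s s' s'' : St} {B B' : ℕ} (h : It k body s s' B)
    (h' : It k body s' s'' B') : It k body s s'' (B + B') := by
  induction h with
  | refl s => simpa using h'
  | @step s s1 s2 a l B B1 h h1 h2 ih =>
    have := It.step h h1 (ih h')
    have e : 1 + B + (B1 + B') = 1 + B + B1 + B' := by ring
    rw [e] at this
    exact this

/-- The test which never stops. -/
def never : Sy → Bool := fun _ => false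

/-- A loop which drains the stack `k`. -/
def drain (k : Key) (body : Sy → Prog) : Prog := .loop k never body

theorem It.run {k : Key} {body : Sy → Prog} {s s' s'' : St} {B B' : ℕ} (h : It k body s s' B)
    (h' : Ru (drain k body) s' s'' B') : Ru (drain k body) s s'' (B + B') := by
  induction h with
  | refl s => simpa using h'
  | @step s s1 s2 a l B B1 h h1 h2 ih =>
    have := Ru.loop_step (stop := never) h rfl h1 (ih h')
    have e : 1 + B + (B1 + B') = 1 + B + B1 + B' := by ring
    rw [e] at this
    exact this

theorem It.done {k : Key} {body : Sy → Prog} {s s' : St} {B : ℕ} (h : It k body s s' B)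
    (h' : s'.fn k = []) : Ru (drain k body) s s' (B + 1) :=
  h.run (Ru.loop_nil h')

/-- Move a stack onto another one (reversing it). -/
def move (k k' : Key) : Prog := drain k (fun a => .push k' a)

theorem ru_move {k k' : Key} (hk : k ≠ k') (s : St) :
    Ru (move k k') s ((s.put k []).put k' ((s.fn k).reverse ++ s.fn k'))
      (2 * (s.fn k).length + 1) := by
  generalize hl : s.fn k = l
  induction l generalizing s with
  | nil =>
    have h1 : (s.put k []).put k' (List.reverse [] ++ s.fn k') = s := by
      simp only [List.reverse_nil, List.nil_append]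
      rw [← hl, St.put_fn_self, St.put_fn_self]
    rw [h1]
    exact Ru.loop_nil hl
  | cons a l ih =>
    have h1 := Ru.push k' a (s.put k l)
    have h2 := ih ((s.put k l).put k' (a :: (s.put k l).fn k'))
      (by rw [St.fn_put_ne _ hk, St.fn_put_self])
    have h3 := Ru.loop_step (stop := never) (body := fun a => .push k' a) hl rfl h1 h2
    have e : (((s.put k l).put k' (a :: (s.put k l).fn k')).put k []).put k'
        (l.reverse ++ ((s.put k l).put k' (a :: (s.put k l).fn k')).fn k')
        = (s.put k []).put k' ((a :: l).reverse ++ s.fn k') := by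
      rw [St.fn_put_self, St.fn_put_ne _ hk.symm, St.put_comm _ hk.symm, St.put_put_self,
        St.put_put_self]
      simp
    rw [e] at h3
    refine h3.mono ?_
    simp only [List.length_cons]
    omega

/-- Copy the stack `k` to the stack `out` (reversed), using `T`. -/
def copy (k out : Key) : Prog :=
  .seq (drain k (fun a => .seq (.push out a) (.push .T a))) (move .T k)

theorem ru_copy_aux {k out : Key} (h1 : k ≠ out) (h2 : k ≠ .T) (h3 : out ≠ .T) (s : St) :
    Ru (drain k (fun a => .seq (.push out a) (.push .T a))) s
      (((s.put k []).put out ((s.fn k).reverse ++ s.fn out)).put .T ((s.fn k).reverse ++ s.fn .T))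
      (3 * (s.fn k).length + 1) := by
  generalize hl : s.fn k = l
  induction l generalizing s with
  | nil =>
    have e : ((s.put k []).put out (List.reverse [] ++ s.fn out)).put .T
        (List.reverse [] ++ s.fn .T) = s := by
      simp only [List.reverse_nil, List.nil_append]
      rw [← hl, St.put_fn_self, St.put_fn_self, St.put_fn_self]
    rw [e]
    exact Ru.loop_nil hl
  | cons a l ih =>
    have e1 := Ru.push out a (s.put k l)
    have e2 := Ru.push .T a ((s.put k l).put out (a :: (s.put k l).fn out))
    have e3 := ih (((s.put k l).put out (a :: (s.put k l).fn out)).put .T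
      (a :: ((s.put k l).put out (a :: (s.put k l).fn out)).fn .T))
      (by rw [St.fn_put_ne _ h2, St.fn_put_ne _ h1, St.fn_put_self])
    have e4 := Ru.loop_step (stop := never)
      (body := fun a => .seq (.push out a) (.push .T a)) hl rfl (e1.seq e2) e3
    refine e4.conv ?_ (by simp only [List.length_cons]; omega)
    apply St.ext_fn
    intro x
    simp only [St.fn_put, Function.update_apply]
    by_cases x1 : x = .T
    · subst x1; simp [h2.symm, h3.symm]
    · by_cases x2 : x = out
      · subst x2; simp [h1.symm, x1]
      · by_cases x3 : x = k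
        · subst x3; simp [x1, x2]
        · simp [x1, x2, x3]

theorem ru_copy {k out : Key} (h1 : k ≠ out) (h2 : k ≠ .T) (h3 : out ≠ .T) (s : St)
    (hT : s.t = []) :
    Ru (copy k out) s (s.put out ((s.fn k).reverse ++ s.fn out)) (5 * (s.fn k).length + 2) := by
  have e1 := ru_copy_aux h1 h2 h3 s
  have e2 := ru_move (k := .T) (k' := k) h2.symm
    (((s.put k []).put out ((s.fn k).reverse ++ s.fn out)).put .T ((s.fn k).reverse ++ s.fn .T))
  have hT' : s.fn .T = [] := hT
  have e3 := e1.seq e2
  rw [St.fn_put_self, hT', List.append_nil, List.length_reverse] at e3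
  refine e3.conv ?_ (by omega)
  apply St.ext_fn
  intro x
  simp only [St.fn_put, Function.update_apply]
  by_cases x1 : x = .T
  · subst x1; simp [h2.symm, h3.symm, hT']
  · by_cases x2 : x = out
    · subst x2; simp [h1.symm, x1]
    · by_cases x3 : x = k
      · subst x3; simp [x1, x2]
      · simp [x1, x2, x3]

/-- Push a word onto a stack, first letter first. -/
def emits (l : List Sy) (out : Key) : Prog := l.foldr (fun a c => .seq (.push out a) c) .skip

theorem ru_emits (l : List Sy) (out : Key) (s : St) :
    Ru (emits l out) s (s.put out (l.reverse ++ s.fn out)) (l.length + 1) := by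
  induction l generalizing s with
  | nil =>
    have : s.put out (List.reverse [] ++ s.fn out) = s := by simp
    rw [this]
    exact Ru.skip s
  | cons a l ih =>
    have h := (Ru.push out a s).seq (ih (s.put out (a :: s.fn out)))
    rw [St.fn_put_self, St.put_put_self] at h
    refine h.conv ?_ (by simp only [List.length_cons]; omega)
    simp

/-- Empty a stack. -/
def clear (k : Key) : Prog := drain k (fun _ => .skip)

theorem ru_clear (k : Key) (s : St) : Ru (clear k) s (s.put k []) (2 * (s.fn k).length + 1) := by
  generalize hl : s.fn k = l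
  induction l generalizing s with
  | nil =>
    have h1 : s.put k [] = s := by rw [← hl, St.put_fn_self]
    rw [h1]
    exact Ru.loop_nil hl
  | cons a l ih =>
    have h2 := ih (s.put k l) (by rw [St.fn_put_self])
    have h3 := Ru.loop_step (stop := never) (body := fun _ => .skip) hl rfl (Ru.skip _) h2
    rw [St.put_put_self] at h3
    exact h3.mono (by simp only [List.length_cons]; omega)

end Pool.Agent.Helper64.MEE
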