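import Pool.Agent.Helper64.MEE.Loop

/-!
The main loop, the initial and the final part of the program.
-/

set_option linter.unusedSectionVars false
set_option linter.unusedSimpArgs false

namespace Pool.Agent.Helper64.MEE

open Stk

/-- Iterations of the main loop within a time bound. -/
def ItLe (s s' : St) (B : ℕ) : Prop := ∃ B', B' ≤ B ∧ It .R tokBody s s' B'

theorem ItLe.trans {s s' s'' : St} {B B' : ℕ} (h : ItLe s s' B) (h' : ItLe s' s'' B') :
    ItLe s s'' (B + B') := by
  obtain ⟨b, hb, h1⟩ := h
  obtain ⟨b', hb', h2⟩ := h'
  exact ⟨b + b', by omega, h1.trans h2⟩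

theorem ItLe.conv {s s' s'' : St} {B B' : ℕ} (h : ItLe s s' B) (he : s' = s'') (hB : B ≤ B') :
    ItLe s s'' B' := by
  subst he
  obtain ⟨b, hb, h1⟩ := h
  exact ⟨b, by omega, h1⟩

theorem ItLe.one {s s' : St} {a : Sy} {l : List Sy} {B : ℕ} (h : s.r = a :: l)
    (h1 : Ru (tokBody a) {s with r := l} s' B) : ItLe s s' (B + 1) :=
  ⟨1 + B + 0, by omega, It.one (k := .R) h h1⟩

/-- Insertion of a list of numbers. -/
def insAll (L : List ℕ) (xs : List ℕ) : List ℕ := xs.foldl insL L

theorem encL_insL (L : List ℕ) (n : ℕ) : (encL L).length ≤ (encL (insL L n)).length := by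
  unfold insL
  split_ifs
  · exact le_rfl
  · simp [encL]; omega

theorem encL_insAll (L xs : List ℕ) : (encL L).length ≤ (encL (insAll L xs)).length := by
  induction xs generalizing L with
  | nil => exact le_rfl
  | cons x xs ih => exact (encL_insL L x).trans (ih _)

theorem insAll_append (L xs ys : List ℕ) : insAll L (xs ++ ys) = insAll (insAll L xs) ys := by
  simp [insAll]

theorem it_digits (l : List Sy) (hl : ∀ a ∈ l, a = .b0 ∨ a = .b1) (M : ℕ)
    (r p z q w : List Sy) (n c : ℕ) (L : List ℕ) (k : ℕ) :
    ItLe (cfg M (l ++ r) p z q w n c L k) (cfg M r p z q (l.reverse ++ w) n c L k)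
      (2 * l.length) := by
  induction l generalizing w with
  | nil => exact ⟨0, by simp, It.refl _⟩
  | cons a l ih =>
    have h1 : Ru (tokBody a) (cfg M (l ++ r) p z q w n c L k)
        (cfg M (l ++ r) p z q (a :: w) n c L k) 1 := by
      rcases hl a (by simp) with rfl | rfl
      · exact Ru.push .W .b0 _
      · exact Ru.push .W .b1 _
    have h2 := ih (fun b hb => hl b (by simp [hb])) (a :: w)
    have h3 : ItLe (cfg M (a :: l ++ r) p z q w n c L k) (cfg M (l ++ r) p z q (a :: w) n c L k)
        (1 + 1) := ItLe.one (a := a) (l := l ++ r) rfl h1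
    refine (h3.trans h2).conv ?_ (by simp only [List.length_cons]; omega)
    simp

theorem it_name (n' : ℕ) (M : ℕ) (r p z q : List Sy) (n c : ℕ) (L : List ℕ) (k : ℕ) :
    ItLe (cfg M ((encNat n').reverse ++ r) p z q [] n c L k)
      (cfg M r p z q (encNat n') n c L k) (2 * (encNat n').length) := by
  have h := it_digits (encNat n').reverse (by
    intro a ha
    rw [List.mem_reverse] at ha
    obtain ⟨b, _, rfl⟩ := List.mem_map.mp ha
    cases b
    · exact Or.inl rfl
    · exact Or.inr rfl) M r p z q [] n c L k
  refine h.conv ?_ (by simp)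
  simp

theorem main_it (G M : ℕ) (φ : BExpr (ℕ ⊕ ℕ)) : ∀ (rest p z q : List Sy) (N c : ℕ) (L : List ℕ)
    (k : ℕ), (encB2 φ).length ≤ G → c + nodes φ ≤ G → N + offT (tms φ c) * M ≤ G →
    (encL (insAll L (exs φ))).length ≤ G →
    ItLe (cfg M ((encB2 φ).reverse ++ rest) p z q [] N c L k)
      (cfg M rest ((preT M N (tms φ c)).reverse ++ p) ((zstr (exs φ)).reverse ++ z)
        (List.replicate (c + nodes φ) .b1 ++ .sep :: q) [] (N + offT (tms φ c) * M) (c + nodes φ)
        (insAll L (exs φ)) (k + offT (tms φ c) * (M + 1)))
      ((encB2 φ).length * (cT G + 1)) := by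
  have hcT : 1 ≤ cT G := by unfold cT; omega
  induction φ with
  | var x =>
    intro rest p z q N c L k h1 h2 h3 h4
    cases x with
    | inl n =>
      have e0 : encB2 (.var (.inl n)) = .x :: encNat n := rfl
      rw [e0] at h1 ⊢
      simp only [List.length_cons] at h1
      simp only [nodes] at h2
      simp only [tms] at h3 ⊢
      have hoff : offT (leafX n (c + 1)) = 20 := rfl
      rw [hoff] at h3 ⊢
      have h5 : (encL L).length ≤ G := (encL_insAll L _).trans h4
      have e1 := it_name n M (.x :: rest) p z q N c L k
      have e2 := ru_tokX G M n rest p z q N c L k (by omega) h5 h2 h3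
      have e3 : ItLe (cfg M (.x :: rest) p z q (encNat n) N c L k) _ _ :=
        ItLe.one (a := .x) (l := rest) rfl e2
      have e4 := e1.trans e3
      have e5 : (Sy.x :: encNat n).reverse ++ rest = (encNat n).reverse ++ Sy.x :: rest := by simp
      rw [e5]
      refine e4.conv rfl ?_
      simp only [List.length_cons]
      nlinarith
    | inr n =>
      have e0 : encB2 (.var (.inr n)) = .y :: encNat n := rfl
      rw [e0] at h1 ⊢
      simp only [List.length_cons] at h1
      simp only [nodes] at h2
      simp only [tms] at h3 ⊢
      have hoff : offT (leafY n (c + 1)) = 8 := rfl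
      rw [hoff] at h3 ⊢
      have e1 := it_name n M (.y :: rest) p z q N c L k
      have e2 := ru_tokY G M n rest p z q N c L k (by omega) h2 h3
      have e3 : ItLe (cfg M (.y :: rest) p z q (encNat n) N c L k) _ _ :=
        ItLe.one (a := .y) (l := rest) rfl e2
      have e4 := e1.trans e3
      have e5 : (Sy.y :: encNat n).reverse ++ rest = (encNat n).reverse ++ Sy.y :: rest := by simp
      rw [e5]
      refine e4.conv rfl ?_
      simp only [List.length_cons]
      nlinarith
  | neg e ih =>
    intro rest p z q N c L k h1 h2 h3 h4
    have e0 : encB2 (.neg e) = .neg :: encB2 e := rfl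
    rw [e0] at h1 ⊢
    simp only [List.length_cons] at h1
    simp only [nodes] at h2 ⊢
    simp only [tms, offT_append] at h3 ⊢
    have hoff : offT (nodeNeg (c + nodes e + 1) (c + nodes e)) = 8 := rfl
    rw [hoff] at h3 ⊢
    simp only [exs] at h4 ⊢
    rw [add_mul] at h3
    have e1 := ih (.neg :: rest) p z q N c L k (by omega) (by omega) (by omega) h4
    have e2 := ru_tokNeg G M rest ((preT M N (tms e c)).reverse ++ p)
      ((zstr (exs e)).reverse ++ z) q (N + offT (tms e c) * M) (c + nodes e)
      (insAll L (exs e)) (k + offT (tms e c) * (M + 1)) (by omega) (by omega)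
    have e3 : ItLe (cfg M (.neg :: rest) ((preT M N (tms e c)).reverse ++ p)
        ((zstr (exs e)).reverse ++ z) (List.replicate (c + nodes e) .b1 ++ .sep :: q) []
        (N + offT (tms e c) * M) (c + nodes e) (insAll L (exs e))
        (k + offT (tms e c) * (M + 1))) _ _ :=
      ItLe.one (a := .neg) (l := rest) rfl e2
    have e5 : (Sy.neg :: encB2 e).reverse ++ rest = (encB2 e).reverse ++ Sy.neg :: rest := by simp
    rw [e5]
    refine (e1.trans e3).conv ?_ ?_
    · rw [preT_append]
      have a1 : N + offT (tms e c) * M + 8 * M = N + (offT (tms e c) + 8) * M := by ring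
      have a2 : k + offT (tms e c) * (M + 1) + 8 * (M + 1)
          = k + (offT (tms e c) + 8) * (M + 1) := by ring
      have a3 : c + (nodes e + 1) = c + nodes e + 1 := by ring
      rw [a1, a2, a3]
      congr 1
      simp
    · simp only [List.length_cons]
      nlinarith
  | and e f ihe ihf =>
    intro rest p z q N c L k h1 h2 h3 h4
    have e0 : encB2 (.and e f) = .and :: (encB2 e ++ encB2 f) := rfl
    rw [e0] at h1 ⊢
    simp only [List.length_cons, List.length_append] at h1
    simp only [nodes] at h2 ⊢
    simp only [tms, offT_append] at h3 ⊢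
    have hoff : offT (nodeAnd (c + nodes f + nodes e + 1) (c + nodes f + nodes e) (c + nodes f))
      = 13 := rfl
    rw [hoff] at h3 ⊢
    simp only [exs, insAll_append] at h4 ⊢
    rw [add_mul, add_mul] at h3
    have h5 : (encL (insAll L (exs f))).length ≤ G := (encL_insAll _ _).trans h4
    have e1 := ihf ((encB2 e).reverse ++ .and :: rest) p z q N c L k (by omega) (by omega)
      (by omega) h5
    have e2 := ihe (.and :: rest) ((preT M N (tms f c)).reverse ++ p)
      ((zstr (exs f)).reverse ++ z) (List.replicate (c + nodes f) .b1 ++ .sep :: q)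
      (N + offT (tms f c) * M) (c + nodes f) (insAll L (exs f)) (k + offT (tms f c) * (M + 1))
      (by omega) (by omega) (by omega) h4
    have e3 := ru_tokBin G M andT
      (nodeAnd (c + nodes f + nodes e + 1) (c + nodes f + nodes e) (c + nodes f)) rest
      ((preT M (N + offT (tms f c) * M) (tms e (c + nodes f))).reverse ++
        ((preT M N (tms f c)).reverse ++ p))
      ((zstr (exs e)).reverse ++ ((zstr (exs f)).reverse ++ z)) q
      (N + offT (tms f c) * M + offT (tms e (c + nodes f)) * M) (c + nodes f + nodes e)
      (c + nodes f) (insAll (insAll L (exs f)) (exs e))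
      (k + offT (tms f c) * (M + 1) + offT (tms e (c + nodes f)) * (M + 1)) rfl
      (by
        intro s ha hb hc
        unfold andT nodeAnd
        repeat' first
          | exact List.Forall₂.nil
          | exact den_c _ _
          | exact den_sA ha (by omega)
          | exact den_sB hb (by omega)
          | exact den_sC hc (by omega)
          | rfl
          | apply List.Forall₂.cons
          | apply And.intro) (by omega) (by omega) (by omega)
    have e4 : ItLe (cfg M (.and :: rest) _ _
        (List.replicate (c + nodes f + nodes e) .b1 ++ .sep ::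
          (List.replicate (c + nodes f) .b1 ++ .sep :: q)) [] _ _ _ _) _ _ :=
      ItLe.one (a := .and) (l := rest) rfl e3
    have e5 : (Sy.and :: (encB2 e ++ encB2 f)).reverse ++ rest
        = (encB2 f).reverse ++ ((encB2 e).reverse ++ Sy.and :: rest) := by simp
    rw [e5]
    refine ((e1.trans e2).trans e4).conv ?_ ?_
    · rw [preT_append, preT_append]
      have a1 : N + offT (tms f c) * M + offT (tms e (c + nodes f)) * M + 13 * M
          = N + (offT (tms f c) + offT (tms e (c + nodes f)) + 13) * M := by ring
      have a2 : k + offT (tms f c) * (M + 1) + offT (tms e (c + nodes f)) * (M + 1) + 13 * (M + 1)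
          = k + (offT (tms f c) + offT (tms e (c + nodes f)) + 13) * (M + 1) := by ring
      have a3 : c + (nodes e + nodes f + 1) = c + nodes f + nodes e + 1 := by ring
      have a4 : N + offT (tms f c) * M + offT (tms e (c + nodes f)) * M
          = N + offT (tms f c ++ tms e (c + nodes f)) * M := by
        rw [offT_append]; ring
      rw [a1, a2, a3, a4]
      congr 1
      · simp
      · simp [zstr]
    · simp only [List.length_cons, List.length_append]
      nlinarith
  | or e f ihe ihf =>
    intro rest p z q N c L k h1 h2 h3 h4
    have e0 : encB2 (.or e f) = .or :: (encB2 e ++ encB2 f) := rfl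
    rw [e0] at h1 ⊢
    simp only [List.length_cons, List.length_append] at h1
    simp only [nodes] at h2 ⊢
    simp only [tms, offT_append] at h3 ⊢
    have hoff : offT (nodeOr (c + nodes f + nodes e + 1) (c + nodes f + nodes e) (c + nodes f))
      = 13 := rfl
    rw [hoff] at h3 ⊢
    simp only [exs, insAll_append] at h4 ⊢
    rw [add_mul, add_mul] at h3
    have h5 : (encL (insAll L (exs f))).length ≤ G := (encL_insAll _ _).trans h4
    have e1 := ihf ((encB2 e).reverse ++ .or :: rest) p z q N c L k (by omega) (by omega)
      (by omega) h5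
    have e2 := ihe (.or :: rest) ((preT M N (tms f c)).reverse ++ p)
      ((zstr (exs f)).reverse ++ z) (List.replicate (c + nodes f) .b1 ++ .sep :: q)
      (N + offT (tms f c) * M) (c + nodes f) (insAll L (exs f)) (k + offT (tms f c) * (M + 1))
      (by omega) (by omega) (by omega) h4
    have e3 := ru_tokBin G M orT
      (nodeOr (c + nodes f + nodes e + 1) (c + nodes f + nodes e) (c + nodes f)) rest
      ((preT M (N + offT (tms f c) * M) (tms e (c + nodes f))).reverse ++
        ((preT M N (tms f c)).reverse ++ p))
      ((zstr (exs e)).reverse ++ ((zstr (exs f)).reverse ++ z)) q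
      (N + offT (tms f c) * M + offT (tms e (c + nodes f)) * M) (c + nodes f + nodes e)
      (c + nodes f) (insAll (insAll L (exs f)) (exs e))
      (k + offT (tms f c) * (M + 1) + offT (tms e (c + nodes f)) * (M + 1)) rfl
      (by
        intro s ha hb hc
        unfold orT nodeOr
        repeat' first
          | exact List.Forall₂.nil
          | exact den_c _ _
          | exact den_sA ha (by omega)
          | exact den_sB hb (by omega)
          | exact den_sC hc (by omega)
          | rfl
          | apply List.Forall₂.cons
          | apply And.intro) (by omega) (by omega) (by omega)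
    have e4 : ItLe (cfg M (.or :: rest) _ _
        (List.replicate (c + nodes f + nodes e) .b1 ++ .sep ::
          (List.replicate (c + nodes f) .b1 ++ .sep :: q)) [] _ _ _ _) _ _ :=
      ItLe.one (a := .or) (l := rest) rfl e3
    have e5 : (Sy.or :: (encB2 e ++ encB2 f)).reverse ++ rest
        = (encB2 f).reverse ++ ((encB2 e).reverse ++ Sy.or :: rest) := by simp
    rw [e5]
    refine ((e1.trans e2).trans e4).conv ?_ ?_
    · rw [preT_append, preT_append]
      have a1 : N + offT (tms f c) * M + offT (tms e (c + nodes f)) * M + 13 * M
          = N + (offT (tms f c) + offT (tms e (c + nodes f)) + 13) * M := by ring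
      have a2 : k + offT (tms f c) * (M + 1) + offT (tms e (c + nodes f)) * (M + 1) + 13 * (M + 1)
          = k + (offT (tms f c) + offT (tms e (c + nodes f)) + 13) * (M + 1) := by ring
      have a3 : c + (nodes e + nodes f + 1) = c + nodes f + nodes e + 1 := by ring
      have a4 : N + offT (tms f c) * M + offT (tms e (c + nodes f)) * M
          = N + offT (tms f c ++ tms e (c + nodes f)) * M := by
        rw [offT_append]; ring
      rw [a1, a2, a3, a4]
      congr 1
      · simp
      · simp [zstr]
    · simp only [List.length_cons, List.length_append]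
      nlinarith

end Pool.Agent.Helper64.MEE
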