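import Pool.Agent.Helper64.MEE.Emit

/-!
The programs for the tokens of the input and the main loop.
-/

set_option linter.unusedSectionVars false
set_option linter.unusedSimpArgs false

namespace Pool.Agent.Helper64.MEE

open Stk

/-! ### Comparing and inserting names -/

/-- The loop which compares a word on `E` with the word on `W`. -/
def cmpLoop : Prog :=
  .loop .E (fun a => a == .sep) (fun a => .seq (.push .EE a)
    (.cas .W (.push .G .b1) (fun w => .seq (.push .WW w)
      (if w = a then .skip else .push .G .b1))))

/-- Number of mismatches. -/
def mism : List Sy → List Sy → ℕ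
  | [], _ => 0
  | _ :: v, [] => mism v [] + 1
  | a :: v, w :: x => mism v x + (if w = a then 0 else 1)

theorem mism_zero (v x : List Sy) : (mism v x = 0 ∧ x.drop v.length = []) ↔ v = x := by
  induction v generalizing x with
  | nil => simp [mism, eq_comm]
  | cons a v ih =>
    cases x with
    | nil => simp [mism]
    | cons w x =>
      simp only [mism, List.length_cons, List.drop_succ_cons, List.cons.injEq]
      rw [← ih x]
      constructor
      · rintro ⟨h1, h2⟩
        by_cases hw : w = a
        · subst hw; simp at h1; exact ⟨rfl, h1, h2⟩
        · simp [hw] at h1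
      · rintro ⟨rfl, h1, h2⟩
        simp [h1, h2]

theorem mism_le (v x : List Sy) : mism v x ≤ v.length := by
  induction v generalizing x with
  | nil => simp [mism]
  | cons a v ih =>
    cases x with
    | nil => simp only [mism, List.length_cons]; have := ih []; omega
    | cons w x =>
      simp only [mism, List.length_cons]
      have := ih x
      split_ifs <;> omega

theorem ru_cmpLoop (v : List Sy) (hv : .sep ∉ v) (s : St) (e' : List Sy)
    (he : s.e = v ++ .sep :: e') :
    Ru cmpLoop s {s with
      e := e'
      ee := v.reverse ++ s.ee
      w := s.w.drop v.length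
      ww := (s.w.take v.length).reverse ++ s.ww
      g := List.replicate (mism v s.w) .b1 ++ s.g} (5 * v.length + 1) := by
  induction v generalizing s with
  | nil =>
    have h : s.fn .E = .sep :: e' := he
    refine (Ru.loop_stop h rfl).conv ?_ (by omega)
    simp [St.put, mism]
  | cons a v ih =>
    simp only [List.mem_cons, not_or] at hv
    have h : s.fn .E = a :: (v ++ .sep :: e') := he
    have hna : (a == Sy.sep) = false := by
      rw [beq_eq_false_iff_ne]; exact fun hc => hv.1 hc.symm
    have e1 : Ru (.push .EE a) {s with e := v ++ .sep :: e'}
        {s with e := v ++ .sep :: e', ee := a :: s.ee} 1 := Ru.push .EE a _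
    cases hw : s.w with
    | nil =>
      have e2 : Ru (.push .G .b1) {s with e := v ++ .sep :: e', ee := a :: s.ee}
        {s with e := v ++ .sep :: e', ee := a :: s.ee, g := .b1 :: s.g} 1 := Ru.push .G .b1 _
      have e3 : Ru (.cas .W (.push .G .b1) (fun w => .seq (.push .WW w)
          (if w = a then .skip else .push .G .b1))) {s with e := v ++ .sep :: e', ee := a :: s.ee}
        {s with e := v ++ .sep :: e', ee := a :: s.ee, g := .b1 :: s.g} (1 + 1) :=
        Ru.cas_nil hw e2
      have e4 := ih hv.2 {s with e := v ++ .sep :: e', ee := a :: s.ee, g := .b1 :: s.g} rfl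
      refine (Ru.loop_step h hna (e1.seq e3) e4).conv ?_ (by simp only [List.length_cons]; omega)
      simp only [hw, List.drop_nil, List.take_nil, List.reverse_nil, List.nil_append, mism,
        List.reverse_cons, List.append_assoc, List.singleton_append]
      congr 1
      rw [List.replicate_succ']
      simp
    | cons x w =>
      have e2 : Ru (.push .WW x) {s with e := v ++ .sep :: e', ee := a :: s.ee, w := w}
        {s with e := v ++ .sep :: e', ee := a :: s.ee, w := w, ww := x :: s.ww} 1 :=
        Ru.push .WW x _
      by_cases hxa : x = a
      · have e3 : Ru (if x = a then Cmd.skip else .push .G .b1)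
          {s with e := v ++ .sep :: e', ee := a :: s.ee, w := w, ww := x :: s.ww}
          {s with e := v ++ .sep :: e', ee := a :: s.ee, w := w, ww := x :: s.ww} 1 := by
          rw [if_pos hxa]; exact Ru.skip _
        have e4 : Ru (.cas .W (.push .G .b1) (fun w => .seq (.push .WW w)
          (if w = a then .skip else .push .G .b1))) {s with e := v ++ .sep :: e', ee := a :: s.ee}
          {s with e := v ++ .sep :: e', ee := a :: s.ee, w := w, ww := x :: s.ww} (1 + (1 + 1)) :=
          Ru.cas_cons hw (e2.seq e3)
        have e5 := ih hv.2
          {s with e := v ++ .sep :: e', ee := a :: s.ee, w := w, ww := x :: s.ww} rfl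
        refine (Ru.loop_step h hna (e1.seq e4) e5).conv ?_ (by simp only [List.length_cons]; omega)
        simp [hw, mism, hxa]
      · have e3 : Ru (if x = a then Cmd.skip else .push .G .b1)
          {s with e := v ++ .sep :: e', ee := a :: s.ee, w := w, ww := x :: s.ww}
          {s with
            e := v ++ .sep :: e'
            ee := a :: s.ee
            w := w
            ww := x :: s.ww
            g := .b1 :: s.g} 1 := by
          rw [if_neg hxa]; exact Ru.push .G .b1 _
        have e4 : Ru (.cas .W (.push .G .b1) (fun w => .seq (.push .WW w)
          (if w = a then .skip else .push .G .b1))) {s with e := v ++ .sep :: e', ee := a :: s.ee}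
          {s with
            e := v ++ .sep :: e'
            ee := a :: s.ee
            w := w
            ww := x :: s.ww
            g := .b1 :: s.g} (1 + (1 + 1)) :=
          Ru.cas_cons hw (e2.seq e3)
        have e5 := ih hv.2
          {s with
            e := v ++ .sep :: e'
            ee := a :: s.ee
            w := w
            ww := x :: s.ww
            g := .b1 :: s.g} rfl
        refine (Ru.loop_step h hna (e1.seq e4) e5).conv ?_ (by simp only [List.length_cons]; omega)
        simp only [hw, List.length_cons, List.drop_succ_cons, List.take_succ_cons,
          List.reverse_cons, List.append_assoc, List.singleton_append, mism, hxa, if_false]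
        congr 1
        rw [List.replicate_succ']
        simp

/-- Compare a word on `E` with the word on `W`; a mark on `F` if they are equal. -/
def cmp : Prog :=
  .seq cmpLoop (.seq (.push .EE .sep)
    (.seq (.cas .W .skip (fun w => .seq (.push .W w) (.push .G .b1)))
      (.seq (move .WW .W) (.cas .G (.push .F .b1) (fun _ => clear .G)))))

theorem ru_cmp (v : List Sy) (hv : .sep ∉ v) (s : St) (e' : List Sy)
    (he : s.e = v ++ .sep :: e') (hww : s.ww = []) (hg : s.g = []) :
    Ru cmp s {s with
      e := e'
      ee := .sep :: (v.reverse ++ s.ee)
      f := if v = s.w then .b1 :: s.f else s.f} (9 * v.length + 12) := by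
  have e1 := ru_cmpLoop v hv s e' he
  rw [hww, hg, List.append_nil, List.append_nil] at e1
  have e2 : Ru (.push .EE .sep) {s with
      e := e'
      ee := v.reverse ++ s.ee
      w := s.w.drop v.length
      ww := (s.w.take v.length).reverse
      g := List.replicate (mism v s.w) .b1} {s with
      e := e'
      ee := .sep :: (v.reverse ++ s.ee)
      w := s.w.drop v.length
      ww := (s.w.take v.length).reverse
      g := List.replicate (mism v s.w) .b1} 1 := Ru.push .EE .sep _
  let k : ℕ := mism v s.w + (if s.w.drop v.length = [] then 0 else 1)
  have e3 : Ru (.cas .W .skip (fun w => .seq (.push .W w) (.push .G .b1))) {s with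
      e := e'
      ee := .sep :: (v.reverse ++ s.ee)
      w := s.w.drop v.length
      ww := (s.w.take v.length).reverse
      g := List.replicate (mism v s.w) .b1} {s with
      e := e'
      ee := .sep :: (v.reverse ++ s.ee)
      w := s.w.drop v.length
      ww := (s.w.take v.length).reverse
      g := List.replicate k .b1} 3 := by
    cases hd : s.w.drop v.length with
    | nil =>
      have hk : k = mism v s.w := by simp [k, hd]
      rw [hk]
      exact (Ru.cas_nil rfl (Ru.skip _)).mono (by omega)
    | cons x l =>
      have hk : k = mism v s.w + 1 := by simp [k, hd]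
      rw [hk]
      have h1 : Ru (.push .W x) {s with
        e := e'
        ee := .sep :: (v.reverse ++ s.ee)
        w := l
        ww := (s.w.take v.length).reverse
        g := List.replicate (mism v s.w) .b1} {s with
        e := e'
        ee := .sep :: (v.reverse ++ s.ee)
        w := x :: l
        ww := (s.w.take v.length).reverse
        g := List.replicate (mism v s.w) .b1} 1 := Ru.push .W x _
      have h2 := Ru.push .G .b1 {s with
        e := e'
        ee := .sep :: (v.reverse ++ s.ee)
        w := x :: l
        ww := (s.w.take v.length).reverse
        g := List.replicate (mism v s.w) Sy.b1}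
      exact (Ru.cas_cons rfl (h1.seq h2)).conv rfl (by omega)
  have e4 : Ru (move .WW .W) {s with
      e := e'
      ee := .sep :: (v.reverse ++ s.ee)
      w := s.w.drop v.length
      ww := (s.w.take v.length).reverse
      g := List.replicate k .b1} {s with
      e := e'
      ee := .sep :: (v.reverse ++ s.ee)
      g := List.replicate k .b1} (2 * v.length + 1) := by
    refine (ru_move (k := .WW) (k' := .W) (by decide) _).conv ?_ ?_
    · simp only [St.put, St.fn, List.reverse_reverse, List.take_append_drop]
      cases s
      simp only at hww
      subst hww
      rfl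
    · simp only [St.fn, List.length_reverse, List.length_take]
      omega
  have hmis := mism_le v s.w
  have e5 : Ru (.cas .G (.push .F .b1) (fun _ => clear .G)) {s with
      e := e'
      ee := .sep :: (v.reverse ++ s.ee)
      g := List.replicate k .b1} {s with
      e := e'
      ee := .sep :: (v.reverse ++ s.ee)
      f := if v = s.w then .b1 :: s.f else s.f} (2 * v.length + 2) := by
    by_cases hk : k = 0
    · have hvw : v = s.w := by
        rw [← mism_zero]
        simp only [k] at hk
        constructor
        · omega
        · by_contra hne
          rw [if_neg hne] at hk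
          omega
      rw [hk, if_pos hvw]
      have h1 : Ru (.push .F .b1) {s with
        e := e'
        ee := .sep :: (v.reverse ++ s.ee)
        g := []} {s with
        e := e'
        ee := .sep :: (v.reverse ++ s.ee)
        f := .b1 :: s.f} 1 := by
        have := Ru.push .F .b1 {s with
          e := e'
          ee := .sep :: (v.reverse ++ s.ee)
          g := []}
        refine this.conv ?_ le_rfl
        cases s
        simp only at hg
        subst hg
        rfl
      exact (Ru.cas_nil rfl h1).mono (by omega)
    · have hvw : v ≠ s.w := by
        intro hc
        apply hk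
        obtain ⟨h1, h2⟩ := (mism_zero v s.w).mpr hc
        simp only [k, h1, h2, if_true]
      rw [if_neg hvw]
      obtain ⟨k', hk'⟩ : ∃ k', k = k' + 1 := ⟨k - 1, by omega⟩
      rw [hk', List.replicate_succ]
      have h1 := ru_clear .G {s with
        e := e'
        ee := .sep :: (v.reverse ++ s.ee)
        g := List.replicate k' .b1}
      refine (Ru.cas_cons rfl h1).conv ?_ ?_
      · cases s
        simp only at hg
        subst hg
        rfl
      · simp only [St.fn, List.length_replicate]
        have : k ≤ v.length + 1 := by simp only [k]; split_ifs <;> omega
        omega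
  refine (e1.seq (e2.seq (e3.seq (e4.seq e5)))).conv rfl (by omega)

/-- A list of numbers on a stack. -/
def encL (L : List ℕ) : List Sy := L.flatMap (fun n => encNat n ++ [.sep])

theorem sep_notMem (n : ℕ) : Sy.sep ∉ encNat n := by
  unfold encNat
  intro h
  obtain ⟨b, _, hb⟩ := List.mem_map.mp h
  cases b <;> simp [bit] at hb

/-- Compare all the words on `E` with the word on `W`. -/
def mem : Prog := .seq (drain .E (fun a => .seq (.push .E a) cmp)) (move .EE .E)

theorem ru_memLoop (L : List ℕ) (n : ℕ) (s : St) (he : s.e = encL L) (hw : s.w = encNat n)
    (hww : s.ww = []) (hg : s.g = []) :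
    Ru (drain .E (fun a => .seq (.push .E a) cmp)) s {s with
      e := []
      ee := (encL L).reverse ++ s.ee
      f := List.replicate (L.count n) .b1 ++ s.f} (14 * (encL L).length + 1) := by
  induction L generalizing s with
  | nil =>
    have h : s.fn .E = [] := he
    refine (Ru.loop_nil h).conv ?_ (by omega)
    cases s
    simp only [encL, List.flatMap_nil] at he
    subst he
    simp [encL]
  | cons m L ih =>
    have he2 : s.e = encNat m ++ .sep :: encL L := by
      rw [he]; simp [encL]
    obtain ⟨a, l, hal⟩ : ∃ a l, encNat m ++ Sy.sep :: encL L = a :: l := by
      cases encNat m with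
      | nil => exact ⟨_, _, rfl⟩
      | cons a l => exact ⟨_, _, rfl⟩
    have h : s.fn .E = a :: l := he2.trans hal
    have e1 : Ru (.push .E a) {s with e := l} {s with e := a :: l} 1 := Ru.push .E a _
    have e2 := ru_cmp (encNat m) (sep_notMem m) {s with e := a :: l} (encL L) hal.symm hww hg
    have e3 := ih {s with
      e := encL L
      ee := .sep :: ((encNat m).reverse ++ s.ee)
      f := if encNat m = s.w then .b1 :: s.f else s.f} rfl hw hww hg
    refine (Ru.loop_step (stop := never) h rfl (e1.seq e2) e3).conv ?_ ?_
    · have h1 : (encNat m = s.w) ↔ m = n := by rw [hw]; exact encNat_inj.eq_iff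
      simp only [h1]
      congr 1
      · simp [encL]
      · by_cases hmn : m = n
        · subst hmn
          simp only [if_true, List.count_cons_self]
          rw [List.replicate_succ']
          simp
        · simp only [hmn, if_false]
          rw [List.count_cons_of_ne hmn]
    · simp only [encL, List.flatMap_cons, List.length_append, List.length_cons, List.length_nil]
      omega

theorem ru_mem (L : List ℕ) (n : ℕ) (s : St) (he : s.e = encL L) (hw : s.w = encNat n)
    (hww : s.ww = []) (hg : s.g = []) (hee : s.ee = []) :
    Ru mem s {s with f := List.replicate (L.count n) .b1 ++ s.f} (16 * (encL L).length + 2) := by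
  have e1 := ru_memLoop L n s he hw hww hg
  rw [hee, List.append_nil] at e1
  have e2 := ru_move (k := .EE) (k' := .E) (by decide) {s with
      e := []
      ee := (encL L).reverse
      f := List.replicate (L.count n) .b1 ++ s.f}
  refine (e1.seq e2).conv ?_ ?_
  · simp only [St.put, St.fn, List.reverse_reverse, List.append_nil]
    cases s
    simp only at he hee
    subst he hee
    rfl
  · simp only [St.fn, List.length_reverse]
    omega

/-- Put the word on `W` also on `E`. -/
def addName : Prog :=
  .seq (.push .E .sep) (.seq (move .W .T)
    (.seq (drain .T (fun a => .seq (.push .W a) (.push .E a))) (.push .U .b1)))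

theorem ru_copyTWE (s : St) :
    Ru (drain .T (fun a => .seq (.push .W a) (.push .E a))) s
      {s with t := [], w := s.t.reverse ++ s.w, e := s.t.reverse ++ s.e}
      (3 * s.t.length + 1) := by
  generalize hl : s.t = l
  induction l generalizing s with
  | nil =>
    refine (Ru.loop_nil (k := .T) hl).conv ?_ (by simp)
    cases s
    simp only at hl
    subst hl
    rfl
  | cons a l ih =>
    have e1 : Ru (.push .W a) {s with t := l} {s with t := l, w := a :: s.w} 1 := Ru.push .W a _
    have e2 : Ru (.push .E a) {s with t := l, w := a :: s.w}
      {s with t := l, w := a :: s.w, e := a :: s.e} 1 := Ru.push .E a _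
    have e3 := ih {s with t := l, w := a :: s.w, e := a :: s.e} rfl
    refine (Ru.loop_step (stop := never) (k := .T) hl rfl (e1.seq e2) e3).conv ?_
      (by simp only [List.length_cons]; omega)
    simp

theorem ru_addName (s : St) (ht : s.t = []) :
    Ru addName s {s with e := s.w ++ .sep :: s.e, u := .b1 :: s.u} (5 * s.w.length + 4) := by
  have e1 : Ru (.push .E .sep) s {s with e := .sep :: s.e} 1 := Ru.push .E .sep s
  have e2 : Ru (move .W .T) {s with e := .sep :: s.e}
      {s with e := .sep :: s.e, w := [], t := s.w.reverse} (2 * s.w.length + 1) := by
    refine (ru_move (k := .W) (k' := .T) (by decide) _).conv ?_ (by simp [St.fn])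
    simp [St.put, St.fn, ht]
  have e3 := ru_copyTWE {s with e := .sep :: s.e, w := [], t := s.w.reverse}
  have e4 := Ru.push .U .b1 {s with e := s.w ++ .sep :: s.e, t := []}
  have e3' : Ru (drain .T (fun a => .seq (.push .W a) (.push .E a)))
      {s with e := .sep :: s.e, w := [], t := s.w.reverse}
      {s with e := s.w ++ .sep :: s.e, t := []} (3 * s.w.length + 1) := by
    refine e3.conv ?_ (by simp)
    simp
  refine (e1.seq (e2.seq (e3'.seq e4))).conv ?_ (by omega)
  cases s
  simp only at ht
  subst ht
  rfl

/-- Insert the name on `W` in the list on `E` unless it is there. -/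
def insName : Prog := .seq mem (.cas .F addName (fun _ => clear .F))

/-- Insertion in a list of numbers. -/
def insL (L : List ℕ) (n : ℕ) : List ℕ := if n ∈ L then L else n :: L

theorem ru_insName (L : List ℕ) (n k G : ℕ) (s : St) (he : s.e = encL L) (hw : s.w = encNat n)
    (hww : s.ww = []) (hg : s.g = []) (hee : s.ee = []) (ht : s.t = []) (hf : s.f = [])
    (hu : s.u = List.replicate (k + L.length) .b1) (h1 : (encL L).length ≤ G)
    (h2 : (encNat n).length ≤ G) :
    Ru insName s {s with
      e := encL (insL L n)
      u := List.replicate (k + (insL L n).length) .b1} (21 * G + 10) := by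
  have e1 := ru_mem L n s he hw hww hg hee
  rw [hf, List.append_nil] at e1
  by_cases hn : n ∈ L
  · have hins : insL L n = L := if_pos hn
    obtain ⟨c, hc⟩ : ∃ c, L.count n = c + 1 :=
      ⟨L.count n - 1, by have := List.count_pos_iff.mpr hn; omega⟩
    have hcl : L.count n ≤ (encL L).length := by
      refine (List.count_le_length).trans ?_
      have : ∀ L : List ℕ, L.length ≤ (encL L).length := by
        intro L
        induction L with
        | nil => simp
        | cons m L ih =>
          simp only [encL, List.flatMap_cons, List.length_append, List.length_cons,
            List.length_nil] at ih ⊢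
          omega
      exact this L
    rw [hc] at e1
    have e2 := ru_clear .F {s with f := List.replicate c .b1}
    have e3 : Ru (.cas .F addName (fun _ => clear .F)) {s with f := List.replicate (c + 1) .b1} _ _ :=
      Ru.cas_cons (a := .b1) (l := List.replicate c .b1) rfl e2
    refine (e1.seq e3).conv ?_ ?_
    · rw [hins, ← he, ← hu]
      cases s
      simp only at hf
      subst hf
      rfl
    · simp only [St.fn, List.length_replicate]
      omega
  · have hins : insL L n = n :: L := if_neg hn
    rw [List.count_eq_zero_of_not_mem hn, List.replicate_zero] at e1
    have e2 := ru_addName {s with f := []} ht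
    have e3 : Ru (.cas .F addName (fun _ => clear .F)) {s with f := []} _ _ :=
      Ru.cas_nil rfl e2
    refine (e1.seq e3).conv ?_ ?_
    · rw [hins]
      have a1 : s.w ++ .sep :: s.e = encL (n :: L) := by
        rw [hw, he]; simp [encL]
      have a2 : Sy.b1 :: s.u = List.replicate (k + (n :: L).length) .b1 := by
        rw [hu, List.length_cons, ← add_assoc, List.replicate_succ]
      simp only [a1, a2]
      cases s
      simp only at hf
      subst hf
      rfl
    · simp only [hw]
      omega

end Pool.Agent.Helper64.MEE
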