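import Mathlib

/-!
Formula trees with constants in negation normal form, whose leaves are light literals, heavy
literals or constants; contexts; the gate lemma.
-/

namespace Pool.Agent.Helper64.MEE

/-- `comb true` is conjunction, `comb false` is disjunction. -/
def comb (op a b : Bool) : Bool := cond op (a && b) (a || b)

/-- Trees in negation normal form with light and heavy literal leaves and constants. -/
inductive Tr (L H : Type) : Type
  | cst (b : Bool) : Tr L H
  | light (x : L) (s : Bool) : Tr L H
  | heavy (h : H) (s : Bool) : Tr L H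
  | gate (op : Bool) (l r : Tr L H) : Tr L H

namespace Tr

variable {L H : Type}

/-- Value of a tree. -/
def eval (v : L → Bool) (w : H → Bool) : Tr L H → Bool
  | cst b => b
  | light x s => v x == s
  | heavy h s => w h == s
  | gate op l r => comb op (l.eval v w) (r.eval v w)

/-- The list of variables of the light leaves. -/
def lights : Tr L H → List L
  | cst _ => []
  | light x _ => [x]
  | heavy _ _ => []
  | gate _ l r => l.lights ++ r.lights

/-- Number of heavy leaves. -/
def nh : Tr L H → ℕ
  | cst _ => 0
  | light _ _ => 0
  | heavy _ _ => 1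
  | gate _ l r => l.nh + r.nh

section
variable [DecidableEq H]

/-- Number of leaves with the heavy variable `h`. -/
def hcount (h : H) : Tr L H → ℕ
  | cst _ => 0
  | light _ _ => 0
  | heavy h' _ => if h' = h then 1 else 0
  | gate _ l r => l.hcount h + r.hcount h

theorem hcount_le_nh (h : H) (t : Tr L H) : t.hcount h ≤ t.nh := by
  induction t with
  | cst b => simp [hcount]
  | light x s => simp [hcount]
  | heavy h' s => simp only [hcount, nh]; split_ifs <;> omega
  | gate op l r ihl ihr => simp only [hcount, nh]; omega

theorem exists_of_nh (t : Tr L H) (ht : t.nh ≠ 0) : ∃ h, t.hcount h ≠ 0 := by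
  induction t with
  | cst b => simp [nh] at ht
  | light x s => simp [nh] at ht
  | heavy h' s => exact ⟨h', by simp [hcount]⟩
  | gate op l r ihl ihr =>
    simp only [nh] at ht
    by_cases hl : l.nh = 0
    · obtain ⟨h, hh⟩ := ihr (by omega)
      exact ⟨h, by simp only [hcount]; omega⟩
    · obtain ⟨h, hh⟩ := ihl hl
      exact ⟨h, by simp only [hcount]; omega⟩

theorem nh_ge_two {t : Tr L H} {h h' : H} (hne : h ≠ h') (h1 : t.hcount h ≠ 0)
    (h2 : t.hcount h' ≠ 0) : 2 ≤ t.nh := by
  induction t with
  | cst b => simp [hcount] at h1
  | light x s => simp [hcount] at h1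
  | heavy a s =>
    simp only [hcount, ne_eq, ite_eq_right_iff, one_ne_zero, imp_false, not_not] at h1 h2
    exact absurd (h1.symm.trans h2) hne
  | gate op l r ihl ihr =>
    simp only [hcount, nh] at *
    by_cases a : l.hcount h = 0
    · by_cases b : l.hcount h' = 0
      · have := ihr (by omega) (by omega); omega
      · have e1 := hcount_le_nh h' l
        have e2 := hcount_le_nh h r
        omega
    · by_cases b : r.hcount h' = 0
      · have := ihl a (by omega); omega
      · have e1 := hcount_le_nh h' r
        have e2 := hcount_le_nh h l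
        omega

theorem eval_congr {t : Tr L H} {v v' : L → Bool} {w w' : H → Bool}
    (hl : ∀ x ∈ t.lights, v x = v' x) (hh : ∀ h, t.hcount h ≠ 0 → w h = w' h) :
    t.eval v w = t.eval v' w' := by
  induction t with
  | cst b => rfl
  | light x s => simp [eval, hl x (by simp [lights])]
  | heavy h s => simp [eval, hh h (by simp [hcount])]
  | gate op l r ihl ihr =>
    simp only [eval]
    rw [ihl (fun x hx => hl x (by simp [lights, hx]))
        (fun h hx => hh h (by simp only [hcount]; omega)),
      ihr (fun x hx => hl x (by simp [lights, hx]))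
        (fun h hx => hh h (by simp only [hcount]; omega))]

end

/-- `Sub s F t`: `s` is a subtree of `t`, and `F` lists the gates and siblings on the way from
`s` up to the root of `t`. -/
inductive Sub (s : Tr L H) : List (Bool × Tr L H) → Tr L H → Prop
  | refl : Sub s [] s
  | left {F : List (Bool × Tr L H)} {l : Tr L H} (op : Bool) (r : Tr L H)
      (h : Sub s F l) : Sub s (F ++ [(op, r)]) (gate op l r)
  | right {F : List (Bool × Tr L H)} {r : Tr L H} (op : Bool) (l : Tr L H)
      (h : Sub s F r) : Sub s (F ++ [(op, l)]) (gate op l r)

/-- The value at the root as a function of the value at the subtree. -/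
def up (v : L → Bool) (w : H → Bool) : List (Bool × Tr L H) → Bool → Bool
  | [], b => b
  | f :: F, b => up v w F (comb f.1 b (f.2.eval v w))

theorem up_append (v : L → Bool) (w : H → Bool) (F G : List (Bool × Tr L H)) (b : Bool) :
    up v w (F ++ G) b = up v w G (up v w F b) := by
  induction F generalizing b with
  | nil => rfl
  | cons f F ih => simp [up, ih]

theorem Sub.eval_eq {s t : Tr L H} {F : List (Bool × Tr L H)} (h : Sub s F t)
    (v : L → Bool) (w : H → Bool) : t.eval v w = up v w F (s.eval v w) := by
  induction h with
  | refl => rfl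
  | left op r h ih => simp [eval, up_append, up, ih]
  | right op l h ih =>
    simp only [eval, up_append, up, ih]
    cases op <;> simp [comb, Bool.and_comm, Bool.or_comm]

theorem Sub.trans {s t u : Tr L H} {F G : List (Bool × Tr L H)} (h : Sub s F t) (h' : Sub t G u) :
    Sub s (F ++ G) u := by
  induction h' with
  | refl => simpa using h
  | left op r h' ih => rw [← List.append_assoc]; exact Sub.left op r ih
  | right op l h' ih => rw [← List.append_assoc]; exact Sub.right op l ih

theorem Sub.eq_of_nil {s t : Tr L H} (h : Sub s [] t) : s = t := by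
  generalize hG : ([] : List (Bool × Tr L H)) = G at h
  cases h with
  | refl => rfl
  | left op r h => simp at hG
  | right op l h => simp at hG

theorem Sub.swap {s s' t : Tr L H} {op : Bool} {F : List (Bool × Tr L H)}
    (h : Sub s ((op, s') :: F) t) : Sub s' ((op, s) :: F) t := by
  generalize hG : (op, s') :: F = G at h
  induction h generalizing F with
  | refl => simp at hG
  | @left F' l op' r h ih =>
    cases F' with
    | nil =>
      simp only [List.nil_append, List.cons.injEq, Prod.mk.injEq] at hG
      obtain ⟨⟨rfl, rfl⟩, rfl⟩ := hG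
      have := h.eq_of_nil
      subst this
      exact Sub.right op _ Sub.refl
    | cons f F'' =>
      simp only [List.cons_append, List.cons.injEq] at hG
      obtain ⟨rfl, rfl⟩ := hG
      exact Sub.left op' r (ih rfl)
  | @right F' r op' l h ih =>
    cases F' with
    | nil =>
      simp only [List.nil_append, List.cons.injEq, Prod.mk.injEq] at hG
      obtain ⟨⟨rfl, rfl⟩, rfl⟩ := hG
      have := h.eq_of_nil
      subst this
      exact Sub.left op _ Sub.refl
    | cons f F'' =>
      simp only [List.cons_append, List.cons.injEq] at hG
      obtain ⟨rfl, rfl⟩ := hG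
      exact Sub.right op' l (ih rfl)

theorem Sub.split {s t : Tr L H} {F G : List (Bool × Tr L H)} (h : Sub s (F ++ G) t) :
    ∃ u, Sub s F u ∧ Sub u G t := by
  generalize hK : F ++ G = K at h
  induction h generalizing G with
  | refl =>
    simp only [List.append_eq_nil_iff] at hK
    obtain ⟨rfl, rfl⟩ := hK
    exact ⟨s, Sub.refl, Sub.refl⟩
  | @left F' l op r h ih =>
    rcases List.eq_nil_or_concat G with rfl | ⟨G', g, rfl⟩
    · refine ⟨gate op l r, ?_, Sub.refl⟩
      rw [List.append_nil] at hK
      rw [hK]; exact Sub.left op r h
    · rw [List.concat_eq_append, ← List.append_assoc] at hK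
      have h1 := List.append_inj' hK rfl
      obtain ⟨h1, h2⟩ := h1
      simp only [List.cons.injEq, and_true] at h2
      subst h2
      obtain ⟨u, hu1, hu2⟩ := ih h1
      rw [List.concat_eq_append]
      exact ⟨u, hu1, Sub.left op r hu2⟩
  | @right F' r op l h ih =>
    rcases List.eq_nil_or_concat G with rfl | ⟨G', g, rfl⟩
    · refine ⟨gate op l r, ?_, Sub.refl⟩
      rw [List.append_nil] at hK
      rw [hK]; exact Sub.right op l h
    · rw [List.concat_eq_append, ← List.append_assoc] at hK
      have h1 := List.append_inj' hK rfl
      obtain ⟨h1, h2⟩ := h1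
      simp only [List.cons.injEq, and_true] at h2
      subst h2
      obtain ⟨u, hu1, hu2⟩ := ih h1
      rw [List.concat_eq_append]
      exact ⟨u, hu1, Sub.right op l hu2⟩

theorem up_mono (v : L → Bool) (w : H → Bool) (F : List (Bool × Tr L H)) {a b : Bool}
    (hab : a = true → b = true) (h : up v w F a = true) : up v w F b = true := by
  induction F generalizing a b with
  | nil => exact hab h
  | cons f F ih =>
    refine ih ?_ h
    intro hc
    cases hop : f.1 <;> simp only [hop, comb, cond_true, cond_false, Bool.and_eq_true,
      Bool.or_eq_true] at hc ⊢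
    · rcases hc with hc | hc
      · exact Or.inl (hab hc)
      · exact Or.inr hc
    · exact ⟨hab hc.1, hc.2⟩

theorem up_congr {v v' : L → Bool} {w w' : H → Bool} {F : List (Bool × Tr L H)}
    (h : ∀ f ∈ F, f.2.eval v w = f.2.eval v' w') (b : Bool) : up v w F b = up v' w' F b := by
  induction F generalizing b with
  | nil => rfl
  | cons f F ih =>
    simp only [up]
    rw [h f (by simp), ih (fun f' hf' => h f' (by simp [hf']))]

/-- If the value at the root depends on the value at the subtree, then all siblings are
neutral. -/
theorem neutral_of_ne {v : L → Bool} {w : H → Bool} {F : List (Bool × Tr L H)} {a b : Bool}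
    (h : up v w F a ≠ up v w F b) : ∀ f ∈ F, f.2.eval v w = f.1 := by
  induction F generalizing a b with
  | nil => simp
  | cons f F ih =>
    simp only [up] at h
    intro f' hf'
    rcases List.mem_cons.mp hf' with rfl | hf'
    · have hne : comb f'.1 a (f'.2.eval v w) ≠ comb f'.1 b (f'.2.eval v w) := fun hc =>
        h (by rw [hc])
      revert hne
      generalize f'.2.eval v w = c
      cases f'.1 <;> cases c <;> cases a <;> cases b <;> simp [comb]
    · exact ih h f' hf'

/-- If the value drops from true to false on the way up then some conjunctive sibling is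
false. -/
theorem exists_false_of_up {v : L → Bool} {w : H → Bool} {F : List (Bool × Tr L H)}
    (h : up v w F true = false) : ∃ f ∈ F, f.1 = true ∧ f.2.eval v w = false := by
  induction F with
  | nil => simp [up] at h
  | cons f F ih =>
    simp only [up] at h
    by_cases hc : comb f.1 true (f.2.eval v w) = true
    · rw [hc] at h
      obtain ⟨f', hf', h'⟩ := ih h
      exact ⟨f', by simp [hf'], h'⟩
    · refine ⟨f, by simp, ?_⟩
      revert hc
      generalize f.2.eval v w = c
      cases f.1 <;> cases c <;> simp [comb]

section
variable [DecidableEq H]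

/-- Sum of the counts over the siblings. -/
def fcount (h : H) : List (Bool × Tr L H) → ℕ
  | [] => 0
  | f :: F => f.2.hcount h + fcount h F

theorem fcount_append (h : H) (F G : List (Bool × Tr L H)) :
    fcount h (F ++ G) = fcount h F + fcount h G := by
  induction F with
  | nil => simp [fcount]
  | cons f F ih => simp [fcount, ih]; omega

theorem hcount_le_fcount {h : H} {F : List (Bool × Tr L H)} {f : Bool × Tr L H} (hf : f ∈ F) :
    f.2.hcount h ≤ fcount h F := by
  induction F with
  | nil => simp at hf
  | cons f' F ih =>
    rcases List.mem_cons.mp hf with rfl | hf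
    · simp [fcount]
    · simp only [fcount]
      have := ih hf
      omega

theorem exists_of_fcount {h : H} {F : List (Bool × Tr L H)} (hF : fcount h F ≠ 0) :
    ∃ f ∈ F, f.2.hcount h ≠ 0 := by
  induction F with
  | nil => simp [fcount] at hF
  | cons f' F ih =>
    by_cases h' : f'.2.hcount h = 0
    · simp only [fcount, h', zero_add] at hF
      obtain ⟨f, hf, hc⟩ := ih hF
      exact ⟨f, by simp [hf], hc⟩
    · exact ⟨f', by simp, h'⟩

theorem Sub.hcount_eq {s t : Tr L H} {F : List (Bool × Tr L H)} (hs : Sub s F t) (h : H) :
    t.hcount h = s.hcount h + fcount h F := by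
  induction hs with
  | refl => simp [fcount]
  | left op r hs ih => simp [hcount, fcount_append, fcount, ih]; omega
  | right op l hs ih => simp [hcount, fcount_append, fcount, ih]; omega

theorem exists_sub (t : Tr L H) (h : H) (ht : t.hcount h ≠ 0) :
    ∃ s F, Sub (heavy h s) F t := by
  induction t with
  | cst b => simp [hcount] at ht
  | light x s => simp [hcount] at ht
  | heavy h' s =>
    simp only [hcount, ne_eq, ite_eq_right_iff, one_ne_zero, imp_false, not_not] at ht
    subst ht
    exact ⟨s, [], Sub.refl⟩
  | gate op l r ihl ihr =>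
    by_cases hl : l.hcount h = 0
    · obtain ⟨s, F, hs⟩ := ihr (by simp only [hcount] at ht; omega)
      exact ⟨s, _, Sub.right op l hs⟩
    · obtain ⟨s, F, hs⟩ := ihl hl
      exact ⟨s, _, Sub.left op r hs⟩

theorem bool_gate_and : ∀ op x0 x1 y0 y1 z0 z1 : Bool, (z0 = true → z1 = true) →
    cond (comb op x0 y0) z1 z0 = false → cond (comb op x1 y0) z1 z0 = false →
    cond (comb op x0 y1) z1 z0 = false → cond (comb op x1 y1) z1 z0 = true → op = true := by
  decide

theorem bool_gate_or : ∀ op x0 x1 y0 y1 z0 z1 : Bool, (z0 = true → z1 = true) →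
    cond (comb op x0 y0) z1 z0 = false → cond (comb op x1 y0) z1 z0 = true →
    cond (comb op x0 y1) z1 z0 = true → cond (comb op x1 y1) z1 z0 = true → op = false := by
  decide

/-- Two-variable restriction of an assignment. -/
def upd2 (w : H → Bool) (h h' : H) (b b' : Bool) : H → Bool :=
  fun k => if k = h then b else if k = h' then b' else w k

theorem gate_form {s t u : Tr L H} {F : List (Bool × Tr L H)} {op : Bool} {h h' : H}
    (hs : Sub s F t) (hu : (op, u) ∈ F) (c1 : t.hcount h = 1) (c2 : t.hcount h' = 1)
    (m1 : s.hcount h ≠ 0) (m2 : u.hcount h' ≠ 0) (v : L → Bool) (w : H → Bool) :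
    ∃ x0 x1 y0 y1 z0 z1 : Bool, (z0 = true → z1 = true) ∧
      t.eval v (upd2 w h h' false false) = cond (comb op x0 y0) z1 z0 ∧
      t.eval v (upd2 w h h' true false) = cond (comb op x1 y0) z1 z0 ∧
      t.eval v (upd2 w h h' false true) = cond (comb op x0 y1) z1 z0 ∧
      t.eval v (upd2 w h h' true true) = cond (comb op x1 y1) z1 z0 := by
  obtain ⟨F1, F2, rfl⟩ := List.append_of_mem hu
  have e1 := hs.hcount_eq h
  have e2 := hs.hcount_eq h'
  rw [fcount_append, fcount] at e1 e2
  have hval : ∀ b b', t.eval v (upd2 w h h' b b')
      = up v (upd2 w h h' b b') F2 (comb op (up v (upd2 w h h' b b') F1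
          (s.eval v (upd2 w h h' b b'))) (u.eval v (upd2 w h h' b b'))) := by
    intro b b'
    rw [hs.eval_eq, up_append]
    rfl
  -- independence
  have hX : ∀ b b', up v (upd2 w h h' b b') F1 (s.eval v (upd2 w h h' b b'))
      = up v (upd2 w h h' b false) F1 (s.eval v (upd2 w h h' b false)) := by
    intro b b'
    have h1 : s.eval v (upd2 w h h' b b') = s.eval v (upd2 w h h' b false) := by
      apply eval_congr (fun _ _ => rfl)
      intro k hk
      have : k ≠ h' := by
        rintro rfl
        simp only at e2
        omega
      simp [upd2, this]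
    rw [h1]
    apply up_congr
    intro f hf
    apply eval_congr (fun _ _ => rfl)
    intro k hk
    have : k ≠ h' := by
      rintro rfl
      have := hcount_le_fcount (h := k) hf
      simp only at e2
      omega
    simp [upd2, this]
  have hY : ∀ b b', u.eval v (upd2 w h h' b b') = u.eval v (upd2 w h h' false b') := by
    intro b b'
    apply eval_congr (fun _ _ => rfl)
    intro k hk
    have : k ≠ h := by
      rintro rfl
      simp only at e1
      omega
    simp [upd2, this]
  have hZ : ∀ b b' c, up v (upd2 w h h' b b') F2 c = up v (upd2 w h h' false false) F2 c := by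
    intro b b' c
    apply up_congr
    intro f hf
    apply eval_congr (fun _ _ => rfl)
    intro k hk
    have hf' := hcount_le_fcount (h := k) hf
    have : k ≠ h := by
      rintro rfl
      simp only at e1
      omega
    have : k ≠ h' := by
      rintro rfl
      simp only at e2
      omega
    simp [upd2, *]
  refine ⟨up v (upd2 w h h' false false) F1 (s.eval v (upd2 w h h' false false)),
    up v (upd2 w h h' true false) F1 (s.eval v (upd2 w h h' true false)),
    u.eval v (upd2 w h h' false false), u.eval v (upd2 w h h' false true),
    up v (upd2 w h h' false false) F2 false, up v (upd2 w h h' false false) F2 true, ?_, ?_⟩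
  · exact fun hz => up_mono _ _ _ (by simp) hz
  · have hall : ∀ b b', t.eval v (upd2 w h h' b b')
        = cond (comb op (up v (upd2 w h h' b false) F1 (s.eval v (upd2 w h h' b false)))
          (u.eval v (upd2 w h h' false b')))
          (up v (upd2 w h h' false false) F2 true) (up v (upd2 w h h' false false) F2 false) := by
      intro b b'
      rw [hval, hX, hY, hZ]
      cases comb op _ _ <;> rfl
    exact ⟨hall _ _, hall _ _, hall _ _, hall _ _⟩

/-- If fixing all other variables can turn the tree into the conjunction of two heavy variables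
then the gate separating them is a conjunction. -/
theorem gate_and {s t u : Tr L H} {F : List (Bool × Tr L H)} {op : Bool} {h h' : H}
    (hs : Sub s F t) (hu : (op, u) ∈ F) (c1 : t.hcount h = 1) (c2 : t.hcount h' = 1)
    (m1 : s.hcount h ≠ 0) (m2 : u.hcount h' ≠ 0)
    (hand : ∃ v w, ∀ b b', t.eval v (upd2 w h h' b b') = (b && b')) : op = true := by
  obtain ⟨v, w, hvw⟩ := hand
  obtain ⟨x0, x1, y0, y1, z0, z1, hz, e1, e2, e3, e4⟩ := gate_form hs hu c1 c2 m1 m2 v w
  rw [hvw] at e1 e2 e3 e4
  exact bool_gate_and op x0 x1 y0 y1 z0 z1 hz e1.symm e2.symm e3.symm e4.symm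

theorem gate_or {s t u : Tr L H} {F : List (Bool × Tr L H)} {op : Bool} {h h' : H}
    (hs : Sub s F t) (hu : (op, u) ∈ F) (c1 : t.hcount h = 1) (c2 : t.hcount h' = 1)
    (m1 : s.hcount h ≠ 0) (m2 : u.hcount h' ≠ 0)
    (hor : ∃ v w, ∀ b b', t.eval v (upd2 w h h' b b') = (b || b')) : op = false := by
  obtain ⟨v, w, hvw⟩ := hor
  obtain ⟨x0, x1, y0, y1, z0, z1, hz, e1, e2, e3, e4⟩ := gate_form hs hu c1 c2 m1 m2 v w
  rw [hvw] at e1 e2 e3 e4
  exact bool_gate_or op x0 x1 y0 y1 z0 z1 hz e1.symm e2.symm e3.symm e4.symm

end

end Tr

end Pool.Agent.Helper64.MEE
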