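import Pool.Agent.Helper64.MEE.Final

/-!
The whole program.
-/

set_option linter.unusedSectionVars false
set_option linter.unusedSimpArgs false

namespace Pool.Agent.Helper64.MEE

open Stk

theorem encL_cons (x : ℕ) (xs : List ℕ) :
    (encL (x :: xs)).length = (encNat x).length + 1 + (encL xs).length := by
  simp only [encL, List.flatMap_cons, List.length_append, List.length_cons, List.length_nil]

theorem encL_append (xs ys : List ℕ) :
    (encL (xs ++ ys)).length = (encL xs).length + (encL ys).length := by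
  simp [encL]

theorem encL_insAll_le (L xs : List ℕ) :
    (encL (insAll L xs)).length ≤ (encL L).length + (encL xs).length := by
  induction xs generalizing L with
  | nil => simp [insAll, encL]
  | cons x xs ih =>
    have h1 := ih (insL L x)
    have h2 : (encL (insL L x)).length ≤ (encL L).length + ((encNat x).length + 1) := by
      unfold insL
      split_ifs
      · omega
      · rw [encL_cons]; omega
    have h3 : insAll L (x :: xs) = insAll (insL L x) xs := rfl
    rw [h3, encL_cons]
    omega

theorem encL_exs (φ : BExpr (ℕ ⊕ ℕ)) : (encL (exs φ)).length ≤ (encB2 φ).length := by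
  unfold encB2
  induction φ with
  | var x => cases x <;> simp [encE, exs, encL]
  | neg e ih => simp only [encE, exs, List.length_cons]; omega
  | and e f ihe ihf =>
    simp only [encE, exs, List.length_cons, List.length_append, encL_append]; omega
  | or e f ihe ihf =>
    simp only [encE, exs, List.length_cons, List.length_append, encL_append]; omega

theorem insAll_spec (L xs : List ℕ) (hL : L.Nodup) :
    (insAll L xs).Nodup ∧ (insAll L xs).toFinset = L.toFinset ∪ xs.toFinset := by
  induction xs generalizing L with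
  | nil => exact ⟨hL, by simp [insAll]⟩
  | cons x xs ih =>
    have h3 : insAll L (x :: xs) = insAll (insL L x) xs := rfl
    rw [h3]
    have h4 : (insL L x).Nodup ∧ (insL L x).toFinset = insert x L.toFinset := by
      unfold insL
      split_ifs with h
      · refine ⟨hL, ?_⟩
        rw [Finset.insert_eq_of_mem (List.mem_toFinset.mpr h)]
      · exact ⟨List.nodup_cons.mpr ⟨h, hL⟩, by simp⟩
    obtain ⟨h5, h6⟩ := ih (insL L x) h4.1
    refine ⟨h5, ?_⟩
    rw [h6, h4.2, List.toFinset_cons]
    ext y
    simp only [Finset.mem_union, Finset.mem_insert]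
    tauto

theorem length_insAll (xs : List ℕ) : (insAll [] xs).length = xs.toFinset.card := by
  obtain ⟨h1, h2⟩ := insAll_spec [] xs List.nodup_nil
  rw [← List.toFinset_card_of_nodup h1, h2]
  simp

theorem encX_orsE_cand (φ : BExpr (ℕ ⊕ ℕ)) :
    encX (orsE ((cand φ).map nl) (.var (nl LN.a0))) =
      zstr (exs φ) ++ Sy.or :: (encX (.var (nl LN.c)) ++ encX (.var (nl LN.a0))) := by
  unfold cand
  generalize exs φ = xs
  induction xs with
  | nil => rfl
  | cons n xs ih =>
    have h1 : ((n :: xs).flatMap (fun n => [LN.a n, LN.b n]) ++ [LN.c]).map nl =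
        nl (LN.a n) :: nl (LN.b n) ::
          ((xs.flatMap (fun n => [LN.a n, LN.b n]) ++ [LN.c]).map nl) := by simp
    rw [h1]
    show Sy.or :: (encX (.var (nl (LN.a n))) ++ Sy.or :: (encX (.var (nl (LN.b n))) ++
      encX (orsE ((xs.flatMap (fun n => [LN.a n, LN.b n]) ++ [LN.c]).map nl)
        (.var (nl LN.a0))))) = _
    rw [ih]
    simp [zstr]

/-- The last term. -/
def lastT (φ : BExpr (ℕ ⊕ ℕ)) : List (List (LN × Bool)) :=
  [[(LN.c, true), (LN.s (nodes φ), true), (LN.a0, false)]]

theorem encX_redF (φ : BExpr (ℕ ⊕ ℕ)) :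
    encX (redF φ) = preT (mOf φ) 0 (tms φ 0) ++ (preT (mOf φ) (offT (tms φ 0) * mOf φ) (lastT φ) ++
      (bundleStr .and (offT (tms φ 0) * mOf φ + 4 * mOf φ) (mOf φ) ++
        Sy.and :: (encX (.var (nl LN.g)) ++ (zstr (exs φ) ++
          Sy.or :: (encX (.var (nl LN.c)) ++ encX (.var (nl LN.a0))))))) := by
  have h1 : allT φ = tms φ 0 ++ lastT φ := rfl
  have h2 : offT (lastT φ) = 4 := rfl
  unfold redF
  rw [encX_termsE, h1, preT_append, offT_append, h2]
  have h3 : termsE nl hn (mOf φ) LN.g (cand φ) LN.a0 (0 + (offT (tms φ 0) + 4) * mOf φ) [] =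
    andsE (names hn (0 + (offT (tms φ 0) + 4) * mOf φ) (mOf φ))
      (.and (.var (nl LN.g)) (orsE ((cand φ).map nl) (.var (nl LN.a0)))) := rfl
  rw [h3, encX_ands_names]
  have h4 : encX (.and (.var (nl LN.g)) (orsE ((cand φ).map nl) (.var (nl LN.a0)))) =
    Sy.and :: (encX (.var (nl LN.g)) ++ encX (orsE ((cand φ).map nl) (.var (nl LN.a0)))) := rfl
  rw [h4, encX_orsE_cand]
  have h5 : 0 + (offT (tms φ 0) + 4) * mOf φ = offT (tms φ 0) * mOf φ + 4 * mOf φ := by ring
  have h6 : 0 + offT (tms φ 0) * mOf φ = offT (tms φ 0) * mOf φ := by ring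
  rw [h5, h6]
  simp only [List.append_assoc]

/-- The program of the reduction. -/
def prog : Prog :=
  .seq prep (.seq (drain .R tokBody) (.seq finA (.seq finB (.seq finC (move .P .O)))))

/-- Size bound. -/
def gB (n : ℕ) : ℕ := 1000 * (n + 1) ^ 2

/-- Time bounds of the stages. -/
def t1 (n : ℕ) : ℕ := n * (cT (gB n) + 1) + 1

def t2 (n : ℕ) : ℕ := 5 * cB (gB n) + 10 * gB n + 20

def t3 (n : ℕ) : ℕ := 4 * t1 n + 30

def t4 (n : ℕ) : ℕ := 24 * (t1 n + t2 n + t3 n) + 8 * gB n + 5

def t5 (n : ℕ) : ℕ := 2 * (t1 n + t2 n + t3 n + t4 n) + 1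

def tAll (n : ℕ) : ℕ := (35 * n + 1) + (t1 n + (t2 n + (t3 n + (t4 n + t5 n))))

theorem ru_prog (φ : BExpr (ℕ ⊕ ℕ)) :
    Ru prog {i := encB2 φ} {o := encMEE (red φ)} (tAll (encB2 φ).length) := by
  generalize hnn : (encB2 φ).length = n
  have hnodes := nodes_le φ
  have hoff := offT_tms φ 0
  have hM : mOf φ = 32 * n := by unfold mOf; rw [hnn]
  have hexs := encL_exs φ
  have hins := encL_insAll_le [] (exs φ)
  have hnil : (encL []).length = 0 := rfl
  rw [hnn] at hnodes hexs
  have hgn : n ≤ gB n := by unfold gB; nlinarith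
  have hOM : offT (tms φ 0) * mOf φ + 5 * mOf φ ≤ gB n := by
    rw [hM]
    have h1 : offT (tms φ 0) ≤ 20 * n := by omega
    have h2 : offT (tms φ 0) * (32 * n) ≤ (20 * n) * (32 * n) := Nat.mul_le_mul_right _ h1
    have h3 : gB n = 1000 * (n * n) + 2000 * n + 1000 := by unfold gB; ring
    have h4 : (20 * n) * (32 * n) = 640 * (n * n) := by ring
    rw [h3]
    omega
  generalize hO : offT (tms φ 0) = O at *
  generalize hMM : mOf φ = M at *
  -- stage 0
  have e0 : Ru prep {i := encB2 φ} (cfg M ((encB2 φ).reverse ++ []) [] [] [] [] 0 0 [] 0)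
      (35 * n + 1) := by
    refine (ru_prep {i := encB2 φ}).conv ?_ (by simp [hnn])
    simp [cfg, hnn, hM, encL]
  -- stage 1
  have i1 := main_it (gB n) M φ [] [] [] [] 0 0 [] 0 (by omega) (by omega) (by rw [hO]; omega)
    (by omega)
  rw [hO, hnn] at i1
  obtain ⟨B1, hB1, i1⟩ := i1
  have e1 := (i1.done rfl).mono (B' := t1 n) (by
    unfold t1
    omega)
  -- the other stages
  have e2 := (ru_finA (gB n) M ((preT M 0 (tms φ 0)).reverse ++ []) ((zstr (exs φ)).reverse ++ [])
    (0 + O * M) (0 + nodes φ) (insAll [] (exs φ)) (0 + O * (M + 1)) (by omega)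
    (by omega)).mono (B' := t2 n) le_rfl
  have e3 := ru_finB M ((encX (.var (nl .g))).reverse ++ .and :: ((bundleStr .and
    (0 + O * M + 4 * M) M).reverse
        ++ ((preT M (0 + O * M) [[(.c, true), (.s (0 + nodes φ), true), (.a0, false)]]).reverse ++
          ((preT M 0 (tms φ 0)).reverse ++ [])))) ((zstr (exs φ)).reverse ++ [])
    (0 + O * M + 5 * M) (0 + nodes φ) (insAll [] (exs φ)) (0 + O * (M + 1) + 4 * (M + 1) + M + 1)
  have l1z : ((zstr (exs φ)).reverse ++ []).length ≤ t1 n := by
    have := e1.len .Z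
    simpa [St.fn, cfg] using this
  have e3 := e3.mono (B' := t3 n) (by unfold t3; omega)
  generalize hPP : (Sy.sep :: ((encX (.var (nl .a0))).reverse ++ ((encX (.var (nl .c))).reverse ++
        Sy.or :: ((zstr (exs φ)).reverse ++ [] ++ ((encX (.var (nl .g))).reverse ++
          Sy.and :: ((bundleStr .and (0 + O * M + 4 * M) M).reverse
        ++ ((preT M (0 + O * M) [[(.c, true), (.s (0 + nodes φ), true), (.a0, false)]]).reverse ++
          ((preT M 0 (tms φ 0)).reverse ++ [])))))))) = PP at e3
  generalize hKK : 0 + O * (M + 1) + 4 * (M + 1) + M + 1 + 1 = KK at e3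
  have e4 := ru_finC M PP (0 + O * M + 5 * M) (0 + nodes φ) (insAll [] (exs φ)) KK
  have e123 := e1.seq (e2.seq e3)
  have lu := e123.len .U
  have lu' : KK + (insAll [] (exs φ)).length ≤ t1 n + (t2 n + t3 n) := by
    simpa [St.fn, cfg] using lu
  have e4 := e4.mono (B' := t4 n) (by unfold t4; omega)
  have e5 : Ru (move .P .O)
      {p := (encNat (KK + (insAll [] (exs φ)).length)).reverse ++ PP}
      {o := ((encNat (KK + (insAll [] (exs φ)).length)).reverse ++ PP).reverse}
      (2 * ((encNat (KK + (insAll [] (exs φ)).length)).reverse ++ PP).length + 1) := by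
    refine (ru_move (k := .P) (k' := .O) (by decide) _).conv ?_ le_rfl
    simp [St.put, St.fn]
  have e14 := e1.seq (e2.seq (e3.seq e4))
  have lp := e14.len .P
  have lp' : ((encNat (KK + (insAll [] (exs φ)).length)).reverse ++ PP).length ≤
      t1 n + (t2 n + (t3 n + t4 n)) := by
    simpa [St.fn, cfg] using lp
  have e5 := e5.mono (B' := t5 n) (by unfold t5; omega)
  refine (e0.seq (e1.seq (e2.seq (e3.seq (e4.seq e5))))).conv ?_ ?_
  · congr 1
    unfold encMEE red
    simp only
    rw [encX_redF, hO, hMM]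
    have hK : redK φ = KK + (insAll [] (exs φ)).length := by
      rw [length_insAll, ← hKK]
      unfold redK
      have h1 : allT φ = tms φ 0 ++ lastT φ := rfl
      have h2 : offT (lastT φ) = 4 := rfl
      rw [h1, offT_append, h2, hO, hMM]
      ring
    rw [hK, ← hPP]
    unfold lastT
    simp only [zero_add, List.append_nil, List.reverse_append, List.reverse_cons,
      List.reverse_reverse, List.append_assoc, List.cons_append, List.nil_append]
  · exact le_rfl

end Pool.Agent.Helper64.MEE
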